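import Pool.Agent.Lib.MP_89bcae_ag.Zt.LA

set_option autoImplicit false

/-!
# Spaces of endomorphisms stable under an orthogonal group in characteristic two contain injective elements
-/

namespace ZInj

open Module

section Orth

variable {V : Type*} [AddCommGroup V] [Module (ZMod 2) V]

theorem add_self_two (x : V) : x + x = 0 := by
  have : (2 : ZMod 2) • x = x + x := two_smul _ x
  rw [← this, show (2 : ZMod 2) = 0 from rfl, zero_smul]

theorem eq_of_add (x y : V) (h : x + y = 0) : x = y := by
  have h1 := congrArg (fun t => t + y) h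
  simp only [zero_add] at h1
  rwa [add_assoc, add_self_two, add_zero] at h1

/-- The map `x ↦ α B(x, u) v + β B(x, v) u`. -/
def tt (B : LinearMap.BilinForm (ZMod 2) V) (α β : ZMod 2) (u v : V) : Module.End (ZMod 2) V :=
  α • el B u v + β • el B v u

theorem tt_apply (B : LinearMap.BilinForm (ZMod 2) V) (α β : ZMod 2) (u v x : V) :
    tt B α β u v x = (α * B x u) • v + (β * B x v) • u := by
  rw [tt, LinearMap.add_apply, LinearMap.smul_apply, LinearMap.smul_apply, el_apply, el_apply, smul_smul, smul_smul]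

theorem tt_add (B : LinearMap.BilinForm (ZMod 2) V) (α β : ZMod 2) (u v v' : V) :
    tt B α β u (v + v') = tt B α β u v + tt B α β u v' := by
  rw [tt, tt, tt, el_add, el_add', smul_add, smul_add]
  abel

theorem tt_add' (B : LinearMap.BilinForm (ZMod 2) V) (α β : ZMod 2) (u u' v : V) :
    tt B α β (u + u') v = tt B α β u v + tt B α β u' v := by
  rw [tt, tt, tt, el_add, el_add', smul_add, smul_add]
  abel

variable [FiniteDimensional (ZMod 2) V] (B : LinearMap.BilinForm (ZMod 2) V) (q : V → ZMod 2)
  (halt : ∀ v, B v v = 0)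
  (hnd : ∀ v, (∀ w, B v w = 0) → v = 0) (hq : ∀ x y, q (x + y) = q x + q y + B x y)
  (hd : 6 < finrank (ZMod 2) V)

include hnd hq hd

theorem exists_z3 (a b c u : V) :
    ∃ z, B a z = 0 ∧ B b z = 0 ∧ B c z = 0 ∧ q z + B u z = 1 := by
  classical
  by_contra hcon
  push Not at hcon
  have hker : LinearMap.ker B = ⊥ := by
    rw [eq_bot_iff]
    intro v hv
    rw [LinearMap.mem_ker] at hv
    rw [Submodule.mem_bot]
    apply hnd
    intro w
    rw [hv]
    rfl
  have hdim : ∀ W : Submodule (ZMod 2) V,
      finrank (ZMod 2) W + finrank (ZMod 2) (B.orthogonal W) = finrank (ZMod 2) V := by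
    intro W
    have h := LinearMap.BilinForm.finrank_add_finrank_orthogonal' (B := B) W
    rwa [hker, inf_bot_eq, finrank_bot, add_zero] at h
  set W : Submodule (ZMod 2) V := Submodule.span (ZMod 2) ({a, b, c} : Set V) with hW
  have h2 : finrank (ZMod 2) W ≤ 3 := by
    have h3 := finrank_span_finset_le_card (R := ZMod 2) ({a, b, c} : Finset V)
    rw [Finset.coe_insert, Finset.coe_insert, Finset.coe_singleton] at h3
    exact h3.trans Finset.card_le_three
  have h3 : B.orthogonal W ≤ B.orthogonal (B.orthogonal W) := by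
    have hz : ∀ z ∈ B.orthogonal W, q z + B u z = 0 := by
      intro z hz
      rw [LinearMap.BilinForm.mem_orthogonal_iff] at hz
      have h4 : B a z = 0 := hz a (Submodule.subset_span (by simp))
      have h5 : B b z = 0 := hz b (Submodule.subset_span (by simp))
      have h5' : B c z = 0 := hz c (Submodule.subset_span (by simp))
      rcases ZOrd.zmod_two (q z + B u z) with h6 | h6
      · exact h6
      · exact absurd h6 (hcon z h4 h5 h5')
    intro z hz1
    rw [LinearMap.BilinForm.mem_orthogonal_iff]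
    intro y hy
    have h4 := hz _ (Submodule.add_mem _ hy hz1)
    rw [hq, map_add] at h4
    have h5 := hz _ hz1
    have h6 := hz _ hy
    change B y z = 0
    linear_combination h4 - h5 - h6
  have h4 := Submodule.finrank_mono h3
  have h5 := hdim W
  have h6 := hdim (B.orthogonal W)
  omega

include halt

/-- A nonsingular vector orthogonal to `a` and `b` and not to `c`. -/
theorem exists_q (a b c : V) (hc : c ∉ Submodule.span (ZMod 2) ({a, b} : Set V)) :
    ∃ w, B a w = 0 ∧ B b w = 0 ∧ B c w = 1 ∧ q w = 1 := by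
  obtain ⟨w, h1, h2⟩ := sep B halt hnd _ c hc
  have ha : B a w = 0 := h1 a (Submodule.subset_span (by simp))
  have hb : B b w = 0 := h1 b (Submodule.subset_span (by simp))
  rcases ZOrd.zmod_two (q w) with h3 | h3
  · obtain ⟨z, hz1, hz2, hz3, hz4⟩ := exists_z3 B q hnd hq hd a b c w
    refine ⟨w + z, ?_, ?_, ?_, ?_⟩
    · rw [map_add, ha, hz1, add_zero]
    · rw [map_add, hb, hz2, add_zero]
    · rw [map_add, h2, hz3, add_zero]
    · rw [hq, h3, zero_add, hz4]
  · exact ⟨w, ha, hb, h2, h3⟩

/-- A nonsingular vector orthogonal to `u` and not to `w` and `c`. -/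
theorem exists_qq (u w c : V) (hw : w ≠ 0) (hwu : w ≠ u) (hc : c ≠ 0) (hcu : c ≠ u) :
    ∃ v, B u v = 0 ∧ B w v = 1 ∧ B c v = 1 ∧ q v = 1 := by
  obtain ⟨v, h1, h2, h3, h4⟩ := exists_q B q halt hnd hq hd u (w + c) w (by
    intro h
    obtain ⟨α, β, h1⟩ := Submodule.mem_span_pair.1 h
    rcases ZOrd.zmod_two α with rfl | rfl <;> rcases ZOrd.zmod_two β with rfl | rfl
    · rw [zero_smul, zero_smul, add_zero] at h1
      exact hw h1.symm
    · rw [zero_smul, one_smul, zero_add] at h1
      exact hc (add_eq_left.1 h1)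
    · rw [zero_smul, one_smul, add_zero] at h1
      exact hwu h1.symm
    · rw [one_smul, one_smul, add_left_comm] at h1
      have h2 := add_eq_left.1 h1
      exact hcu (eq_of_add _ _ h2).symm)
  refine ⟨v, h1, h3, ?_, h4⟩
  rw [map_add, LinearMap.add_apply, h3] at h2
  rcases ZOrd.zmod_two (B c v) with h5 | h5
  · rw [h5, add_zero] at h2
    exact absurd h2 one_ne_zero
  · exact h5

/-- A nonsingular vector orthogonal to `u` and `y`, different from `u` and `y + u`. -/
theorem exists_nz (u y : V) : ∃ z, q z = 1 ∧ B u z = 0 ∧ B y z = 0 ∧ z ≠ u ∧ z ≠ y + u := by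
  obtain ⟨c, hc1, hc2, hc3⟩ := exists_indep B halt hnd (by omega) u y
  obtain ⟨z, h1, h2, h3, h4⟩ := exists_q B q halt hnd hq hd u y c hc3
  have hs : ∀ x y, B x y = B y x := fun x y => by
    rw [ZSymp.skew B halt x y, ZMod.neg_eq_self_mod_two]
  refine ⟨z, h4, h1, h2, ?_, ?_⟩
  · rintro rfl
    rw [hs, hc1] at h3
    exact zero_ne_one h3
  · rintro rfl
    rw [map_add, hs c, hc2, hs c, hc1, add_zero] at h3
    exact zero_ne_one h3

/-- Case two: a scalar. -/
theorem orth_scalar (T : Module.End (ZMod 2) V) (hT0 : T ≠ 0)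
    (hT : ∀ u w, q u = 1 → q w = 1 → B u w = 0 → u ≠ w → B (T u) w = 0) : Function.Injective T := by
  have hs : ∀ x y, B x y = B y x := fun x y => by
    rw [ZSymp.skew B halt x y, ZMod.neg_eq_self_mod_two]
  have hq0 : q 0 = 0 := by
    have h := hq 0 0
    rw [add_zero, map_zero, add_zero] at h
    exact left_eq_add.1 h
  have hne : ∀ u, q u = 1 → u ≠ 0 := by
    rintro u hu rfl
    rw [hq0] at hu
    exact zero_ne_one hu
  have h1 : ∀ u, q u = 1 → T u = 0 ∨ T u = u := by
    intro u hu
    by_contra hcon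
    rw [not_or] at hcon
    set y := T u with hy
    obtain ⟨c, hc1, hc2, hc3⟩ : ∃ c, B u c = 1 ∧ c ≠ y ∧ c ≠ y + u := by
      rcases ZOrd.zmod_two (B u y) with h | h
      · obtain ⟨c, hc⟩ := ZOrd.exists_one B hnd u (hne u hu)
        refine ⟨c, hc, ?_, ?_⟩
        · rintro rfl
          rw [h] at hc
          exact zero_ne_one hc
        · rintro rfl
          rw [map_add, h, halt, add_zero] at hc
          exact zero_ne_one hc
      · obtain ⟨d, hd1, -, hd3⟩ := exists_indep B halt hnd (by omega) u u
        refine ⟨y + d, ?_, ?_, ?_⟩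
        · rw [map_add, h, hd1, add_zero]
        · intro h2
          have h3 := add_eq_left.1 h2
          rw [h3] at hd3
          exact hd3 (Submodule.zero_mem _)
        · intro h2
          have h3 := add_left_cancel h2
          rw [h3] at hd3
          exact hd3 (Submodule.subset_span (by simp))
    obtain ⟨w, hw1, hw2, hw3, hw4⟩ := exists_q B q halt hnd hq hd u c y (by
      intro h
      obtain ⟨α, β, h1⟩ := Submodule.mem_span_pair.1 h
      rcases ZOrd.zmod_two α with rfl | rfl <;> rcases ZOrd.zmod_two β with rfl | rfl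
      · rw [zero_smul, zero_smul, add_zero] at h1
        exact hcon.1 h1.symm
      · rw [zero_smul, one_smul, zero_add] at h1
        exact hc2 h1
      · rw [zero_smul, one_smul, add_zero] at h1
        exact hcon.2 h1.symm
      · rw [one_smul, one_smul] at h1
        apply hc3
        rw [← h1, add_comm u c, add_assoc, add_self_two, add_zero])
    have h2 : u ≠ w := by
      rintro rfl
      rw [hs, hc1] at hw2
      exact one_ne_zero hw2
    have h3 := hT u w hu hw4 hw1 h2
    rw [← hy, hw3] at h3
    exact one_ne_zero h3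
  have h2 : ∀ u v, q u = 1 → q v = 1 → B u v = 1 → T u = 0 → T v = 0 := by
    intro u v hu hv huv hTu
    rcases h1 v hv with h3 | h3
    · exact h3
    · have h4 : q (u + v) = 1 := by
        rw [hq, hu, hv, huv]
        decide
      rcases h1 _ h4 with h5 | h5
      · rw [map_add, hTu, zero_add] at h5
        exact h5
      · rw [map_add, hTu, zero_add, h3] at h5
        exact absurd (right_eq_add.1 h5) (hne u hu)
  have h3 : ∀ u v, q u = 1 → q v = 1 → T u = 0 → T v = 0 := by
    intro u v hu hv hTu
    obtain ⟨p, -, hp1, hp2, hp3⟩ := exists_qq B q halt hnd hq hd 0 u v (hne u hu) (hne u hu) (hne v hv) (hne v hv)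
    refine h2 p v hp3 hv (by rw [hs, hp2]) (h2 u p hu hp3 hp1 hTu)
  have h4 : ∀ x, ∃ a b, q a = 1 ∧ q b = 1 ∧ (x = a ∨ x = a + b) := by
    intro x
    obtain ⟨z, hz, -, hz2, -⟩ := exists_nz B q halt hnd hq hd 0 x
    rcases ZOrd.zmod_two (q x) with h | h
    · refine ⟨x + z, z, ?_, hz, Or.inr ?_⟩
      · rw [hq, h, hz, hz2]
        decide
      · rw [add_assoc, add_self_two, add_zero]
    · exact ⟨x, z, h, hz, Or.inl rfl⟩
  have h5 : ∀ u, q u = 1 → T u = u := by
    intro u hu
    rcases h1 u hu with h6 | h6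
    · exfalso
      apply hT0
      ext x
      obtain ⟨a, b, ha, hb, h7 | h7⟩ := h4 x
      · rw [h7, h3 u a hu ha h6]
        rfl
      · rw [h7, map_add, h3 u a hu ha h6, h3 u b hu hb h6, add_zero]
        rfl
    · exact h6
  have h6 : ∀ x, T x = x := by
    intro x
    obtain ⟨a, b, ha, hb, h7 | h7⟩ := h4 x
    · rw [h7, h5 a ha]
    · rw [h7, map_add, h5 a ha, h5 b hb]
  intro x y hxy
  rwa [h6, h6] at hxy

variable (A : Submodule (ZMod 2) (Module.End (ZMod 2) V))
  (hA : ∀ T ∈ A, ∀ v, q v = 1 → (1 + el B v v) * T * (1 + el B v v) ∈ A)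

include hA

omit [FiniteDimensional (ZMod 2) V] hnd hq hd in
theorem tt_step (α β : ZMod 2) (u w v : V) (h : tt B α β u w ∈ A) (hv : q v = 1) (huv : B u v = 0)
    (hwv : B w v = 1) : tt B α β u v ∈ A := by
  have hs : ∀ x y, B x y = B y x := fun x y => by
    rw [ZSymp.skew B halt x y, ZMod.neg_eq_self_mod_two]
  have h1 := hA _ h v hv
  have h2 : (1 + el B v v) * tt B α β u w * (1 + el B v v) = tt B α β u (w + v) := by
    ext x
    have h3 : B v u = 0 := by rw [hs, huv]
    have h4 : B v w = 1 := by rw [hs, hwv]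
    simp only [Module.End.mul_apply, LinearMap.add_apply, Module.End.one_apply, el_apply,
      map_add, map_smul, LinearMap.smul_apply, smul_eq_mul, tt_apply, h3, h4, huv, hwv]
    module
  rw [h2, tt_add] at h1
  have h3 := A.sub_mem h1 h
  rwa [add_sub_cancel_left] at h3

theorem tt_all (α β : ZMod 2) (u w : V) (hu : q u = 1) (h : tt B α β u w ∈ A) (hw : w ≠ 0) (hwu : w ≠ u) (y : V)
    (huy : B u y = 0) : tt B α β u y ∈ A := by
  have hs : ∀ x y, B x y = B y x := fun x y => by
    rw [ZSymp.skew B halt x y, ZMod.neg_eq_self_mod_two]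
  have hq0 : q 0 = 0 := by
    have h := hq 0 0
    rw [add_zero, map_zero, add_zero] at h
    exact left_eq_add.1 h
  -- nonsingular vectors
  have h1 : ∀ y, q y = 1 → B u y = 0 → y ≠ u → tt B α β u y ∈ A := by
    intro y hy huy hyu
    have hy0 : y ≠ 0 := by
      rintro rfl
      rw [hq0] at hy
      exact zero_ne_one hy
    obtain ⟨v, hv1, hv2, hv3, hv4⟩ := exists_qq B q halt hnd hq hd u w y hw hwu hy0 hyu
    exact tt_step B q halt A hA α β u v y (tt_step B q halt A hA α β u w v h hv4 hv1 hv2) hy huy
      (by rw [hs, hv3])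
  -- singular vectors
  have h2 : ∀ y, q y = 0 → B u y = 0 → tt B α β u y ∈ A := by
    intro y hy huy
    obtain ⟨z, hz1, hz2, hz3, hz4, hz5⟩ := exists_nz B q halt hnd hq hd u y
    have h3 := h1 z hz1 hz2 hz4
    have h4 := h1 (y + z) (by rw [hq, hy, hz1, hz3]; decide) (by rw [map_add, huy, hz2, add_zero]) (by
      intro h5
      apply hz5
      rw [← h5, ← add_assoc, add_self_two, zero_add])
    rw [tt_add] at h4
    have h5 := A.sub_mem h4 h3
    rwa [add_sub_cancel_right] at h5
  rcases ZOrd.zmod_two (q y) with h3 | h3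
  · exact h2 y h3 huy
  · by_cases hyu : y = u
    · subst hyu
      obtain ⟨z, hz1, hz2, -, hz4, -⟩ := exists_nz B q halt hnd hq hd y 0
      have h4 := h1 z hz1 hz2 hz4
      have h5 := h2 (y + z) (by rw [hq, hu, hz1, hz2]; decide) (by rw [map_add, huy, hz2, add_zero])
      rw [tt_add] at h5
      have h6 := A.sub_mem h5 h4
      rwa [add_sub_cancel_right] at h6
    · exact h1 y h3 huy hyu

theorem tt_move (α β : ZMod 2) (u : V) (hu : q u = 1) (h : ∀ v, B u v = 0 → tt B α β u v ∈ A) (z : V)
    (hz : q z = 1) (v : V) (hv : B z v = 0) : tt B α β z v ∈ A := by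
  have hs : ∀ x y, B x y = B y x := fun x y => by
    rw [ZSymp.skew B halt x y, ZMod.neg_eq_self_mod_two]
  have hq0 : q 0 = 0 := by
    have h := hq 0 0
    rw [add_zero, map_zero, add_zero] at h
    exact left_eq_add.1 h
  have hne : ∀ u, q u = 1 → u ≠ 0 := by
    rintro u hu rfl
    rw [hq0] at hu
    exact zero_ne_one hu
  have key : ∀ u z, q u = 1 → q z = 1 → B u z = 1 → (∀ v, B u v = 0 → tt B α β u v ∈ A) →
      ∀ v, B z v = 0 → tt B α β z v ∈ A := by
    intro u z hu hz huz h
    obtain ⟨v, hv1, hv2, hv3⟩ := exists_indep B halt hnd (by omega) u z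
    have h1 := hA _ (h v hv1) z hz
    have h2 : (1 + el B z z) * tt B α β u v * (1 + el B z z) = tt B α β (u + z) v := by
      ext x
      have h3 : B z u = 1 := by rw [hs, huz]
      have h4 : B v z = 0 := by rw [hs, hv2]
      simp only [Module.End.mul_apply, LinearMap.add_apply, Module.End.one_apply, el_apply,
        map_add, map_smul, LinearMap.smul_apply, smul_eq_mul, tt_apply, h3, h4, huz, hv2]
      module
    rw [h2, tt_add'] at h1
    have h3 := A.sub_mem h1 (h v hv1)
    rw [add_sub_cancel_left] at h3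
    refine tt_all B q halt hnd hq hd A hA α β z v hz h3 ?_ ?_
    · rintro rfl
      exact hv3 (Submodule.zero_mem _)
    · rintro rfl
      exact hv3 (Submodule.subset_span (by simp))
  obtain ⟨p, -, hp1, hp2, hp3⟩ := exists_qq B q halt hnd hq hd 0 u z (hne u hu) (hne u hu) (hne z hz) (hne z hz)
  exact key p z hp3 hz (by rw [hs, hp2]) (key u p hu hp3 hp1 h) v hv

theorem orth_pairs (b : ZMod 2) (u : V) (hu : q u = 1) (h : ∀ v, B u v = 0 → tt B 1 b u v ∈ A) :
    ∃ T ∈ A, Function.Injective T := by
  have h1 : ∀ u, q u = 1 → ∀ v, B u v = 0 → tt B 1 1 u v ∈ A := by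
    have h2 : ∀ z, q z = 1 → ∀ v, B z v = 0 → tt B 1 b z v ∈ A :=
      fun z hz v hv => tt_move B q halt hnd hq hd A hA 1 b u hu h z hz v hv
    rcases ZOrd.zmod_two b with rfl | rfl
    · intro u hu
      have hs : ∀ x y, B x y = B y x := fun x y => by
        rw [ZSymp.skew B halt x y, ZMod.neg_eq_self_mod_two]
      have hq0 : q 0 = 0 := by
        have h := hq 0 0
        rw [add_zero, map_zero, add_zero] at h
        exact left_eq_add.1 h
      obtain ⟨w, hw1, hw2, -, hw4, -⟩ := exists_nz B q halt hnd hq hd u 0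
      have h3 := h2 u hu w hw2
      have h4 := h2 w hw1 u (by rw [hs, hw2])
      have h5 : tt B 1 1 u w = tt B 1 0 u w + tt B 1 0 w u := by
        ext x
        simp only [tt_apply, LinearMap.add_apply]
        module
      refine tt_all B q halt hnd hq hd A hA 1 1 u w hu ?_ ?_ hw4
      · rw [h5]
        exact A.add_mem h3 h4
      · rintro rfl
        rw [hq0] at hw1
        exact zero_ne_one hw1
    · exact h2
  refine inj_of_pairs B halt hnd (by omega) 1 one_ne_zero A fun x y hxy => ?_
  have h3 : el B y x + (1 : ZMod 2) • el B x y = tt B 1 1 x y := by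
    rw [tt, one_smul, one_smul, add_comm]
  rw [h3]
  rcases ZOrd.zmod_two (q x) with h4 | h4
  · obtain ⟨z, hz1, hz2, hz3, -, -⟩ := exists_nz B q halt hnd hq hd x y
    have hs : ∀ x y, B x y = B y x := fun x y => by
      rw [ZSymp.skew B halt x y, ZMod.neg_eq_self_mod_two]
    have h5 := h1 z hz1 y (by rw [hs, hz3])
    have h6 := h1 (x + z) (by rw [hq, h4, hz1, hz2]; decide) y (by
      rw [map_add, LinearMap.add_apply, hxy, hs z, hz3, add_zero])
    rw [tt_add'] at h6
    have h7 := A.sub_mem h6 h5
    rwa [add_sub_cancel_right] at h7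
  · exact h1 x h4 y hxy

/-- A nonzero space of endomorphisms stable under the conjugation by the orthogonal transvections contains an
injective one. -/
theorem orth_inj (hne : A ≠ ⊥) : ∃ T ∈ A, Function.Injective T := by
  have hq0 : q 0 = 0 := by
    have h := hq 0 0
    rw [add_zero, map_zero, add_zero] at h
    exact left_eq_add.1 h
  obtain ⟨T, hT, hT0⟩ := A.ne_bot_iff.1 hne
  by_cases hc : ∀ u w, q u = 1 → q w = 1 → B u w = 0 → u ≠ w → B (T u) w = 0
  · exact ⟨T, hT, orth_scalar B q halt hnd hq hd T hT0 hc⟩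
  push Not at hc
  obtain ⟨u, w, hu, hw, huw, hne, hTu⟩ := hc
  have hTu1 : B (T u) w = 1 := by
    rcases ZOrd.zmod_two (B (T u) w) with h | h
    · exact absurd h hTu
    · exact h
  have hs : ∀ x y, B x y = B y x := fun x y => by
    rw [ZSymp.skew B halt x y, ZMod.neg_eq_self_mod_two]
  have h1 := A.sub_mem (hA T hT u hu) hT
  have h2 := A.sub_mem (hA _ h1 w hw) h1
  have h3 : (1 + el B w w) * ((1 + el B u u) * T * (1 + el B u u) - T) * (1 + el B w w) -
      ((1 + el B u u) * T * (1 + el B u u) - T) = tt B 1 (B (T w) u) u w := by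
    have e1 : (el B w w : Module.End (ZMod 2) V) * el B u u = 0 := by
      ext x
      simp [el_apply, huw]
    have e2 : (el B u u : Module.End (ZMod 2) V) * el B w w = 0 := by
      ext x
      simp [el_apply, hs w u, huw]
    have e3 : (1 + el B w w) * ((1 + el B u u) * T * (1 + el B u u) - T) * (1 + el B w w) -
        ((1 + el B u u) * T * (1 + el B u u) - T) = el B w w * T * el B u u + el B u u * T * el B w w +
        ((el B w w * el B u u) * T + (el B w w * el B u u) * T * el B u u + T * (el B u u * el B w w) +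
        el B u u * T * (el B u u * el B w w) + (el B w w * el B u u) * T * el B w w +
        el B w w * T * (el B u u * el B w w) + (el B w w * el B u u) * T * (el B u u * el B w w)) := by
      noncomm_ring
    rw [e3, e1, e2]
    simp only [zero_mul, mul_zero, add_zero]
    ext x
    simp only [LinearMap.add_apply, Module.End.mul_apply, el_apply, map_smul, LinearMap.smul_apply, tt_apply,
      smul_eq_mul, hTu1]
    module
  rw [h3] at h2
  refine orth_pairs B q halt hnd hq hd A hA (B (T w) u) u hu fun v hv => ?_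
  refine tt_all B q halt hnd hq hd A hA 1 (B (T w) u) u w hu h2 ?_ hne.symm v hv
  rintro rfl
  rw [hq0] at hw
  exact zero_ne_one hw

end Orth

end ZInj
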