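import Pool.Agent.Lib.MP_89bcae_ag.Zt.LS
import Pool.Agent.Lib.MP_89bcae_ag.Zt.LO
import Pool.Agent.Lib.MP_89bcae_ag.Z.Crit

set_option autoImplicit false

/-!
# Groups of endomorphisms of a subgroup with a symplectic or orthogonal group of automorphisms
-/

namespace ZInj

open Module

open Pool.Agent.Lib.MP_89bcae_ag.Zs (stab actU)

section Abs

variable {Γ W : Type*} [Group Γ] [AddCommGroup W] [DistribMulAction Γ W]

/-- The stable nonzero subgroups of `U` are equal to `U`. -/
theorem eq_of_irr (U : AddSubgroup W) (good : (U ≃+ U) → Prop)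
    (hgood : ∀ (S : Subgroup Γ) (_ : DistribMulAction S U),
      (∀ f : U ≃+ U, good f → ∃ g : S, ∀ v, g • v = f v) → ∀ N : AddSubgroup U,
      (∀ g : S, ∀ v ∈ N, g • v ∈ N) → N ≠ ⊥ → N = ⊤)
    (hiso : ∀ f : U ≃+ U, good f → ∃ g : Γ, ∀ v : U, g • (v : W) = f v)
    (N : AddSubgroup W) (hNU : N ≤ U) (hne : N ≠ ⊥) (hN : ∀ g : Γ, ∀ v ∈ N, g • v ∈ N) : N = U := by
  have hN1 : N.addSubgroupOf U ≠ ⊥ := by
    intro h
    apply hne
    rw [AddSubgroup.addSubgroupOf_eq_bot] at h
    rw [eq_bot_iff]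
    intro x hx
    exact h.le_bot ⟨hx, hNU hx⟩
  refine le_antisymm hNU ?_
  let act := actU U (stab U : Subgroup Γ) (fun γ hγ u hu => (hγ u).2 hu)
  have h := hgood (stab U) act ?_ (N.addSubgroupOf U) ?_ hN1
  · rwa [AddSubgroup.addSubgroupOf_eq_top] at h
  · intro f hf
    obtain ⟨γ, hγ⟩ := hiso f hf
    refine ⟨⟨γ, fun u => ⟨fun hu => ?_, fun hu => ?_⟩⟩, fun v => Subtype.ext (hγ v)⟩
    · have h1 := hγ (f.symm ⟨γ • u, hu⟩)
      rw [AddEquiv.apply_symm_apply] at h1
      have h2 := smul_left_cancel γ h1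
      rw [← h2]
      exact (f.symm ⟨γ • u, hu⟩).2
    · have h1 := hγ ⟨u, hu⟩
      change γ • u = _ at h1
      rw [h1]
      exact (f ⟨u, hu⟩).2
  · intro g v hv
    rw [AddSubgroup.mem_addSubgroupOf] at hv ⊢
    exact hN g v hv

/-- The conjugates of the elements of `A`. -/
theorem conj_mem (N : AddSubgroup W) (A : AddSubgroup (N →+ N))
    (hA : ∀ (g : Γ), ∀ K ∈ A, ∃ K' ∈ A, ∀ r r' : N, (r' : W) = g • (r : W) →
      ((K' r' : N) : W) = g • ((K r : N) : W)) (f : N ≃+ N) (hf : ∃ g : Γ, ∀ v : N, g • (v : W) = f v)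
    (K : N →+ N) (hK : K ∈ A) : (f : N →+ N).comp (K.comp (f.symm : N →+ N)) ∈ A := by
  obtain ⟨g, hg⟩ := hf
  obtain ⟨K', hK', h⟩ := hA g K hK
  have h1 : (f : N →+ N).comp (K.comp (f.symm : N →+ N)) = K' := by
    ext x
    have h2 := h (f.symm x) x (by rw [hg, AddEquiv.apply_symm_apply])
    rw [h2, hg]
    rfl
  rw [h1]
  exact hK'

theorem ne_bot_of (N : AddSubgroup W) (A : AddSubgroup (N →+ N)) (hne : A ≠ ⊥) : N ≠ ⊥ := by
  rintro rfl
  apply hne
  rw [eq_bot_iff]
  intro K _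
  rw [AddSubgroup.mem_bot]
  ext x
  have h1 : K x = 0 := Subsingleton.elim _ _
  rw [h1]
  rfl

end Abs

section lin

variable {l : ℕ} {V : Type*} [AddCommGroup V] [Module (ZMod l) V]

/-- The space of the linear maps in a group of additive maps. -/
def linOf (A : AddSubgroup (V →+ V)) : Submodule (ZMod l) (Module.End (ZMod l) V) :=
  AddSubgroup.toZModSubmodule l (A.comap (AddMonoidHom.mk' (fun T : Module.End (ZMod l) V => T.toAddMonoidHom)
    fun _ _ => rfl))

theorem mem_linOf (A : AddSubgroup (V →+ V)) (T : Module.End (ZMod l) V) :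
    T ∈ linOf A ↔ T.toAddMonoidHom ∈ A := Iff.rfl

theorem linOf_ne (A : AddSubgroup (V →+ V)) (hA : A ≠ ⊥) : (linOf A : Submodule (ZMod l) _) ≠ ⊥ := by
  obtain ⟨⟨K, hK⟩, hK1⟩ := AddSubgroup.ne_bot_iff_exists_ne_zero.1 hA
  have hK0 : K ≠ 0 := fun h => hK1 (Subtype.ext h)
  intro h
  apply hK0
  have h1 : K.toZModLinearMap l ∈ (linOf A : Submodule (ZMod l) _) := hK
  rw [h, Submodule.mem_bot] at h1
  ext x
  exact LinearMap.congr_fun h1 x

theorem frk [hl : Fact l.Prime] [Finite V] {n : ℕ} (h : Nat.card V = l ^ n) : finrank (ZMod l) V = n := by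
  have h1 := Module.natCard_eq_pow_finrank (K := ZMod l) (V := V)
  rw [h, Nat.card_zmod] at h1
  exact (Nat.pow_right_injective hl.out.two_le h1).symm

/-- The symplectic case. -/
theorem symp_grp [hl : Fact l.Prime] [Finite V] (hl2 : l ≠ 2) (B : LinearMap.BilinForm (ZMod l) V)
    (halt : ∀ v, B v v = 0) (hnd : ∀ v, (∀ w, B v w = 0) → v = 0)
    (A : AddSubgroup (V →+ V)) (hne : A ≠ ⊥)
    (hA : ∀ f : V ≃+ V, (∀ v w, B (f v) (f w) = B v w) → ∀ K ∈ A, (f : V →+ V).comp (K.comp (f.symm : V →+ V)) ∈ A) :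
    ∃ K ∈ A, Function.Injective K := by
  have h2 : (2 : ZMod l) ≠ 0 := by
    intro h
    have h3 : ((2 : ℕ) : ZMod l) = 0 := by exact_mod_cast h
    rw [ZMod.natCast_eq_zero_iff] at h3
    exact hl2 ((Nat.prime_dvd_prime_iff_eq hl.out Nat.prime_two).1 h3)
  have hfd : Module.Finite (ZMod l) V := Module.Finite.of_finite
  obtain ⟨T, hT, hinj⟩ := symp_inj B halt hnd h2 (linOf A) (fun T hT v => by
    let f := ZSymp.transv B halt v
    have hf : ∀ x y, B (f x) (f y) = B x y := fun x y => ZSymp.transv_isom B halt v x y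
    have hf' : ∀ x y, B (f.symm x) (f.symm y) = B x y := fun x y => by
      rw [← hf, AddEquiv.apply_symm_apply, AddEquiv.apply_symm_apply]
    exact ⟨hA f hf _ hT, hA f.symm hf' _ hT⟩) (linOf_ne A hne)
  exact ⟨T.toAddMonoidHom, hT, hinj⟩

end lin

section lin2

variable {V : Type*} [AddCommGroup V] [Module (ZMod 2) V]

/-- The orthogonal case. -/
theorem orth_grp [Finite V] (B : LinearMap.BilinForm (ZMod 2) V) (q : V → ZMod 2)
    (halt : ∀ v, B v v = 0) (hnd : ∀ v, (∀ w, B v w = 0) → v = 0) (hq : ∀ v w, q (v + w) = q v + q w + B v w)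
    (hd : 6 < finrank (ZMod 2) V)
    (A : AddSubgroup (V →+ V)) (hne : A ≠ ⊥)
    (hA : ∀ f : V ≃+ V, (∀ v, q (f v) = q v) → ∀ K ∈ A, (f : V →+ V).comp (K.comp (f.symm : V →+ V)) ∈ A) :
    ∃ K ∈ A, Function.Injective K := by
  have hfd : Module.Finite (ZMod 2) V := Module.Finite.of_finite
  obtain ⟨T, hT, hinj⟩ := orth_inj B q halt hnd hq hd (linOf A) (fun T hT v hv => by
    let f := ZSymp.transv B halt v
    have hf : ∀ y, q (f y) = q y := by
      intro y
      change q (ZSymp.transv B halt v y) = q y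
      rw [ZSymp.transv_apply]
      rcases ZOrd.zmod_two (B y v) with h | h
      · rw [h, zero_smul, add_zero]
      · rw [h, one_smul, hq, hv, h, add_assoc, CharTwo.add_self_eq_zero, add_zero]
    have h1 := hA f hf _ hT
    rw [mem_linOf]
    convert h1 using 1
    ext x
    have h2 : f.symm x = x + B x v • v := by
      change x - B x v • v = _
      rw [sub_eq_add_neg, eq_of_add (-(B x v • v)) (B x v • v) (neg_add_cancel _)]
    change ((1 + el B v v) * T * (1 + el B v v)) x = f (T (f.symm x))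
    rw [h2]
    rfl) (linOf_ne A hne)
  exact ⟨T.toAddMonoidHom, hT, hinj⟩

end lin2

section Main

variable {Γ W : Type*} [Group Γ] [AddCommGroup W] [DistribMulAction Γ W]

theorem rich_symp {l : ℕ} [hl : Fact l.Prime] (hl2 : l ≠ 2) (U : AddSubgroup W)
    (hU : ∀ u : U, l • u = 0) (e : U →+ U →+ ZMod l) (halt : ∀ v, e v v = 0)
    (hnd : ∀ v, (∀ w, e v w = 0) → v = 0)
    (hiso : ∀ f : U ≃+ U, (∀ v w, e (f v) (f w) = e v w) → ∃ g : Γ, ∀ v : U, g • (v : W) = f v)
    (hcard : Finite U)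
    (N : AddSubgroup W) (hNU : N ≤ U) (hN : ∀ g : Γ, ∀ v ∈ N, g • v ∈ N)
    (A : AddSubgroup (N →+ N)) (hne : A ≠ ⊥)
    (hA : ∀ (g : Γ), ∀ K ∈ A, ∃ K' ∈ A, ∀ r r' : N, (r' : W) = g • (r : W) →
      ((K' r' : N) : W) = g • ((K r : N) : W)) :
    ∃ K ∈ A, Function.Injective K := by
  have hNU' : N = U := eq_of_irr U (fun f => ∀ v w, e (f v) (f w) = e v w)
    (fun S act hS M hM hMne => ZSymp.irreducible (G := S) e hU halt hnd hS M hM hMne) hiso N hNU
    (ne_bot_of N A hne) hN
  subst hNU'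
  let m : Module (ZMod l) N := AddCommGroup.zmodModule hU
  exact symp_grp hl2 (ZSymp.bil e) halt hnd A hne fun f hf K hK =>
    conj_mem N A hA f (hiso f hf) K hK

/-- An alternating form over the field with two elements is the polar form of a quadratic form. -/
theorem exists_quadratic {V : Type*} [AddCommGroup V] [Module (ZMod 2) V] [FiniteDimensional (ZMod 2) V]
    (B : LinearMap.BilinForm (ZMod 2) V) (halt : ∀ v, B v v = 0) :
    ∃ q : V → ZMod 2, ∀ v w, q (v + w) = q v + q w + B v w := by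
  classical
  let b := finBasis (ZMod 2) V
  let C : LinearMap.BilinForm (ZMod 2) V := ∑ i, ∑ j, if i < j then (B (b i) (b j)) •
    (b.coord i).smulRight (b.coord j) else 0
  have hC : ∀ v w, C v w + C w v = B v w := by
    have h : C + C.flip = B := by
      refine LinearMap.BilinForm.ext_basis b fun i j => ?_
      have h1 : ∀ i j, C (b i) (b j) = if i < j then B (b i) (b j) else 0 := by
        intro i j
        simp only [C, LinearMap.sum_apply]
        rw [Finset.sum_eq_single i, Finset.sum_eq_single j]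
        · split_ifs with h2
          · simp
          · simp
        · intro j' _ hj
          split_ifs
          · simp [hj.symm]
          · simp
        · simp
        · intro i' _ hi
          refine Finset.sum_eq_zero fun j' _ => ?_
          split_ifs
          · simp [hi.symm]
          · simp
        · simp
      change C (b i) (b j) + C (b j) (b i) = B (b i) (b j)
      rw [h1, h1]
      rcases lt_trichotomy i j with h2 | rfl | h2
      · rw [if_pos h2, if_neg (not_lt.2 h2.le), add_zero]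
      · rw [if_neg (lt_irrefl _), add_zero, halt]
      · rw [if_neg (not_lt.2 h2.le), if_pos h2, zero_add, ZSymp.skew B halt, CharTwo.neg_eq]
    intro v w
    rw [← h]
    rfl
  refine ⟨fun v => C v v, fun v w => ?_⟩
  rw [← hC v w]
  simp only [map_add, LinearMap.add_apply]
  ring

/-- The symplectic case in characteristic two. -/
theorem rich_symp2 (U : AddSubgroup W)
    (hU : ∀ u : U, 2 • u = 0) (e : U →+ U →+ ZMod 2) (halt : ∀ v, e v v = 0)
    (hnd : ∀ v, (∀ w, e v w = 0) → v = 0)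
    (hiso : ∀ f : U ≃+ U, (∀ v w, e (f v) (f w) = e v w) → ∃ g : Γ, ∀ v : U, g • (v : W) = f v)
    (g : ℕ) (hg : 4 ≤ g) (hcard : Nat.card U = 2 ^ (2 * g))
    (N : AddSubgroup W) (hNU : N ≤ U) (hN : ∀ g : Γ, ∀ v ∈ N, g • v ∈ N)
    (A : AddSubgroup (N →+ N)) (hne : A ≠ ⊥)
    (hA : ∀ (g : Γ), ∀ K ∈ A, ∃ K' ∈ A, ∀ r r' : N, (r' : W) = g • (r : W) →
      ((K' r' : N) : W) = g • ((K r : N) : W)) :
    ∃ K ∈ A, Function.Injective K := by
  have hl : Fact (Nat.Prime 2) := ⟨Nat.prime_two⟩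
  have hNU' : N = U := eq_of_irr U (fun f => ∀ v w, e (f v) (f w) = e v w)
    (fun S act hS M hM hMne => ZSymp.irreducible (G := S) e hU halt hnd hS M hM hMne) hiso N hNU
    (ne_bot_of N A hne) hN
  subst hNU'
  let m : Module (ZMod 2) N := AddCommGroup.zmodModule hU
  have hfN : Finite N := Nat.finite_of_card_ne_zero (by
    rw [hcard]
    exact pow_ne_zero _ two_ne_zero)
  have hfd : Module.Finite (ZMod 2) N := Module.Finite.of_finite
  have hfr : finrank (ZMod 2) N = 2 * g := frk hcard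
  obtain ⟨q, hq⟩ := exists_quadratic (ZSymp.bil e) halt
  exact orth_grp (ZSymp.bil e) q halt hnd hq (by omega) A hne fun f hf K hK =>
    conj_mem N A hA f (hiso f fun v w => by
      have h1 := hq (f v) (f w)
      rw [← map_add, hf, hf, hf, hq v w] at h1
      exact (add_left_cancel h1).symm) K hK

theorem rich_orth (U : AddSubgroup W)
    (hU : ∀ u : U, 2 • u = 0) (q : U → ZMod 2) (e : U →+ U →+ ZMod 2)
    (hq : ∀ v w, q (v + w) = q v + q w + e v w)
    (hnd : ∀ v, (∀ w, e v w = 0) → v = 0)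
    (hiso : ∀ f : U ≃+ U, (∀ v, q (f v) = q v) → ∃ g : Γ, ∀ v : U, g • (v : W) = f v)
    (g : ℕ) (hg : 4 ≤ g) (hcard : Nat.card U = 2 ^ (2 * g))
    (N : AddSubgroup W) (hNU : N ≤ U) (hN : ∀ g : Γ, ∀ v ∈ N, g • v ∈ N)
    (A : AddSubgroup (N →+ N)) (hne : A ≠ ⊥)
    (hA : ∀ (g : Γ), ∀ K ∈ A, ∃ K' ∈ A, ∀ r r' : N, (r' : W) = g • (r : W) →
      ((K' r' : N) : W) = g • ((K r : N) : W)) :
    ∃ K ∈ A, Function.Injective K := by
  have hl : Fact (Nat.Prime 2) := ⟨Nat.prime_two⟩
  have hfU : Finite U := Nat.finite_of_card_ne_zero (by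
    rw [hcard]
    exact pow_ne_zero _ two_ne_zero)
  have hNU' : N = U := eq_of_irr U (fun f => ∀ v, q (f v) = q v)
    (fun S act hS M hM hMne => ZOrd.orth_irreducible (G := S) q e hU hq hnd hS (by
      rw [hcard]
      exact Nat.pow_le_pow_right (by norm_num) (by omega)) M hM hMne) hiso N hNU
    (ne_bot_of N A hne) hN
  subst hNU'
  let m : Module (ZMod 2) N := AddCommGroup.zmodModule hU
  have hfr : finrank (ZMod 2) N = 2 * g := frk hcard
  have hq0 : q 0 = 0 := by
    have h := hq 0 0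
    rw [add_zero, map_zero, add_zero] at h
    exact left_eq_add.1 h
  have halt : ∀ v, e v v = 0 := by
    intro v
    have h := hq v v
    rw [← two_nsmul v, hU, hq0, CharTwo.add_self_eq_zero, zero_add] at h
    exact h.symm
  exact orth_grp (ZSymp.bil e) q halt hnd hq (by omega) A hne fun f hf K hK =>
    conj_mem N A hA f (hiso f hf) K hK

end Main

section Ample

variable {Γ W : Type*} [Group Γ] [AddCommGroup W] [DistribMulAction Γ W]

/-- The nonzero groups of endomorphisms of the stable subgroups `N` of `U` which are stable under conjugation contain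
injective ones, and `U` is finite. -/
structure Ample (Γ : Type*) {W : Type*} [Group Γ] [AddCommGroup W] [DistribMulAction Γ W] (U : AddSubgroup W) : Prop where
  finite : Finite U
  inj : ∀ (N : AddSubgroup W), N ≤ U → (∀ g : Γ, ∀ v ∈ N, g • v ∈ N) →
    ∀ A : AddSubgroup (N →+ N), A ≠ ⊥ →
      (∀ (g : Γ), ∀ K ∈ A, ∃ K' ∈ A, ∀ r r' : N, (r' : W) = g • (r : W) →
        ((K' r' : N) : W) = g • ((K r : N) : W)) → ∃ K ∈ A, Function.Injective K

/-- `Ample` for a group which acts through `Γ`. -/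
theorem Ample.comp {G : Type*} [Group G] [DistribMulAction G W] {U : AddSubgroup W} (h : Ample Γ U)
    (hG : ∀ γ : Γ, ∃ g : G, ∀ w : W, g • w = γ • w) : Ample G U := by
  refine ⟨h.finite, fun N hNU hN A hne hA => h.inj N hNU (fun γ v hv => ?_) A hne fun γ K hK => ?_⟩
  · obtain ⟨g, hg⟩ := hG γ
    rw [← hg]
    exact hN g v hv
  · obtain ⟨g, hg⟩ := hG γ
    obtain ⟨K', hK', h1⟩ := hA g K hK
    refine ⟨K', hK', fun r r' hr => ?_⟩
    rw [← hg]
    exact h1 r r' (by rw [hg]; exact hr)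

end Ample

end ZInj
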