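import Pool.Agent.Lib.MP_89bcae_ag.Zt.LP

set_option autoImplicit false

/-!
# Lemma P for a subquotient
-/

namespace MP89bZ

open Finset

section sq

variable {l : ℕ} [hl : Fact l.Prime]

/-- **Lemma P for a subquotient** -/
theorem lemma_P_sub {C G M : Type*} [AddCommGroup C] [Module ℤ_[l] C] [Group G]
    [DistribMulAction G C] [AddCommGroup M] [DistribMulAction G M]
    (hlin : ∀ (g : G) (a : ℤ_[l]) (c : C), g • (a • c) = a • (g • c))
    (W T : Submodule ℤ_[l] C) (Z : C →ₗ[ℤ_[l]] C)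
    (hZW : ∀ c ∈ W, Z c ∈ W) (hZT : ∀ c ∈ T, Z c ∈ T)
    (hGW : ∀ (g : G), ∀ c ∈ W, g • c ∈ W) (hGT : ∀ (g : G), ∀ c ∈ T, g • c ∈ T)
    (hZ : ∀ c ∈ W, ∑ i ∈ range l, (Z ^ i) c ∈ T)
    (hZG : ∀ (g : G), ∀ c ∈ W, Z (g • c) - g • Z c ∈ T)
    (hinj : ∀ c ∈ W, c - Z c ∈ T → c ∈ T)
    (hsep : ∀ c ∈ W, (∀ n : ℕ, ∃ y ∈ W, c - ((l : ℤ_[l]) ^ n) • y ∈ T) → c ∈ T)
    (E : C → M → Prop) (hE : ∀ c ∈ W, ∃ m, E c m)
    (hadd : ∀ c ∈ W, ∀ c' ∈ W, ∀ m m', E c m → E c' m' → E (c + c') (m + m'))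
    (hET : ∀ c ∈ T, ∀ m, E c m → m = 0)
    (hEZ : ∀ c ∈ W, ∀ m, E c m → E (Z c) m)
    (hker : ∀ c ∈ W, E c 0 → ∃ y ∈ W, c - (y - Z y) ∈ T)
    (hGE : ∀ (g : G), ∀ c ∈ W, ∀ m, E c m → E (g • c) (g • m))
    (hfin : {m | ∃ c ∈ W, E c m}.Finite) :
    (∀ c ∈ W, ∃ H : Subgroup G, H.FiniteIndex ∧ ∀ g ∈ H, g • c - c ∈ T) ∨
    (∃ γ : G, ∀ n : ℕ, n ≠ 0 → ∀ c ∈ W, γ ^ n • c - c ∈ T → c ∈ T) ∨
    ∃ (N : AddSubgroup M) (A : AddSubgroup (N →+ N)), (∀ m, m ∈ N ↔ ∃ c ∈ W, E c m) ∧ A ≠ ⊥ ∧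
      (∀ (g : G), ∀ K ∈ A, ∃ K' ∈ A, ∀ r r' : N, (r' : M) = g • (r : M) →
        ((K' r' : N) : M) = g • ((K r : N) : M)) ∧
      ∀ K ∈ A, ¬ Function.Injective K := by
  classical
  -- uniqueness of values
  have huniq : ∀ c ∈ W, ∀ m m', E c m → E c m' → m = m' := by
    intro c hc m m' h h'
    obtain ⟨m'', h''⟩ := hE (-c) (W.neg_mem hc)
    have h1 := hadd c hc (-c) (W.neg_mem hc) m m'' h h''
    have h2 := hadd c hc (-c) (W.neg_mem hc) m' m'' h' h''
    rw [add_neg_cancel] at h1 h2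
    have h3 := hET 0 T.zero_mem _ h1
    have h4 := hET 0 T.zero_mem _ h2
    exact add_right_cancel (h3.trans h4.symm)
  -- the quotient
  let T' : Submodule ℤ_[l] W := T.comap W.subtype
  have memT' : ∀ w : W, w ∈ T' ↔ (w : C) ∈ T := fun w => Iff.rfl
  let mk : W →ₗ[ℤ_[l]] W ⧸ T' := T'.mkQ
  have mk_surj : Function.Surjective mk := T'.mkQ_surjective
  have mk_eq : ∀ a b : W, mk a = mk b ↔ (a : C) - b ∈ T := by
    intro a b
    rw [← sub_eq_zero, ← map_sub]
    exact (Submodule.Quotient.mk_eq_zero T').trans (memT' _)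
  have mk_zero : ∀ a : W, mk a = 0 ↔ (a : C) ∈ T := by
    intro a
    rw [← map_zero mk, mk_eq, ZeroMemClass.coe_zero, sub_zero]
  -- induced endomorphism
  let ZW : W →ₗ[ℤ_[l]] W := Z.restrict hZW
  have ZW_coe : ∀ w : W, (ZW w : C) = Z w := fun w => rfl
  let Zb : Module.End ℤ_[l] (W ⧸ T') := T'.mapQ T' ZW fun w hw => by
    rw [Submodule.mem_comap, memT', ZW_coe]
    exact hZT _ ((memT' w).1 hw)
  have Zb_mk : ∀ w, Zb (mk w) = mk (ZW w) := fun w => rfl
  -- induced action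
  let φ : G → W →ₗ[ℤ_[l]] W := fun g =>
    { toFun := fun w => ⟨g • (w : C), hGW g w w.2⟩
      map_add' := fun a b => Subtype.ext (smul_add g (a : C) b)
      map_smul' := fun a b => Subtype.ext (hlin g a b) }
  have φ_coe : ∀ g (w : W), (φ g w : C) = g • (w : C) := fun g w => rfl
  let ψ : G → W ⧸ T' →ₗ[ℤ_[l]] W ⧸ T' := fun g => T'.mapQ T' (φ g) fun w hw => by
    rw [Submodule.mem_comap, memT', φ_coe]
    exact hGT g _ ((memT' w).1 hw)
  have ψ_mk : ∀ g w, ψ g (mk w) = mk (φ g w) := fun g w => rfl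
  let act : DistribMulAction G (W ⧸ T') :=
    { smul := fun u q => ψ u q
      one_smul := fun q => by
        obtain ⟨w, rfl⟩ := mk_surj q
        change ψ 1 (mk w) = mk w
        rw [ψ_mk]
        exact congrArg mk (Subtype.ext (one_smul G (w : C)))
      mul_smul := fun u v q => by
        obtain ⟨w, rfl⟩ := mk_surj q
        change ψ (u * v) (mk w) = ψ u (ψ v (mk w))
        rw [ψ_mk, ψ_mk, ψ_mk]
        exact congrArg mk (Subtype.ext (mul_smul u v (w : C)))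
      smul_zero := fun u => map_zero (ψ u)
      smul_add := fun u x y => map_add (ψ u) x y }
  have smul_mk : ∀ (u : G) (w : W), u • (mk w) = mk (φ u w) := fun u w => rfl
  have smul_ψ : ∀ (u : G) (q : W ⧸ T'), u • q = ψ u q := fun u q => rfl
  -- the homomorphism e
  have hex : ∀ w : W, ∃ m, E w m := fun w => hE w w.2
  choose ew hew using hex
  have e_eq : ∀ a b : W, mk a = mk b → ew a = ew b := by
    intro a b hab
    rw [mk_eq] at hab
    obtain ⟨m, hm⟩ := hE ((a : C) - b) (W.sub_mem a.2 b.2)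
    have h1 := hET _ hab m hm
    rw [h1] at hm
    have h2 := hadd _ (W.sub_mem a.2 b.2) _ b.2 _ _ hm (hew b)
    rw [sub_add_cancel, zero_add] at h2
    exact huniq a a.2 _ _ (hew a) h2
  have ew_add : ∀ a b : W, ew (a + b) = ew a + ew b := fun a b =>
    huniq (a + b : W) (a + b).2 _ _ (hew (a + b)) (hadd a a.2 b b.2 _ _ (hew a) (hew b))
  have ew_zero : ew 0 = 0 := hET 0 T.zero_mem _ (hew 0)
  have ew_uniq : ∀ (w : W) m, E w m → ew w = m := fun w m h => huniq w w.2 _ _ (hew w) h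
  let e : W ⧸ T' →+ M :=
    { toFun := fun q => ew (Function.surjInv mk_surj q)
      map_zero' := by
        rw [← ew_zero]
        exact e_eq _ _ (by rw [Function.surjInv_eq mk_surj, map_zero])
      map_add' := fun a b => by
        rw [← ew_add]
        exact e_eq _ _ (by
          rw [Function.surjInv_eq mk_surj, map_add, Function.surjInv_eq mk_surj,
            Function.surjInv_eq mk_surj]) }
  have e_mk : ∀ w, e (mk w) = ew w := fun w => e_eq _ _ (Function.surjInv_eq mk_surj _)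
  -- powers
  have it1 : ∀ (i : ℕ) (w : W), (Zb ^ i) (mk w) = mk ((ZW ^ i) w) := by
    intro i
    induction i with
    | zero => intro w; rfl
    | succ i ih => intro w; rw [pow_succ, Module.End.mul_apply, Zb_mk, ih, pow_succ, Module.End.mul_apply]
  have it2 : ∀ (i : ℕ) (w : W), (((ZW ^ i) w : W) : C) = (Z ^ i) (w : C) := by
    intro i
    induction i with
    | zero => intro w; rfl
    | succ i ih =>
      intro w
      rw [pow_succ, Module.End.mul_apply, ih, pow_succ, Module.End.mul_apply, ZW_coe]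
  have hZb : ∑ i ∈ range l, Zb ^ i = 0 := by
    refine LinearMap.ext fun q => ?_
    obtain ⟨w, rfl⟩ := mk_surj q
    rw [LinearMap.sum_apply, LinearMap.zero_apply]
    simp only [it1]
    rw [← map_sum, mk_zero, Submodule.coe_sum]
    simp only [it2]
    exact hZ w w.2
  have hinjb : ∀ q : W ⧸ T', q - Zb q = 0 → q = 0 := by
    intro q hq
    obtain ⟨w, rfl⟩ := mk_surj q
    rw [Zb_mk, ← map_sub, mk_zero, Submodule.coe_sub, ZW_coe] at hq
    rw [mk_zero]
    exact hinj w w.2 hq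
  have hrange : ∀ m, m ∈ e.range ↔ ∃ c ∈ W, E c m := by
    intro m
    constructor
    · rintro ⟨q, rfl⟩
      obtain ⟨w, rfl⟩ := mk_surj q
      exact ⟨w, w.2, by rw [e_mk]; exact hew w⟩
    · rintro ⟨c, hc, hm⟩
      exact ⟨mk ⟨c, hc⟩, by rw [e_mk]; exact ew_uniq ⟨c, hc⟩ m hm⟩
  have hfin' : Finite e.range := by
    refine (hfin.subset ?_).to_subtype
    intro m hm
    exact (hrange m).1 hm
  rcases lemma_P (l := l) (H := W ⧸ T') (G := G) (M := M)
    (torsion_free_of_inj Zb hZb hinjb)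
    (fun q hq => by
      obtain ⟨w, rfl⟩ := mk_surj q
      rw [mk_zero]
      refine hsep w w.2 fun n => ?_
      obtain ⟨y, hy⟩ := hq n
      obtain ⟨y', rfl⟩ := mk_surj y
      rw [← map_smul, mk_eq] at hy
      exact ⟨y', y'.2, hy⟩)
    Zb hZb
    (fun g q => by
      obtain ⟨w, rfl⟩ := mk_surj q
      rw [Zb_mk, smul_mk, smul_mk, Zb_mk, mk_eq, φ_coe, ZW_coe, ZW_coe, φ_coe, ← neg_sub]
      exact T.neg_mem (hZG g w w.2))
    e
    (fun g q => by
      obtain ⟨w, rfl⟩ := mk_surj q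
      rw [smul_mk, e_mk, e_mk]
      exact ew_uniq (φ g w) _ (hGE g w w.2 _ (hew w)))
    (fun q => by
      obtain ⟨w, rfl⟩ := mk_surj q
      constructor
      · intro h
        rw [e_mk] at h
        have h1 := hew w
        rw [h] at h1
        obtain ⟨y, hy, hyT⟩ := hker w w.2 h1
        refine ⟨mk ⟨y, hy⟩, ?_⟩
        rw [Zb_mk, ← map_sub, mk_eq]
        exact hyT
      · rintro ⟨y, hy⟩
        obtain ⟨y', rfl⟩ := mk_surj y
        rw [hy, map_sub, Zb_mk, e_mk, e_mk, sub_eq_zero]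
        exact (ew_uniq (ZW y') _ (hEZ y' y'.2 _ (hew y'))).symm)
    hfin' with h | ⟨γ, hγ⟩ | ⟨A, hA1, hA2, hA3⟩
  · left
    intro c hc
    have h1 : Finite (MulAction.orbit G (mk ⟨c, hc⟩)) := h _
    have h2 : Finite (G ⧸ MulAction.stabilizer G (mk ⟨c, hc⟩)) :=
      Finite.of_equiv _ (MulAction.orbitEquivQuotientStabilizer G (mk ⟨c, hc⟩))
    refine ⟨MulAction.stabilizer G (mk ⟨c, hc⟩), Subgroup.finiteIndex_of_finite_quotient, ?_⟩
    intro g hg
    rw [MulAction.mem_stabilizer_iff, smul_mk, mk_eq, φ_coe] at hg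
    exact hg
  · right
    left
    refine ⟨γ, fun n hn c hc hcT => ?_⟩
    refine (mk_zero ⟨c, hc⟩).1 (hγ n hn _ ?_)
    rw [smul_mk, mk_eq, φ_coe]
    exact hcT
  · right
    right
    exact ⟨e.range, A, hrange, hA1, hA2, hA3⟩

end sq

end MP89bZ
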