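import Mathlib
import Pool.Agent.Lib.MP_89bcae_ag.Zq.H1
import Pool.Agent.Lib.MP_89bcae_ag.Zt.LPs

/-!
# One automorphism no power of which fixes a class in the cohomology of the Jacobian
-/

attribute [local instance 100000] Pool.Agent.Lib.MP_89bcae_ag.Brt.tffFields
attribute [local instance 100000] Pool.Agent.Lib.MP_89bcae_ag.Wt.ifrNF Pool.Agent.Lib.MP_89bcae_ag.Wt.iddNF

open Polynomial IsDedekindDomain

open scoped Classical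

namespace Pool.Agent.Lib.MP_89bcae_ag.Zt

open Pool.Agent.Lib.MP_89bcae_ag.Wt Pool.Agent.Lib.MP_89bcae_ag.Wt.Lns Pool.Agent.Lib.MP_89bcae_ag.Zq

open Pool.Agent.Lib.MP_89bcae_ag.Zs (Gst Co1 actA LTprop tc_sub act_neg' Ufix Ufix_finiteIndex
  mem_autK_of_Ufix toTm tc_zl zA1)

set_option linter.unusedSectionVars false

section

variable {k F L Ω : Type} [Field k] [Field F] [Algebra k F] [Field L] [Algebra F[X] L]
  [Field Ω] [Algebra L Ω] [IsAlgClosure k F] [IsFractionRing F[X] L] [IsAlgClosure L Ω]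
  {ℓ : ℕ} {P : k[X][X]} {ζ : k} [hG : IsGood ℓ (cOver k F L Ω P)]

attribute [local instance] actA

variable {LT : Co1 ℓ k F L Ω P → Prop}

/-- A Tate cocycle with the local property. -/
def IsL (LT : Co1 ℓ k F L Ω P → Prop) (c : Coch ℓ k F L Ω P) : Prop :=
  Wt.IsTateCocycle ℓ (curveL k F L P) c ∧ ∀ n, LT (c n)

lemma IsL.of_trj (hLT : LTprop ζ LT) {c : Coch ℓ k F L Ω P} (hc : TrJ c) : IsL LT c :=
  ⟨hc.1, fun n => TrJ.lt hLT hc n⟩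

lemma IsL.add (hLT : LTprop ζ LT) {c c' : Coch ℓ k F L Ω P} (hc : IsL LT c)
    (hc' : IsL LT c') : IsL LT (c + c') :=
  ⟨tc_add hc.1 hc'.1, fun n => hLT.add (hc.2 n) (hc'.2 n)⟩

lemma IsL.neg (hLT : LTprop ζ LT) {c : Coch ℓ k F L Ω P} (hc : IsL LT c) : IsL LT (-c) :=
  ⟨tc_neg hc.1, fun n => hLT.neg (hc.2 n)⟩

lemma IsL.sub (hLT : LTprop ζ LT) {c c' : Coch ℓ k F L Ω P} (hc : IsL LT c)
    (hc' : IsL LT c') : IsL LT (c - c') := by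
  rw [sub_eq_add_neg]
  exact hc.add hLT (hc'.neg hLT)

lemma IsL.zC (hLT : LTprop ζ LT) {c : Coch ℓ k F L Ω P} (hc : IsL LT c)
    (hζ : (zA F L Ω ζ) ^ ℓ = 1) : IsL LT (Lns.zC ζ hζ c) :=
  ⟨tc_zC hc.1 ζ hζ, fun n => hLT.zJ hζ (hc.2 n)⟩

lemma IsL.act (hLT : LTprop ζ LT) {c : Coch ℓ k F L Ω P} (hc : IsL LT c)
    (g : AutO k F L Ω) : IsL LT (Lns.act g c) :=
  ⟨tc_act hc.1 _, fun n => hLT.act _ (hc.2 n)⟩

/-- A class in the image of the ramification points is divisible by `1 - Z`. -/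
theorem h1_divL (H : LHyp ℓ k F L P ζ) (hLT : LTprop ζ LT)
    (hζ : (zA F L Ω ζ) ^ ℓ = 1) {c : Coch ℓ k F L Ω P} (hc : IsL LT c) (q : Ω → ℤ)
    (hq : ∀ σ : Ω ≃ₐ[L] Ω, vJ (zA F L Ω ζ) hζ (c 1 σ) =
      symJ (toSym P (galA k F σ)) (rm q) - rm q) :
    ∃ y : Coch ℓ k F L Ω P, IsL LT y ∧ TrJ (c - (y - Lns.zC ζ hζ y)) := by
  have Hζ : IsPrimitiveRoot (zA F L Ω ζ) ℓ := zA_prim H
  have hfix' : ∀ σ : Ω ≃ₐ[L] Ω, ((toSym P (galA k F σ) :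
      Sym (cOver k F L Ω P)) : Ω ≃+* Ω) (zA F L Ω ζ) = zA F L Ω ζ :=
    fun σ => zA_fixed ζ (galA k F σ)
  -- the divisions
  choose dv hdv using fun Q : JacOver ℓ (curveL k F L P) Ω =>
    exists_smul_eq H.prime (zA F L Ω ζ) Hζ Q
  set B1 : JacOver ℓ (curveL k F L P) Ω := dv (rm q) with hB1
  set B : JacOver ℓ (curveL k F L P) Ω := B1 - zJ (zA F L Ω ζ) hζ B1 with hB
  have hvB : vJ (zA F L Ω ζ) hζ B = rm q := by
    rw [hB, vJ_sub, vJ_zJ]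
    exact (vJ_sub_zJ (zA F L Ω ζ) Hζ B1).trans (hdv _)
  have hlB : ℓ • B = 0 := by
    rw [← vJ_sub_zJ (zA F L Ω ζ) Hζ B, hvB, zJ_rm, sub_self]
  set Q : ℕ → JacOver ℓ (curveL k F L P) Ω := fun n => Nat.rec 0 (fun m _ => dv^[m] B) n with hQ
  have hQ0 : Q 0 = 0 := rfl
  have hQ1 : Q 1 = B := rfl
  have hQs : ∀ n, ℓ • Q (n + 1) = Q n := by
    intro n
    cases n with
    | zero => rw [hQ0]; exact hlB
    | succ n =>
      show ℓ • dv^[n + 1] B = dv^[n] B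
      rw [Function.iterate_succ_apply']
      exact hdv _
  have hQn : ∀ n, ℓ ^ n • Q n = 0 := by
    intro n
    induction n with
    | zero => rw [pow_zero, one_smul, hQ0]
    | succ n ih => rw [pow_succ, mul_smul, hQs, ih]
  -- the coboundary
  set d : Coch ℓ k F L Ω P := fun n σ => symJ (toSym P (galA k F σ)) (Q n) - Q n with hd
  have hdTC : Wt.IsTateCocycle ℓ (curveL k F L P) d := by
    refine ⟨fun σ => ?_, fun n σ => ?_, fun n σ τ => ?_, fun n => ?_⟩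
    · show symJ (toSym P (galA k F σ)) (Q 0) - Q 0 = 0
      rw [hQ0, map_zero, sub_zero]
    · show ℓ • (symJ (toSym P (galA k F σ)) (Q (n + 1)) - Q (n + 1)) =
        symJ (toSym P (galA k F σ)) (Q n) - Q n
      rw [smul_sub, ← map_nsmul, hQs]
    · show symJ (toSym P (galA k F (σ * τ))) (Q n) - Q n = (symJ (toSym P (galA k F σ)) (Q n) - Q n) +
        push ℓ (curveL k F L P) (σ : Ω →ₐ[L] Ω) (symJ (toSym P (galA k F τ)) (Q n) - Q n)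
      rw [push_eq, map_mul, map_mul, symJ_mul, map_sub]
      abel
    · exact (Zs.h1_locConst (Q n)).comp fun a => a - Q n
  have hdTrc : Trc d := ⟨hdTC, fun n => ⟨Q n, hQn n, fun σ => by rw [push_eq]⟩⟩
  set c' : Coch ℓ k F L Ω P := c - d with hc'
  have hW' : IsL LT c' := hc.sub hLT (IsL.of_trj hLT (TrJ.of_trc hdTrc))
  have hv1 : ∀ σ : Ω ≃ₐ[L] Ω, vJ (zA F L Ω ζ) hζ (c' 1 σ) = 0 := by
    intro σ
    show vJ (zA F L Ω ζ) hζ (c 1 σ - (symJ (toSym P (galA k F σ)) (Q 1) - Q 1)) = 0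
    rw [vJ_sub, vJ_sub, vJ_symJ _ _ _ (hfix' σ), hQ1, hvB, hq σ, sub_self]
  set y : Coch ℓ k F L Ω P := fun n σ => vJ (zA F L Ω ζ) hζ (c' (n + 1) σ) with hy
  have hyTC : Wt.IsTateCocycle ℓ (curveL k F L P) y := by
    refine ⟨fun σ => hv1 σ, fun n σ => ?_, fun n σ τ => ?_, fun n => ?_⟩
    · show ℓ • vJ (zA F L Ω ζ) hζ (c' (n + 1 + 1) σ) = vJ (zA F L Ω ζ) hζ (c' (n + 1) σ)
      rw [← vJ_smul, hW'.1.smul]
    · show vJ (zA F L Ω ζ) hζ (c' (n + 1) (σ * τ)) = vJ (zA F L Ω ζ) hζ (c' (n + 1) σ) +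
        push ℓ (curveL k F L P) (σ : Ω →ₐ[L] Ω) (vJ (zA F L Ω ζ) hζ (c' (n + 1) τ))
      rw [hW'.1.cocycle, vJ_add, push_eq, push_eq, vJ_symJ _ _ _ (hfix' σ)]
    · exact (hW'.1.locallyConstant (n + 1)).comp (fun Q => vJ (zA F L Ω ζ) hζ Q)
  have hπy : y - Lns.zC ζ hζ y = c' := by
    funext n σ
    show vJ (zA F L Ω ζ) hζ (c' (n + 1) σ) - zJ (zA F L Ω ζ) hζ (vJ (zA F L Ω ζ) hζ (c' (n + 1) σ)) =
      c' n σ
    exact (vJ_sub_zJ (zA F L Ω ζ) Hζ (c' (n + 1) σ)).trans (hW'.1.smul n σ)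
  refine ⟨y, ⟨hyTC, fun n => hLT.vJ hζ (hW'.2 (n + 1))⟩, ?_⟩
  rw [hπy, hc', sub_sub_cancel]
  exact TrJ.of_trc hdTrc

/-- A class fixed by `γ`. -/
theorem act_sub_of_fixed {c : Coch ℓ k F L Ω P} (hc : Wt.IsTateCocycle ℓ (curveL k F L P) c)
    (γ : AutO k F L Ω)
    (hfix : ∀ hγ, IsFixedByJ ℓ (curveL k F L P) c (γ : Ω ≃+* Ω) hγ) :
    TrJ (act γ c - c) := by
  refine ⟨tc_sub (tc_act hc _) hc, fun n => ?_⟩
  obtain ⟨A, hA⟩ := hfix (toSym P γ).2 n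
  refine ⟨A, fun σ => ?_⟩
  rw [← hA (conjG γ⁻¹ σ) σ (fun x => ?_)]
  · rfl
  · have h2 := conjG_spec γ⁻¹ σ ((γ : Ω ≃+* Ω) x)
    have h3 : ∀ z : Ω, ((γ⁻¹ : AutO k F L Ω) : Ω ≃+* Ω) ((γ : Ω ≃+* Ω) z) = z := fun z =>
      (γ : Ω ≃+* Ω).symm_apply_apply z
    have h4 : ∀ z : Ω, (γ : Ω ≃+* Ω) (((γ⁻¹ : AutO k F L Ω) : Ω ≃+* Ω) z) = z := fun z =>
      (γ : Ω ≃+* Ω).apply_symm_apply z
    rw [h3] at h2
    show (γ : Ω ≃+* Ω) (conjG _ σ x) = _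
    rw [h2, h4]

variable [hl : Fact ℓ.Prime]

/-- The classes with the local property. -/
def LJm (hLT : LTprop ζ LT) : Submodule ℤ_[ℓ] (MP89bZ.Tm ℓ (Co1 ℓ k F L Ω P)) where
  carrier := {c | IsL LT (c : Coch ℓ k F L Ω P)}
  zero_mem' := IsL.of_trj hLT TrJ.zero
  add_mem' := fun h h' => IsL.add hLT h h'
  smul_mem' := by
    rintro a c ⟨h1, h2⟩
    refine ⟨tc_zl h1 a, fun n => ?_⟩
    rw [MP89bZ.Tm.smul_apply]
    exact hLT.nsmul (h2 n) _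

/-- **One element of the stabilizer of `θ₀` no power of which fixes a nontrivial class.** -/
theorem ntj_one_of (H : LHyp ℓ k F L P ζ) (hLT : LTprop ζ LT)
    (θ₀ : Ω) (hζ : (zA F L Ω ζ) ^ ℓ = 1)
    {M : Type*} [AddCommGroup M] [DistribMulAction (Gst k F L θ₀) M]
    (E : Coch ℓ k F L Ω P → M → Prop)
    (hE : ∀ c, IsL LT c → ∃ m, E c m)
    (hadd : ∀ c c', IsL LT c → IsL LT c' → ∀ m m', E c m → E c' m' → E (c + c') (m + m'))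
    (hET : ∀ c, TrJ c → ∀ m, E c m → m = 0)
    (hEZ : ∀ c, IsL LT c → ∀ m, E c m → E (Lns.zC ζ hζ c) m)
    (hker : ∀ c, IsL LT c → E c 0 → ∃ c' : Coch ℓ k F L Ω P, TrJ c' ∧ ∃ q : Ω → ℤ,
      ∀ σ : Ω ≃ₐ[L] Ω, vJ (zA F L Ω ζ) hζ ((c - c') 1 σ) =
        symJ (toSym P (galA k F σ)) (rm q) - rm q)
    (hGE : ∀ (g : Gst k F L θ₀) c, IsL LT c → ∀ m, E c m → E (act (g : AutO k F L Ω) c) (g • m))
    (hfin : {m | ∃ c, IsL LT c ∧ E c m}.Finite)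
    (hcrit : ∀ N : AddSubgroup M, N ≠ ⊥ → (∀ m ∈ N, ∃ c, IsL LT c ∧ E c m) →
      (∀ g : Gst k F L θ₀, ∀ m ∈ N, g • m ∈ N) → ∀ r : ℕ, Nat.card N = ℓ ^ r →
        ∀ (n : ℕ) (σ : Module.End ℤ_[ℓ] (Fin n → ℤ_[ℓ]))
          (ρ : Gst k F L θ₀ →* Module.End ℤ_[ℓ] (Fin n → ℤ_[ℓ])) (th : (Fin n → ℤ_[ℓ]) →+ M),
          ¬ MP89bZ.Lifts N σ ρ th)
    (hrich : ∀ (N : AddSubgroup M) (A : AddSubgroup (N →+ N)), (∀ m, m ∈ N ↔ ∃ c, IsL LT c ∧ E c m) → A ≠ ⊥ →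
      (∀ (g : Gst k F L θ₀), ∀ K ∈ A, ∃ K' ∈ A, ∀ r r' : N, (r' : M) = g • (r : M) →
        ((K' r' : N) : M) = g • ((K r : N) : M)) → ∃ K ∈ A, Function.Injective K) :
    ∃ γ : Gst k F L θ₀, ∀ n : ℕ, 0 < n →
      NTJ ℓ (curveL k F L P) LT {(((γ : AutO k F L Ω) ^ n : AutO k F L Ω) : Ω ≃+* Ω)} := by
  have hz : IsPrimitiveRoot (zA F L Ω ζ) ℓ := zA_prim H
  let Z : MP89bZ.Tm ℓ (Co1 ℓ k F L Ω P) →ₗ[ℤ_[ℓ]] MP89bZ.Tm ℓ (Co1 ℓ k F L Ω P) :=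
    MP89bZ.Tm.map (zA1 ζ hζ)
  have hZc : ∀ c : MP89bZ.Tm ℓ (Co1 ℓ k F L Ω P), ((Z c : MP89bZ.Tm ℓ (Co1 ℓ k F L Ω P)) :
      Coch ℓ k F L Ω P) = Lns.zC ζ hζ (c : Coch ℓ k F L Ω P) := fun c => rfl
  have hZi : ∀ (i : ℕ) (c : MP89bZ.Tm ℓ (Co1 ℓ k F L Ω P)),
      (((Z ^ i) c : MP89bZ.Tm ℓ (Co1 ℓ k F L Ω P)) : Coch ℓ k F L Ω P) =
        (Lns.zC ζ hζ)^[i] (c : Coch ℓ k F L Ω P) := by
    intro i
    induction i with
    | zero => intro c; rfl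
    | succ i ih =>
      intro c
      rw [pow_succ, Module.End.mul_apply, ih, hZc, Function.iterate_succ_apply]
  have e1 : ∀ c ∈ (LJm hLT : Submodule ℤ_[ℓ] (MP89bZ.Tm ℓ (Co1 ℓ k F L Ω P))), Z c ∈ LJm (P := P) hLT := fun c hc => by
    show IsL LT _
    rw [hZc]
    exact IsL.zC hLT hc hζ
  have e2 : ∀ c ∈ TJm k F L Ω ℓ P, Z c ∈ TJm k F L Ω ℓ P := fun c hc => by
    show TrJ _
    rw [hZc]
    exact TrJ.zC hc ζ hζ
  have e3 : ∀ (g : Gst k F L θ₀), ∀ c ∈ LJm (P := P) hLT, g • c ∈ LJm (P := P) hLT :=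
    fun g c hc => IsL.act hLT hc (g : AutO k F L Ω)
  have e4 : ∀ (g : Gst k F L θ₀), ∀ c ∈ TJm k F L Ω ℓ P, g • c ∈ TJm k F L Ω ℓ P :=
    fun g c hc => TrJ.act hc (g : AutO k F L Ω)
  have e5 : ∀ c ∈ LJm (P := P) hLT, ∑ i ∈ Finset.range ℓ, (Z ^ i) c ∈ TJm k F L Ω ℓ P := fun c hc => by
    have h1 : ∑ i ∈ Finset.range ℓ, (Z ^ i) c = 0 := by
      refine Subtype.ext ?_
      rw [AddSubgroup.val_finsetSum]
      simp only [hZi]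
      exact sum_zC_mem ζ hz (c : Coch ℓ k F L Ω P)
    rw [h1]
    exact (TJm k F L Ω ℓ P).zero_mem
  have e6 : ∀ (g : Gst k F L θ₀), ∀ c ∈ LJm (P := P) hLT, Z (g • c) - g • Z c ∈ TJm k F L Ω ℓ P := fun g c hc => by
    have h1 : Z (g • c) - g • Z c = 0 := by
      rw [sub_eq_zero]
      refine Subtype.ext ?_
      rw [hZc]
      exact (act_zC (g : AutO k F L Ω) ζ hζ (c : Coch ℓ k F L Ω P)).symm
    rw [h1]
    exact (TJm k F L Ω ℓ P).zero_mem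
  have e7 : ∀ c ∈ LJm (P := P) hLT, c - Z c ∈ TJm k F L Ω ℓ P → c ∈ TJm k F L Ω ℓ P := fun c hc h => by
    have hc' : IsL LT (c : Coch ℓ k F L Ω P) := hc
    have h' : TrJ ((c : Coch ℓ k F L Ω P) - Lns.zC ζ hζ (c : Coch ℓ k F L Ω P)) := h
    exact TrJ.of_sub_zC H hζ hc'.1 h'
  have e8 : ∀ c ∈ LJm (P := P) hLT, (∀ n : ℕ, ∃ y ∈ LJm (P := P) hLT, c - ((ℓ : ℤ_[ℓ]) ^ n) • y ∈ TJm k F L Ω ℓ P) →
      c ∈ TJm k F L Ω ℓ P := fun c hc h => by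
    have hc' : IsL LT (c : Coch ℓ k F L Ω P) := hc
    refine ⟨hc'.1, fun n => ?_⟩
    obtain ⟨y, hy, hyT⟩ := h n
    obtain ⟨A, hA2⟩ := hyT.2 n
    refine ⟨A, fun σ => ?_⟩
    rw [← hA2 σ]
    show _ = (c : Coch ℓ k F L Ω P) n σ -
      ((((ℓ : ℤ_[ℓ]) ^ n) • y : MP89bZ.Tm ℓ (Co1 ℓ k F L Ω P)) : Coch ℓ k F L Ω P) n σ
    rw [MP89bZ.Tm.pow_smul_apply, MP89bZ.Tm.pow_smul, Pi.zero_apply, sub_zero]
  have e9 : ∀ c ∈ LJm (P := P) hLT, E (c : Coch ℓ k F L Ω P) 0 → ∃ y ∈ LJm (P := P) hLT, c - (y - Z y) ∈ TJm k F L Ω ℓ P := fun c hc h => by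
    obtain ⟨c', hc', q, hq⟩ := hker _ hc h
    obtain ⟨y, hy, hyT⟩ := h1_divL H hLT hζ (IsL.sub hLT hc (IsL.of_trj hLT hc')) q hq
    refine ⟨toTm y hy.1, hy, ?_⟩
    have h1 : (c : Coch ℓ k F L Ω P) - (y - Lns.zC ζ hζ y) =
        ((c : Coch ℓ k F L Ω P) - c' - (y - Lns.zC ζ hζ y)) + c' := by abel
    show TrJ ((c : Coch ℓ k F L Ω P) - (y - Lns.zC ζ hζ y))
    rw [h1]
    exact hyT.add hc'
  rcases MP89bZ.lemma_P_sub (l := ℓ)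
    (C := MP89bZ.Tm ℓ (Co1 ℓ k F L Ω P)) (G := Gst k F L θ₀) (M := M)
    (fun g a c => MP89bZ.Tm.act_smul g a c)
    (LJm (P := P) hLT) (TJm k F L Ω ℓ P) Z e1 e2 e3 e4 e5 e6 e7 e8
    (fun c m => E (c : Coch ℓ k F L Ω P) m)
    (fun c hc => hE _ hc)
    (fun c hc c' hc' m m' h h' => hadd _ _ hc hc' m m' h h')
    (fun c hc m h => hET _ hc m h)
    (fun c hc m h => by
      rw [hZc]
      exact hEZ _ hc m h)
    e9
    (fun g c hc m h => hGE g _ hc m h)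
    (hfin.subset (by
      rintro m ⟨c, hc, hm⟩
      exact ⟨(c : Coch ℓ k F L Ω P), hc, hm⟩)) with horb | ⟨γ, hγ⟩ | ⟨N, A, hN, hA1, hA2, hA3⟩
  · -- finite orbits
    by_cases hle : (LJm (P := P) hLT : Submodule ℤ_[ℓ] (MP89bZ.Tm ℓ (Co1 ℓ k F L Ω P))) ≤ TJm k F L Ω ℓ P
    · refine ⟨1, fun n _ c hc hcLT _ => ?_⟩
      have h1 : TrJ c := hle (show toTm c hc ∈ LJm (P := P) hLT from ⟨hc, hcLT⟩)
      exact h1.2
    exfalso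
    obtain ⟨N, hN0, hNE, hNst, ⟨r, hr⟩, n, σ, ρ, th, hle'⟩ := MP89bZ.lemma_Z_sub_lift (l := ℓ)
      (C := MP89bZ.Tm ℓ (Co1 ℓ k F L Ω P)) (G := Gst k F L θ₀) (M := M)
      (fun g a c => MP89bZ.Tm.act_smul g a c)
      (LJm (P := P) hLT) (TJm k F L Ω ℓ P) Z e1 e2 e3 e4 e5 e6 e7 e8 horb
      (fun c m => E (c : Coch ℓ k F L Ω P) m)
      (fun c hc => hE _ hc)
      (fun c hc c' hc' m m' h h' => hadd _ _ hc hc' m m' h h')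
      (fun c hc m h => hET _ hc m h)
      (fun c hc m h => by
        rw [hZc]
        exact hEZ _ hc m h)
      e9
      (fun g c hc m h => hGE g _ hc m h)
      hle
    exact hcrit N hN0 (fun m hm => by
      obtain ⟨c, hc, h⟩ := hNE m hm
      exact ⟨(c : Coch ℓ k F L Ω P), hc, h⟩) hNst r hr n σ ρ th hle'
  · -- the element
    refine ⟨γ, fun n hn c hc hcLT hfix => ?_⟩
    have h1 : TrJ (act ((γ : AutO k F L Ω) ^ n) c - c) :=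
      act_sub_of_fixed hc _ fun hγ' => hfix _ hγ' rfl
    have h2 := hγ n hn.ne' (toTm c hc) (show IsL LT c from ⟨hc, hcLT⟩) (by
      show TrJ (act (((γ ^ n : Gst k F L θ₀) : AutO k F L Ω)) c - c)
      rw [Subgroup.coe_pow]
      exact h1)
    exact (show TrJ c from h2).2
  · -- the endomorphisms
    exfalso
    obtain ⟨K, hK, hinj⟩ := hrich N A (fun m => by
      rw [hN]
      constructor
      · rintro ⟨c, hc, hm⟩
        exact ⟨(c : Coch ℓ k F L Ω P), hc, hm⟩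
      · rintro ⟨c, hc, hm⟩
        exact ⟨toTm c hc.1, hc, hm⟩) hA1 hA2
    exact hA3 K hK hinj

end

end Pool.Agent.Lib.MP_89bcae_ag.Zt
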