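import Mathlib
import Pool.Agent.Lib.MP_89bcae_ag.Zt.H1
import Pool.Agent.Lib.MP_89bcae_ag.Ze.Loc

/-!
# One automorphism no power of which fixes a class in the cohomology of the Jacobian, for reducible curves
-/

attribute [local instance 100000] Pool.Agent.Lib.MP_89bcae_ag.Brt.tffFields
attribute [local instance 100000] Pool.Agent.Lib.MP_89bcae_ag.Wt.ifrNF Pool.Agent.Lib.MP_89bcae_ag.Wt.iddNF

open Polynomial IsDedekindDomain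

open scoped Classical

namespace Pool.Agent.Lib.MP_89bcae_ag.Zt

open Pool.Agent.Lib.MP_89bcae_ag.Wt Pool.Agent.Lib.MP_89bcae_ag.Wt.Lns Pool.Agent.Lib.MP_89bcae_ag.Zq

open Pool.Agent.Lib.MP_89bcae_ag.Zs (Co1 actA LTprop tc_sub act_neg' toTm tc_zl zA1)

set_option linter.unusedSectionVars false

section

variable {k F L Ω : Type} [Field k] [Field F] [Algebra k F] [Field L] [Algebra F[X] L]
  [Field Ω] [Algebra L Ω] [IsAlgClosure k F] [IsFractionRing F[X] L] [IsAlgClosure L Ω]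
  {ℓ : ℕ} {P : k[X][X]} {ζ : k} [hG : IsGood ℓ (cOver k F L Ω P)]

attribute [local instance] actA

variable {LT : Co1 ℓ k F L Ω P → Prop} [hl : Fact ℓ.Prime]

/-- **One automorphism no power of which fixes a nontrivial class.** -/
theorem ntj_one_ofE (H : LHyp ℓ k F L P ζ) (hLT : LTprop ζ LT)
    (hζ : (zA F L Ω ζ) ^ ℓ = 1)
    {M : Type*} [AddCommGroup M] [DistribMulAction (AutO k F L Ω) M]
    (E : Coch ℓ k F L Ω P → M → Prop)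
    (hE : ∀ c, IsL LT c → ∃ m, E c m)
    (hadd : ∀ c c', IsL LT c → IsL LT c' → ∀ m m', E c m → E c' m' → E (c + c') (m + m'))
    (hET : ∀ c, TrJ c → ∀ m, E c m → m = 0)
    (hEZ : ∀ c, IsL LT c → ∀ m, E c m → E (Lns.zC ζ hζ c) m)
    (hker : ∀ c, IsL LT c → E c 0 → ∃ c' : Coch ℓ k F L Ω P, TrJ c' ∧ ∃ q : Ω → ℤ,
      ∀ σ : Ω ≃ₐ[L] Ω, vJ (zA F L Ω ζ) hζ ((c - c') 1 σ) =
        symJ (toSym P (galA k F σ)) (rm q) - rm q)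
    (hGE : ∀ (g : AutO k F L Ω) c, IsL LT c → ∀ m, E c m → E (act (g : AutO k F L Ω) c) (g • m))
    (hfin : {m | ∃ c, IsL LT c ∧ E c m}.Finite)
    (hcrit : ∀ N : AddSubgroup M, N ≠ ⊥ → (∀ m ∈ N, ∃ c, IsL LT c ∧ E c m) →
      (∀ g : AutO k F L Ω, ∀ m ∈ N, g • m ∈ N) → ∀ r : ℕ, Nat.card N = ℓ ^ r →
        ∀ (n : ℕ) (σ : Module.End ℤ_[ℓ] (Fin n → ℤ_[ℓ]))
          (ρ : AutO k F L Ω →* Module.End ℤ_[ℓ] (Fin n → ℤ_[ℓ])) (th : (Fin n → ℤ_[ℓ]) →+ M),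
          ¬ MP89bZ.Lifts N σ ρ th)
    (hrich : ∀ (N : AddSubgroup M) (A : AddSubgroup (N →+ N)), (∀ m, m ∈ N ↔ ∃ c, IsL LT c ∧ E c m) → A ≠ ⊥ →
      (∀ (g : AutO k F L Ω), ∀ K ∈ A, ∃ K' ∈ A, ∀ r r' : N, (r' : M) = g • (r : M) →
        ((K' r' : N) : M) = g • ((K r : N) : M)) → ∃ K ∈ A, Function.Injective K) :
    ∃ γ : AutO k F L Ω, ∀ n : ℕ, 0 < n →
      NTJ ℓ (curveL k F L P) LT {(((γ : AutO k F L Ω) ^ n : AutO k F L Ω) : Ω ≃+* Ω)} := by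
  have hz : IsPrimitiveRoot (zA F L Ω ζ) ℓ := zA_prim H
  let Z : MP89bZ.Tm ℓ (Co1 ℓ k F L Ω P) →ₗ[ℤ_[ℓ]] MP89bZ.Tm ℓ (Co1 ℓ k F L Ω P) :=
    MP89bZ.Tm.map (zA1 ζ hζ)
  have hZc : ∀ c : MP89bZ.Tm ℓ (Co1 ℓ k F L Ω P), ((Z c : MP89bZ.Tm ℓ (Co1 ℓ k F L Ω P)) :
      Coch ℓ k F L Ω P) = Lns.zC ζ hζ (c : Coch ℓ k F L Ω P) := fun c => rfl
  have hZi : ∀ (i : ℕ) (c : MP89bZ.Tm ℓ (Co1 ℓ k F L Ω P)),
      (((Z ^ i) c : MP89bZ.Tm ℓ (Co1 ℓ k F L Ω P)) : Coch ℓ k F L Ω P) =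
        (Lns.zC ζ hζ)^[i] (c : Coch ℓ k F L Ω P) := by
    intro i
    induction i with
    | zero => intro c; rfl
    | succ i ih =>
      intro c
      rw [pow_succ, Module.End.mul_apply, ih, hZc, Function.iterate_succ_apply]
  have e1 : ∀ c ∈ (LJm hLT : Submodule ℤ_[ℓ] (MP89bZ.Tm ℓ (Co1 ℓ k F L Ω P))), Z c ∈ LJm (P := P) hLT := fun c hc => by
    show IsL LT _
    rw [hZc]
    exact IsL.zC hLT hc hζ
  have e2 : ∀ c ∈ TJm k F L Ω ℓ P, Z c ∈ TJm k F L Ω ℓ P := fun c hc => by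
    show TrJ _
    rw [hZc]
    exact TrJ.zC hc ζ hζ
  have e3 : ∀ (g : AutO k F L Ω), ∀ c ∈ LJm (P := P) hLT, g • c ∈ LJm (P := P) hLT :=
    fun g c hc => IsL.act hLT hc (g : AutO k F L Ω)
  have e4 : ∀ (g : AutO k F L Ω), ∀ c ∈ TJm k F L Ω ℓ P, g • c ∈ TJm k F L Ω ℓ P :=
    fun g c hc => TrJ.act hc (g : AutO k F L Ω)
  have e5 : ∀ c ∈ LJm (P := P) hLT, ∑ i ∈ Finset.range ℓ, (Z ^ i) c ∈ TJm k F L Ω ℓ P := fun c hc => by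
    have h1 : ∑ i ∈ Finset.range ℓ, (Z ^ i) c = 0 := by
      refine Subtype.ext ?_
      rw [AddSubgroup.val_finsetSum]
      simp only [hZi]
      exact sum_zC_mem ζ hz (c : Coch ℓ k F L Ω P)
    rw [h1]
    exact (TJm k F L Ω ℓ P).zero_mem
  have e6 : ∀ (g : AutO k F L Ω), ∀ c ∈ LJm (P := P) hLT, Z (g • c) - g • Z c ∈ TJm k F L Ω ℓ P := fun g c hc => by
    have h1 : Z (g • c) - g • Z c = 0 := by
      rw [sub_eq_zero]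
      refine Subtype.ext ?_
      rw [hZc]
      exact (act_zC (g : AutO k F L Ω) ζ hζ (c : Coch ℓ k F L Ω P)).symm
    rw [h1]
    exact (TJm k F L Ω ℓ P).zero_mem
  have e7 : ∀ c ∈ LJm (P := P) hLT, c - Z c ∈ TJm k F L Ω ℓ P → c ∈ TJm k F L Ω ℓ P := fun c hc h => by
    have hc' : IsL LT (c : Coch ℓ k F L Ω P) := hc
    have h' : TrJ ((c : Coch ℓ k F L Ω P) - Lns.zC ζ hζ (c : Coch ℓ k F L Ω P)) := h
    exact TrJ.of_sub_zC H hζ hc'.1 h'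
  have e8 : ∀ c ∈ LJm (P := P) hLT, (∀ n : ℕ, ∃ y ∈ LJm (P := P) hLT, c - ((ℓ : ℤ_[ℓ]) ^ n) • y ∈ TJm k F L Ω ℓ P) →
      c ∈ TJm k F L Ω ℓ P := fun c hc h => by
    have hc' : IsL LT (c : Coch ℓ k F L Ω P) := hc
    refine ⟨hc'.1, fun n => ?_⟩
    obtain ⟨y, hy, hyT⟩ := h n
    obtain ⟨A, hA2⟩ := hyT.2 n
    refine ⟨A, fun σ => ?_⟩
    rw [← hA2 σ]
    show _ = (c : Coch ℓ k F L Ω P) n σ -
      ((((ℓ : ℤ_[ℓ]) ^ n) • y : MP89bZ.Tm ℓ (Co1 ℓ k F L Ω P)) : Coch ℓ k F L Ω P) n σ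
    rw [MP89bZ.Tm.pow_smul_apply, MP89bZ.Tm.pow_smul, Pi.zero_apply, sub_zero]
  have e9 : ∀ c ∈ LJm (P := P) hLT, E (c : Coch ℓ k F L Ω P) 0 → ∃ y ∈ LJm (P := P) hLT, c - (y - Z y) ∈ TJm k F L Ω ℓ P := fun c hc h => by
    obtain ⟨c', hc', q, hq⟩ := hker _ hc h
    obtain ⟨y, hy, hyT⟩ := h1_divL H hLT hζ (IsL.sub hLT hc (IsL.of_trj hLT hc')) q hq
    refine ⟨toTm y hy.1, hy, ?_⟩
    have h1 : (c : Coch ℓ k F L Ω P) - (y - Lns.zC ζ hζ y) =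
        ((c : Coch ℓ k F L Ω P) - c' - (y - Lns.zC ζ hζ y)) + c' := by abel
    show TrJ ((c : Coch ℓ k F L Ω P) - (y - Lns.zC ζ hζ y))
    rw [h1]
    exact hyT.add hc'
  rcases MP89bZ.lemma_P_sub (l := ℓ)
    (C := MP89bZ.Tm ℓ (Co1 ℓ k F L Ω P)) (G := AutO k F L Ω) (M := M)
    (fun g a c => MP89bZ.Tm.act_smul g a c)
    (LJm (P := P) hLT) (TJm k F L Ω ℓ P) Z e1 e2 e3 e4 e5 e6 e7 e8
    (fun c m => E (c : Coch ℓ k F L Ω P) m)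
    (fun c hc => hE _ hc)
    (fun c hc c' hc' m m' h h' => hadd _ _ hc hc' m m' h h')
    (fun c hc m h => hET _ hc m h)
    (fun c hc m h => by
      rw [hZc]
      exact hEZ _ hc m h)
    e9
    (fun g c hc m h => hGE g _ hc m h)
    (hfin.subset (by
      rintro m ⟨c, hc, hm⟩
      exact ⟨(c : Coch ℓ k F L Ω P), hc, hm⟩)) with horb | ⟨γ, hγ⟩ | ⟨N, A, hN, hA1, hA2, hA3⟩
  · -- finite orbits
    by_cases hle : (LJm (P := P) hLT : Submodule ℤ_[ℓ] (MP89bZ.Tm ℓ (Co1 ℓ k F L Ω P))) ≤ TJm k F L Ω ℓ P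
    · refine ⟨1, fun n _ c hc hcLT _ => ?_⟩
      have h1 : TrJ c := hle (show toTm c hc ∈ LJm (P := P) hLT from ⟨hc, hcLT⟩)
      exact h1.2
    exfalso
    obtain ⟨N, hN0, hNE, hNst, ⟨r, hr⟩, n, σ, ρ, th, hle'⟩ := MP89bZ.lemma_Z_sub_lift (l := ℓ)
      (C := MP89bZ.Tm ℓ (Co1 ℓ k F L Ω P)) (G := AutO k F L Ω) (M := M)
      (fun g a c => MP89bZ.Tm.act_smul g a c)
      (LJm (P := P) hLT) (TJm k F L Ω ℓ P) Z e1 e2 e3 e4 e5 e6 e7 e8 horb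
      (fun c m => E (c : Coch ℓ k F L Ω P) m)
      (fun c hc => hE _ hc)
      (fun c hc c' hc' m m' h h' => hadd _ _ hc hc' m m' h h')
      (fun c hc m h => hET _ hc m h)
      (fun c hc m h => by
        rw [hZc]
        exact hEZ _ hc m h)
      e9
      (fun g c hc m h => hGE g _ hc m h)
      hle
    exact hcrit N hN0 (fun m hm => by
      obtain ⟨c, hc, h⟩ := hNE m hm
      exact ⟨(c : Coch ℓ k F L Ω P), hc, h⟩) hNst r hr n σ ρ th hle'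
  · -- the element
    refine ⟨γ, fun n hn c hc hcLT hfix => ?_⟩
    have h1 : TrJ (act ((γ : AutO k F L Ω) ^ n) c - c) :=
      act_sub_of_fixed hc _ fun hγ' => hfix _ hγ' rfl
    have h2 := hγ n hn.ne' (toTm c hc) (show IsL LT c from ⟨hc, hcLT⟩) (by
      exact h1)
    exact (show TrJ c from h2).2
  · -- the endomorphisms
    exfalso
    obtain ⟨K, hK, hinj⟩ := hrich N A (fun m => by
      rw [hN]
      constructor
      · rintro ⟨c, hc, hm⟩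
        exact ⟨(c : Coch ℓ k F L Ω P), hc, hm⟩
      · rintro ⟨c, hc, hm⟩
        exact ⟨toTm c hc.1, hc, hm⟩) hA1 hA2
    exact hA3 K hK hinj

end

end Pool.Agent.Lib.MP_89bcae_ag.Zt
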