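import Mathlib
import Pool.Agent.Lib.MP_89bcae_ag.Ze.Crit
import Pool.Agent.Lib.MP_89bcae_ag.Ze.Gal
import Pool.Agent.Lib.MP_89bcae_ag.Ze.MainJ
import Pool.Agent.Lib.MP_89bcae_ag.Zt.H1E
import Pool.Agent.Lib.MP_89bcae_ag.Zt.Rich

/-!
# One automorphism no power of which fixes a class, relative to the classes of the points, for reducible curves
-/

attribute [local instance 100000] Pool.Agent.Lib.MP_89bcae_ag.Brt.tffFields
attribute [local instance 100000] Pool.Agent.Lib.MP_89bcae_ag.Wt.ifrNF Pool.Agent.Lib.MP_89bcae_ag.Wt.iddNF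

open Polynomial IsDedekindDomain

open scoped Classical

namespace Pool.Agent.Lib.MP_89bcae_ag.Zt

open Pool.Agent.Lib.MP_89bcae_ag.Wt Pool.Agent.Lib.MP_89bcae_ag.Wt.Lns Pool.Agent.Lib.MP_89bcae_ag.Bra
  Pool.Agent.Lib.MP_89bcae_ag.Brt Pool.Agent.Lib.MP_89bcae_ag.Zc

open Pool.Agent.Lib.MP_89bcae_ag.Zq (TrJ IsTrivialJ IsFixedByJ NTJ)

open Pool.Agent.Lib.MP_89bcae_ag.Zs (LTprop Co1)

open Pool.Agent.Lib.MP_89bcae_ag.Ze

section

variable {L : Type} [Field L] {p : L[X]}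

/-- The class of a polynomial prime to `p` is invertible. -/
theorem exists_unitE {A : L[X]} (h : IsCoprime A p) : ∃ u : (AdjoinRoot p)ˣ, (u : AdjoinRoot p) = AdjoinRoot.mk p A := by
  obtain ⟨a, b, hab⟩ := h
  have h1 : AdjoinRoot.mk p a * AdjoinRoot.mk p A = 1 := by
    rw [← map_mul, ← map_one (AdjoinRoot.mk p), ← hab, map_add, map_mul (AdjoinRoot.mk p) b, AdjoinRoot.mk_self, mul_zero,
      add_zero]
  exact ⟨⟨AdjoinRoot.mk p A, AdjoinRoot.mk p a, by rw [mul_comm, h1], h1⟩, rfl⟩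

end

section rich

variable {ℓ : ℕ} {R : Type} [CommRing R] {G : Subgroup (R ≃+* R)} {V U : Subgroup Rˣ}

/-- The nonzero groups of endomorphisms of the stable subgroups of `U / V` which are stable under conjugation contain
injective ones, and `U / V` is finite. -/
def IsAmpleE (G : Subgroup (R ≃+* R)) (U V : Subgroup Rˣ) : Prop :=
  ∀ hG : ∀ γ ∈ G, ∀ u ∈ V, Units.map (γ : R →* R) u ∈ V,
    @ZInj.Ample G (Additive (Rˣ ⧸ V)) _ _ (actV G hG) (quo V U)

/-- The symplectic case. -/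
theorem ample_sympE [hl : Fact ℓ.Prime]
    (hPV : powers ℓ R ≤ V) (hVU : V ≤ U) {g : ℕ} (hg : ℓ ≠ 2 ∨ 4 ≤ g) (hcard : V.relIndex U = ℓ ^ (2 * g))
    {e : Rˣ → Rˣ → ZMod ℓ} (he : IsPairing ℓ V U e) (halt : ∀ u ∈ U, e u u = 0)
    (hiso : ∀ φ : Rˣ → Rˣ, IsEndomorphism V U φ →
      (∀ u ∈ U, ∀ v ∈ U, e (φ u) (φ v) = e u v) → IsInducedBy G V U φ) : IsAmpleE G U V := by
  have hfin : Finite (quo V U) := Nat.finite_of_card_ne_zero (by
    rw [card_quo, hcard]
    exact pow_ne_zero _ hl.out.ne_zero)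
  intro hG
  refine @ZInj.Ample.mk G (Additive (Rˣ ⧸ V)) _ _ (actV G hG) (quo V U) hfin fun N hNU hN A hne hA => ?_
  by_cases hl2 : ℓ = 2
  · subst hl2
    have hg' : 4 ≤ g := hg.resolve_left (fun h => h rfl)
    exact @ZInj.rich_symp2 G (Additive (Rˣ ⧸ V)) _ _ (actV G hG)
      (quo V U) (quo_smul hPV) (pairing he hVU) (fun c => halt _ (rep_mem c)) (pairing_nd he hVU)
      (fun f hf => induced hG f (hiso _ (fn_isEndomorphism f) fun u hu v hv => by
        have h6 := hf (cls hu) (cls hv)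
        rw [pairing_apply, pairing_apply] at h6
        rw [fn_apply f hu, fn_apply f hv, h6]
        exact pairing_congr he hVU (rep_mem _) hu (rep_mem _) hv (rep_cls hu) (rep_cls hv)))
      g hg' (by rw [card_quo, hcard]) N hNU hN A hne hA
  · exact @ZInj.rich_symp G (Additive (Rˣ ⧸ V)) _ _ (actV G hG) ℓ hl hl2
      (quo V U) (quo_smul hPV) (pairing he hVU) (fun c => halt _ (rep_mem c)) (pairing_nd he hVU)
      (fun f hf => induced hG f (hiso _ (fn_isEndomorphism f) fun u hu v hv => by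
        have h6 := hf (cls hu) (cls hv)
        rw [pairing_apply, pairing_apply] at h6
        rw [fn_apply f hu, fn_apply f hv, h6]
        exact pairing_congr he hVU (rep_mem _) hu (rep_mem _) hv (rep_cls hu) (rep_cls hv)))
      hfin N hNU hN A hne hA

/-- The orthogonal case. -/
theorem ample_orthE
    (hPV : powers 2 R ≤ V) (hVU : V ≤ U) {g : ℕ} (hg : 4 ≤ g) (hcard : V.relIndex U = 2 ^ (2 * g))
    {q : Rˣ → ZMod 2} (hq : ∀ u ∈ V, q u = 0)
    (he : IsPairing 2 V U (fun u v => q (u * v) - q u - q v))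
    (hiso : ∀ φ : Rˣ → Rˣ, IsEndomorphism V U φ → (∀ u ∈ U, q (φ u) = q u) →
      IsInducedBy G V U φ) : IsAmpleE G U V := by
  have hfin : Finite (quo V U) := Nat.finite_of_card_ne_zero (by
    rw [card_quo, hcard]
    exact pow_ne_zero _ two_ne_zero)
  -- `q` depends only on the class
  have hqc : ∀ {u u' : Rˣ}, u ∈ U → u' ∈ U → u / u' ∈ V → q u = q u' := by
    intro u u' hu hu' h
    have h3 := (he.left _ (hVU h)).2 h u' hu'
    simp only [div_mul_cancel, hq _ h, sub_zero] at h3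
    exact sub_eq_zero.1 h3
  intro hG
  refine @ZInj.Ample.mk G (Additive (Rˣ ⧸ V)) _ _ (actV G hG) (quo V U) hfin fun N hNU hN A hne hA => ?_
  have h1 := @ZInj.rich_orth G (Additive (Rˣ ⧸ V)) _ _ (actV G hG)
    (quo V U) (quo_smul hPV) (fun c => q (rep c)) (pairing he hVU) (fun c d => by
      rw [pairing_apply, hqc (rep_mem _) (mul_mem (rep_mem c) (rep_mem d)) (rep_add c d)]
      ring) (pairing_nd he hVU)
    (fun f hf => induced hG f (hiso _ (fn_isEndomorphism f) fun u hu => by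
      have h6 := hf (cls hu)
      rw [fn_apply f hu, h6]
      exact hqc (rep_mem _) hu (rep_cls hu)))
    g hg (by rw [card_quo, hcard]) N hNU hN A hne hA
  exact h1

/-- The trivial case. -/
theorem ample_trivialE (hVU : V ≤ U) (hcard : V.relIndex U = 1) : IsAmpleE G U V := by
  have h0 : quo V U = ⊥ := by
    rw [eq_bot_iff]
    have h1 : Nat.card (quo V U) = 1 := by rw [card_quo, hcard]
    have h2 := (Nat.card_eq_one_iff_unique.1 h1).1
    intro c hc
    have h3 : (⟨c, hc⟩ : quo V U) = 0 := Subsingleton.elim _ _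
    exact congrArg Subtype.val h3
  intro hG
  refine @ZInj.Ample.mk G (Additive (Rˣ ⧸ V)) _ _ (actV G hG) (quo V U)
    (by rw [h0]; infer_instance) fun N hNU hN A hne hA => ?_
  exact absurd (le_bot_iff.1 (h0 ▸ hNU)) (ZInj.ne_bot_of N A hne)

end rich

section

variable {k F L Ω : Type} [Field k] [Field F] [Algebra k F] [IsAlgClosure k F] [Field L] [Algebra F[X] L]
  [IsFractionRing F[X] L] [Field Ω] [Algebra L Ω] [IsAlgClosure L Ω] {ℓ : ℕ} {f : k[X][X]} {ζ : k}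

lemma aeval_root_iffE {p : L[X]} (hp : curveL k F L f = p) {θ : Ω} :
    (cOver k F L Ω f).eval θ = 0 ↔ aeval θ p = 0 := by
  rw [← hp, ← eval_map_algebraMap]

lemma aeval_eq_of_mkE {p : L[X]} (hp : curveL k F L f = p) {A B : L[X]} (h : AdjoinRoot.mk p A = AdjoinRoot.mk p B)
    {θ : Ω} (hθ : (cOver k F L Ω f).eval θ = 0) : aeval θ A = aeval θ B := by
  rw [AdjoinRoot.mk_eq_mk] at h
  obtain ⟨C, hC⟩ := h
  rw [← sub_eq_zero, ← map_sub, hC, map_mul, (aeval_root_iffE hp).1 hθ, zero_mul]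

/-- No power of one automorphism fixes a class which does not come from points. -/
theorem ntj_one_genE [hl : Fact ℓ.Prime] (H : LHyp ℓ k F L f ζ)
    (hsep : (curveL k F L f).Separable) (hmon : (curveL k F L f).Monic)
    [hG : IsGood ℓ (cOver k F L Ω f)] {LT : Co1 ℓ k F L Ω f → Prop} (hLT : LTprop ζ LT)
    (p : L[X]) (hp : curveL k F L f = p) {G : Subgroup (AdjoinRoot p ≃+* AdjoinRoot p)}
    (ρ : AutO k F L Ω →* (AdjoinRoot p ≃+* AdjoinRoot p))
    (hρ1 : ∀ γ A, ρ γ (AdjoinRoot.mk p A) = AdjoinRoot.mk p (A.map (coefR L (resF γ))))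
    (hρ2 : ∀ γ, ρ γ ∈ G) (hρ3 : ∀ γ' ∈ G, ∃ γ, ρ γ = γ')
    (hst : ∀ γ ∈ G, ∀ u ∈ points ℓ p, Units.map ((γ : AdjoinRoot p ≃+* AdjoinRoot p) : AdjoinRoot p →* AdjoinRoot p) u ∈
      points ℓ p)
    {U : Subgroup (AdjoinRoot p)ˣ} (hU : Contains ζ LT p U)
    (hCR : points ℓ p ≤ U → IsRigid ℓ G U (points ℓ p) ∧ IsAmpleE G U (points ℓ p)) :
    ∃ γ : AutO k F L Ω, ∀ n : ℕ, 0 < n →
      NTJ ℓ (curveL k F L f) LT {((γ ^ n : AutO k F L Ω) : Ω ≃+* Ω)} := by
  subst hp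
  have hℓ : ℓ.Prime := hl.out
  have hz : IsPrimitiveRoot (zA F L Ω ζ) ℓ := zA_prim H
  have hζ0 : zA F L Ω ζ ≠ 0 := hz.ne_zero hℓ.ne_zero
  have hVst : ∀ (g : AutO k F L Ω), ∀ u ∈ points ℓ (curveL k F L f),
      Units.map ((ρ g : AdjoinRoot (curveL k F L f) ≃+* AdjoinRoot (curveL k F L f)) :
        AdjoinRoot (curveL k F L f) →* AdjoinRoot (curveL k F L f)) u ∈ points ℓ (curveL k F L f) :=
    fun g u hu => hst _ (hρ2 g) u hu
  have hVU : points ℓ (curveL k F L f) ≤ U := by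
    intro u hu
    obtain ⟨c', A, hc', huA, hk⟩ := kumE_of_mem_points (Ω := Ω) H hz.pow_eq_one hsep hmon hu
    exact hU hz.pow_eq_one c' hc'.1 (fun n => hc'.lt hLT n) A u huA hk
  let _ : DistribMulAction (AutO k F L Ω) (Additive ((AdjoinRoot (curveL k F L f))ˣ ⧸ points ℓ (curveL k F L f))) :=
    actQ ρ hVst
  have hsm : ∀ (g : AutO k F L Ω) (u : (AdjoinRoot (curveL k F L f))ˣ),
      g • (Additive.ofMul (QuotientGroup.mk u : (AdjoinRoot (curveL k F L f))ˣ ⧸ points ℓ (curveL k F L f))) =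
      Additive.ofMul (QuotientGroup.mk (Units.map ((ρ g : AdjoinRoot (curveL k F L f) ≃+* AdjoinRoot (curveL k F L f)) :
        AdjoinRoot (curveL k F L f) →* AdjoinRoot (curveL k F L f)) u)) := fun g u => actQ_mk ρ hVst g u
  have hzero : ∀ u : (AdjoinRoot (curveL k F L f))ˣ,
      (Additive.ofMul (QuotientGroup.mk u : (AdjoinRoot (curveL k F L f))ˣ ⧸ points ℓ (curveL k F L f))) = 0 ↔
        u ∈ points ℓ (curveL k F L f) := by
    intro u
    have h4 : (Additive.ofMul (QuotientGroup.mk u : (AdjoinRoot (curveL k F L f))ˣ ⧸ points ℓ (curveL k F L f))) = 0 ↔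
        (QuotientGroup.mk u : (AdjoinRoot (curveL k F L f))ˣ ⧸ points ℓ (curveL k F L f)) = 1 := Iff.rfl
    rw [h4, QuotientGroup.eq_one_iff]
  obtain ⟨hC, hR⟩ := hCR hVU
  have hR' : ZInj.Ample (W := Additive ((AdjoinRoot (curveL k F L f))ˣ ⧸ points ℓ (curveL k F L f))) (AutO k F L Ω)
      (quo (points ℓ (curveL k F L f)) U) := by
    refine @ZInj.Ample.comp G (Additive ((AdjoinRoot (curveL k F L f))ˣ ⧸ points ℓ (curveL k F L f))) _ _ (actV G hst)
      _ _ _ _ (hR hst) fun γ => ?_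
    obtain ⟨g, hg⟩ := hρ3 γ γ.2
    refine ⟨g, fun w => ?_⟩
    obtain ⟨u, hu⟩ := QuotientGroup.mk_surjective w.toMul
    have h4 : w = Additive.ofMul (QuotientGroup.mk u :
        (AdjoinRoot (curveL k F L f))ˣ ⧸ points ℓ (curveL k F L f)) := (congrArg Additive.ofMul hu).symm
    rw [h4, hsm, hg]
    rfl
  refine ntj_one_ofE (LT := LT) H hLT hz.pow_eq_one
    (M := Additive ((AdjoinRoot (curveL k F L f))ˣ ⧸ points ℓ (curveL k F L f)))
    (fun c m => ∃ (u : (AdjoinRoot (curveL k F L f))ˣ) (A : L[X]),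
      (u : AdjoinRoot (curveL k F L f)) = AdjoinRoot.mk (curveL k F L f) A ∧
      m = Additive.ofMul (QuotientGroup.mk u : (AdjoinRoot (curveL k F L f))ˣ ⧸ points ℓ (curveL k F L f)) ∧
      IsKumE ζ (fun σ => vJ (zA F L Ω ζ) hz.pow_eq_one (c 1 σ)) A)
    ?_ ?_ ?_ ?_ ?_ ?_ ?_ ?_ ?_
  · -- existence
    intro c hc
    obtain ⟨A, hA⟩ := exists_isKumE H hz.pow_eq_one hsep hc.1
    obtain ⟨u, hu⟩ := exists_unitE (hA.isCoprime hsep)
    exact ⟨_, u, A, hu, rfl, hA⟩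
  · -- sums
    rintro c c' - - m m' ⟨u, A, huA, rfl, hu⟩ ⟨u', A', huA', rfl, hu'⟩
    refine ⟨u * u', A * A', by rw [Units.val_mul, huA, huA', map_mul], rfl, ?_⟩
    have h4 := hu.add hζ0 hu'
    refine Eq.mp (congrArg (fun a => IsKumE ζ a _) ?_) h4
    funext σ
    exact (vJ_add _ _ _ _).symm
  · -- trivial classes
    rintro c hc m ⟨u, A, huA, rfl, hu⟩
    rw [hzero]
    exact mem_points H hz.pow_eq_one hsep hmon hc hu huA
  · -- `Z`
    rintro c hc m ⟨u, A, huA, rfl, hu⟩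
    exact ⟨u, A, huA, rfl, isKumE_zC H hz.pow_eq_one hc.1 hu⟩
  · -- kernel
    rintro c hc ⟨u, A, huA, hu0, hu⟩
    obtain ⟨c', A', hc', huA', hk⟩ := kumE_of_mem_points (Ω := Ω) H hz.pow_eq_one hsep hmon ((hzero u).1 hu0.symm)
    refine ⟨c', hc', ?_⟩
    obtain ⟨B, hB⟩ := AdjoinRoot.mk_surjective ((u⁻¹ : (AdjoinRoot (curveL k F L f))ˣ) : AdjoinRoot (curveL k F L f))
    have hAA : ∀ θ : Ω, (cOver k F L Ω f).eval θ = 0 → aeval θ A = aeval θ A' := fun θ hθ =>
      aeval_eq_of_mkE rfl (huA.symm.trans huA') hθ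
    have hAB : ∀ θ : Ω, (cOver k F L Ω f).eval θ = 0 → aeval θ A' * aeval θ B = 1 := by
      intro θ hθ
      rw [← map_mul, ← map_one (aeval (R := L) θ)]
      refine aeval_eq_of_mkE (k := k) (f := f) rfl ?_ hθ
      rw [map_mul, ← huA', hB, Units.mul_inv, map_one]
    have h4 := hu.add hζ0 (hk.neg hAB)
    have h5 : IsKumE ζ (fun σ => vJ (zA F L Ω ζ) hz.pow_eq_one ((c - c') 1 σ)) (A * B) := by
      refine Eq.mp (congrArg (fun a => IsKumE ζ a _) ?_) h4
      funext σ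
      rw [← sub_eq_add_neg]
      exact (vJ_sub _ _ _ _).symm
    refine h5.exists_cob (W := 1) H hsep ?_
    have h6 : AdjoinRoot.mk (curveL k F L f) (A * B) = AdjoinRoot.mk (curveL k F L f) (1 ^ ℓ) := by
      rw [map_mul, ← huA, hB, Units.mul_inv, one_pow, map_one]
    exact AdjoinRoot.mk_eq_mk.1 h6
  · -- equivariance
    rintro g c hc m ⟨u, A, huA, rfl, hu⟩
    refine ⟨_, A.map (coefR L (resF g)), ?_, hsm g u, ?_⟩
    · show ρ g (u : AdjoinRoot (curveL k F L f)) = _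
      rw [huA, hρ1]
    have h4 := hu.act g
    refine Eq.mp (congrArg (fun a => IsKumE ζ a _) ?_) h4
    funext σ
    exact (vJ_symJ (zA F L Ω ζ) hz.pow_eq_one (toSym f (g : AutO k F L Ω)) (zA_fixed ζ (g : AutO k F L Ω)) _).symm
  · -- finiteness
    have h4 : Finite (quo (points ℓ (curveL k F L f)) U) := hR'.finite
    refine (Set.finite_range (fun q : quo (points ℓ (curveL k F L f)) U =>
      (q : Additive ((AdjoinRoot (curveL k F L f))ˣ ⧸ points ℓ (curveL k F L f))))).subset ?_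
    rintro _ ⟨c, hc, u, A, huA, rfl, hu⟩
    exact ⟨⟨_, ⟨u, hU hz.pow_eq_one c hc.1 hc.2 A u huA hu, rfl⟩⟩, rfl⟩
  · -- the criterion
    intro N hN hNE hNst r hr n σ ρ' th hL
    refine rigid_contra hVU hC ρ hρ2 hρ3 hsm N hN ?_ hr hL
    intro m hm
    obtain ⟨c, hc, u, A, huA, hmu, hu⟩ := hNE m hm
    exact ⟨u, hU hz.pow_eq_one c hc.1 hc.2 A u huA hu, hmu⟩
  · -- the endomorphisms
    intro N A hN hne hA
    have hNst : ∀ (g : AutO k F L Ω) (m : Additive ((AdjoinRoot (curveL k F L f))ˣ ⧸ points ℓ (curveL k F L f))),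
        m ∈ N → g • m ∈ N := by
      intro g m hm
      obtain ⟨c, hc, u, B, huB, rfl, hu⟩ := (hN m).1 hm
      rw [hN]
      refine ⟨act g c, IsL.act hLT hc _, _, B.map (coefR L (resF g)), ?_, hsm g u, ?_⟩
      · show ρ g (u : AdjoinRoot (curveL k F L f)) = _
        rw [huB, hρ1]
      have h4 := hu.act g
      refine Eq.mp (congrArg (fun a => IsKumE ζ a _) ?_) h4
      funext σ
      exact (vJ_symJ (zA F L Ω ζ) hz.pow_eq_one (toSym f (g : AutO k F L Ω)) (zA_fixed ζ (g : AutO k F L Ω)) _).symm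
    refine hR'.inj N ?_ hNst A hne hA
    intro m hm
    obtain ⟨c, hc, u, B, huB, rfl, hu⟩ := (hN m).1 hm
    exact ⟨u, hU hz.pow_eq_one c hc.1 hc.2 B u huB hu, rfl⟩

end

end Pool.Agent.Lib.MP_89bcae_ag.Zt
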