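import Mathlib
import Pool.Agent.Lib.MP_89bcae_ag.Bra.Defs

/-!
# One automorphism
-/

namespace Pool.Agent.Lib.MP_89bcae_ag.Zt

open Pool.Agent.Lib.MP_89bcae_ag.Bra (IsTateSequence IsUnramified IsFixedBy IsCoboundary)

/-- There is one automorphism `δ` of `S` over `k(t, x, y)` such that for all `n > 0` the elements of the `ℓ`-adic Tate module
of the Brauer group of a smooth projective model of the function field `K = F(t, x, y)` which are fixed by `δ ^ n` are
trivial (see `BrauerInvariantsTrivial`). -/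
def BrauerInvariantsTrivialOne (ℓ : ℕ) (k F : Type) {K : Type} (S : Type) [Field k] [Field F] [Algebra k F] [Field K]
    [Algebra F K] [Field S] [Algebra K S] (t x y : K) : Prop :=
  ∃ δ : S ≃+* S, ((∀ c : k, δ (algebraMap K S (algebraMap F K (algebraMap k F c))) =
      algebraMap K S (algebraMap F K (algebraMap k F c))) ∧
    δ (algebraMap K S t) = algebraMap K S t ∧ δ (algebraMap K S x) = algebraMap K S x ∧
      δ (algebraMap K S y) = algebraMap K S y) ∧
    ∀ n : ℕ, 0 < n → ∀ b : ℕ → (S ≃ₐ[K] S) → (S ≃ₐ[K] S) → Sˣ, IsTateSequence ℓ b →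
      (∀ m, IsUnramified F (b m)) → (∀ m, IsFixedBy (b m) (δ ^ n)) → ∀ m, IsCoboundary (b m)

end Pool.Agent.Lib.MP_89bcae_ag.Zt
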