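import Mathlib
import Pool.Agent.Lib.MP_89bcae_ag.Zq.Br

/-!
# The transfer from the Selmer groups to the Brauer groups, for one automorphism and its powers
-/

attribute [local instance 100000] Pool.Agent.Lib.MP_89bcae_ag.Brt.tffFields
attribute [local instance 100000] Pool.Agent.Lib.MP_89bcae_ag.Wt.ifrNF Pool.Agent.Lib.MP_89bcae_ag.Wt.iddNF

open Polynomial IsDedekindDomain

open scoped Classical

namespace Pool.Agent.Lib.MP_89bcae_ag.Zt

open Pool.Agent.Lib.MP_89bcae_ag.Wt Pool.Agent.Lib.MP_89bcae_ag.Wt.Lns Pool.Agent.Lib.MP_89bcae_ag.Bra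
  Pool.Agent.Lib.MP_89bcae_ag.Brt

open Pool.Agent.Lib.MP_89bcae_ag.Zc Pool.Agent.Lib.MP_89bcae_ag.Zq

open Pool.Agent.Lib.MP_89bcae_ag.Zs (IsCoverField)

section

variable {K S : Type} [Field K] [Field S] [Algebra K S]
  {L Ω : Type} [Field L] [Field Ω] [Algebra L Ω] {ℓ : ℕ} {f : L[X]}
  {F : Type} [Field F] [Algebra F K] [Algebra F[X] L]
  {i : L →+* K} [IsAlgClosed F] [IsAlgClosure K S] [IsAlgClosure L Ω]
  [hG : IsGood ℓ (f.map (algebraMap L Ω))] {x y : K}
  {Φ : FunField ℓ (f.map (algebraMap L Ω)) →+* S}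

private lemma module_auxJ {A : Type*} [AddCommGroup A] {m w : ℕ} {X Y P V U R Q Q' : A}
    (h : m • (w • X - w • Y) = w • (Q' - Q)) :
    m • (w • X + (P - V) - (w • Y + (U - R))) = w • Q' + m • (P - U) - (w • Q + m • (V - R)) := by
  have h1 : m • (w • X + (P - V) - (w • Y + (U - R))) =
      m • (w • X - w • Y) + m • (P - V - (U - R)) := by
    rw [← smul_add]
    congr 1
    abel
  rw [h1, h]
  simp only [smul_sub]
  abel

/-- The transfer theorem, modulo the points of the Jacobian, with given extensions of the automorphisms. -/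
theorem transferJ1 (hℓ : ℓ.Prime)
    (hΦ : IsModel F i x y Φ) (hBr : BrTriv ℓ L Ω)
    {Γ : Set (Ω ≃+* Ω)} {LT : ((Ω ≃ₐ[L] Ω) → JacOver ℓ f Ω) → Prop}
    (hV : ∀ (b : (Ω ≃ₐ[L] Ω) → (Ω ≃ₐ[L] Ω) → (FunField ℓ (f.map (algebraMap L Ω)))ˣ)
      (C : (Ω ≃ₐ[L] Ω) → (Pt ℓ (f.map (algebraMap L Ω)) →₀ ℤ)), ICoc b → IUnr F b → IDiv b C →
        LT fun g => cl (C g))
    (hNT : NTJ ℓ f LT Γ) {A : (S ≃+* S) → Prop}
    (hA : ∀ (γ : Ω ≃+* Ω) (hγ : γ ∈ Sym (f.map (algebraMap L Ω))), γ ∈ Γ → ∃ (s : L ≃+* L) (γ' : S ≃+* S),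
      (∀ z, γ (algebraMap L Ω z) = algebraMap L Ω (s z)) ∧
        (∀ u, γ' (Φ u) = Φ (funMap ℓ (γ : Ω →+* Ω) hγ u)) ∧ A γ')
    (b : ℕ → (S ≃ₐ[K] S) → (S ≃ₐ[K] S) → Sˣ) (hb : IsTateSequence ℓ b)
    (hu : ∀ n, IsUnramified F (b n)) (hfix : ∀ γ : S ≃+* S, A γ → ∀ n, Bra.IsFixedBy (b n) γ) :
    ∀ n, IsCoboundary (b n) := by
  have hrep := fun n => exists_rep hℓ hΦ (b n) (hb.cocycle n) (hu n)
  choose m b' C hR using hrep
  have h0 : ∃ u : ℕ, u.Coprime ℓ ∧ (u • fun g => (cl (C 0 g) : Jac ℓ (f.map (algebraMap L Ω)))) ∈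
      cob1 (ℓ := ℓ) (Ω := Ω) f := by
    have e1 : IsCoboundary (infl hΦ (b' 0)) := by
      have e2 := ((hb.zero.pow (m 0)).mul (hR 0).infl.inv)
      refine Eq.mp (congrArg IsCoboundary ?_) e2
      funext g h
      rw [inv_div, mul_div_cancel]
    obtain ⟨u, hu, hcob⟩ := icob_of_infl hℓ hΦ _ (hR 0).cocycle e1
    obtain ⟨Q, hQ⟩ := cl_of_icob ((hR 0).div.pow u) hcob
    exact ⟨u, hu, Q, fun g => by rw [← hQ g, Pi.smul_apply, Pi.smul_apply, map_nsmul]⟩
  have h1 : ∀ n, ∃ u : ℕ, u.Coprime ℓ ∧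
      u • ((ℓ * m n) • (fun g => (cl (C (n + 1) g) : Jac ℓ (f.map (algebraMap L Ω)))) -
        m (n + 1) • fun g => (cl (C n g) : Jac ℓ (f.map (algebraMap L Ω)))) ∈
      cob1 (ℓ := ℓ) (Ω := Ω) f := by
    intro n
    obtain ⟨u, hu, Q, hQ⟩ := (hR (n + 1)).relation hℓ (hR n) ℓ (hb.pow n)
    exact ⟨u, hu, Q, fun g => hQ g⟩
  obtain ⟨w, hw0, hw1, hw2⟩ := exists_weights hℓ (cob1 (ℓ := ℓ) (Ω := Ω) f)
    (fun n g => cl (C n g)) m (fun n => (hR n).coprime) h0 h1
  obtain ⟨R, hR0, hR1⟩ := exists_exact hℓ (f := f)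
    (fun n g => w n • (cl (C n g) : Jac ℓ (f.map (algebraMap L Ω)))) hw0 hw1
  choose D hD using fun n => cl_surjective (N := ℓ) (f := f.map (algebraMap L Ω)) (R n)
  have hdiv : ∀ n, IDiv (fun g h => b' n g h ^ w n)
      (fun g => (w n • C n) g + ((D n).mapDomain (Pt.sym (gs f g)) - D n)) := fun n =>
    ((hR n).div.pow (w n)).add_coboundary (D n)
  set c : ℕ → (Ω ≃ₐ[L] Ω) → Jac ℓ (f.map (algebraMap L Ω)) := fun n g =>
    cl ((w n • C n) g + ((D n).mapDomain (Pt.sym (gs f g)) - D n)) with hc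
  have hc' : ∀ n g, c n g = w n • cl (C n g) + (symJ (gs f g) (R n) - R n) := by
    intro n g
    show cl ((w n • C n) g + ((D n).mapDomain (Pt.sym (gs f g)) - D n)) = _
    rw [← hD n, symJ_cl, map_add, map_sub, Pi.smul_apply, map_nsmul]
  have hT : Wt.IsTateCocycle ℓ f c := by
    refine ⟨fun σ => ?_, fun n σ => ?_, fun n σ τ => ?_, fun n => ?_⟩
    · rw [hc']
      exact hR0 σ
    · rw [hc', hc']
      exact hR1 n σ
    · rw [push_gs]
      exact (hdiv n).cl_cocycle σ τ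
    · apply isLocallyConstant_of_isCts
      obtain ⟨T, hT⟩ := (hdiv n).continuous
      exact ⟨T, fun g g' h => congrArg cl (hT g g' h)⟩
  have hLT' : ∀ n : ℕ, LT (c n) := fun n =>
    hV _ _ ((hR n).cocycle.pow (w n)) ((hR n).unr.pow (w n)) (hdiv n)
  have hF : ∀ (γ : Ω ≃+* Ω) (hγ : (f.map (algebraMap L Ω)).map (γ : Ω →+* Ω) = f.map (algebraMap L Ω)), γ ∈ Γ →
      ∀ n, ∃ A : JacOver ℓ f Ω, ∀ g h : Ω ≃ₐ[L] Ω, (∀ x, γ (g x) = h (γ x)) →
        jacMap ℓ (γ : Ω →+* Ω) hγ (c n g) - c n h = push ℓ f (h : Ω →ₐ[L] Ω) A - A := by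
    intro γ hγ hγk n
    obtain ⟨s, γ', hs, hγ', hsA⟩ := hA γ hγ hγk
    refine exact_of_coprime hℓ hT γ hγ n ?_
    have e1 : Bra.IsFixedBy (b n) γ' := hfix γ' hsA n
    obtain ⟨m', hm', a, ha, hab⟩ := icob_of_fixed hℓ hΦ (b n) (hb.cocycle n) (m n) (b' n)
      (hR n).cocycle (hR n).infl γ hγ s hs γ' hγ' e1
    obtain ⟨Q, hQ⟩ := cl_of_fixed (hR n).div γ hγ s hs m' a ha hab
    refine ⟨m', hm', w n • Q + m' • (symJ ⟨γ, hγ⟩ (R n) - R n), fun g g' hg => ?_⟩
    have e2 := hQ g g' hg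
    have e3 : symJ ⟨γ, hγ⟩ (symJ (gs f g) (R n)) = symJ (gs f g') (symJ ⟨γ, hγ⟩ (R n)) := by
      rw [← symJ_mul, ← symJ_mul]
      congr 1
      congr 1
      apply Subtype.ext
      apply RingEquiv.ext
      exact hg
    rw [hc', hc', map_add, map_sub, map_nsmul, e3, map_add, map_nsmul, map_nsmul, map_sub]
    have e4 : m' • (w n • symJ ⟨γ, hγ⟩ (cl (C n g)) - w n • cl (C n g')) =
        w n • (symJ (gs f g') Q - Q) := by
      rw [← e2, smul_comm, smul_sub, smul_sub, smul_sub]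
    exact module_auxJ e4
  have hNTk := hNT c hT hLT' hF
  -- the cocycles are trivial
  intro n
  obtain ⟨A, hA⟩ := hNTk n
  obtain ⟨u, hu', hcob⟩ := icob_of_cl hBr ((hR n).cocycle.pow (w n)) (hdiv n) A hA
  rcases Nat.eq_zero_or_pos n with rfl | hn
  · exact hb.zero
  have e2 : IsCoboundary fun g h => b n g h ^ (m n * w n * u) := by
    have e3 := (icob_infl hΦ hcob).mul ((hR n).infl.pow (w n * u))
    refine Eq.mp (congrArg IsCoboundary ?_) e3
    funext g h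
    unfold infl
    simp only [map_pow, div_pow, ← pow_mul]
    rw [mul_div_cancel, mul_assoc]
  refine IsCoboundary.of_coprime ?_ e2 (hb.pow_coboundary n)
  have e4 : (w n * m n).Coprime ℓ := by
    have e5 := ((hw2 n).of_dvd (dvd_pow_self ℓ hn.ne')).gcd_eq
    rw [Nat.gcd_one_left] at e5
    exact e5
  exact Nat.Coprime.pow_right n ((Nat.mul_comm (w n) (m n) ▸ e4).mul_left hu')

/-- The powers of an extension. -/
theorem pow_lift (γ : Sym (f.map (algebraMap L Ω))) (γ' : S ≃+* S)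
    (h : ∀ u, γ' (Φ u) = Φ (funMap ℓ ((γ : Ω ≃+* Ω) : Ω →+* Ω) γ.2 u)) (n : ℕ) (u) :
    (γ' ^ n) (Φ u) = Φ (funMap ℓ (((γ ^ n : Sym (f.map (algebraMap L Ω))) : Ω ≃+* Ω) : Ω →+* Ω) (γ ^ n).2 u) := by
  induction n generalizing u with
  | zero =>
    show Φ u = _
    congr 1
    have h1 : ∀ (σ : Ω →+* Ω) (h : (f.map (algebraMap L Ω)).map σ = f.map (algebraMap L Ω)),
        σ = RingHom.id Ω → funMap ℓ σ h = RingHom.id _ := by
      rintro σ h rfl
      refine funField_hom_ext (fun p => ?_) ?_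
      · rw [funMap_polyF, RingHom.id_apply, Polynomial.map_id]
      · rw [funMap_yF, RingHom.id_apply]
    exact (RingHom.congr_fun (h1 _ _ rfl) u).symm
  | succ n ih =>
    rw [pow_succ, RingAut.mul_apply, h, ih, extf_funMap_mul]
    rfl

end

/-- The theorem for general fields `L = F(t)` and algebraic closures. -/
theorem zt_aux {ℓ e : ℕ} (hℓ : ℓ.Prime) {k F K L Ω S : Type} [Field k] [Field F] [Algebra k F]
    [IsAlgClosure k F] [Field K] [Algebra F K] [Field S] [Algebra K S] [IsAlgClosure K S]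
    [Field L] [Algebra F[X] L] [IsFractionRing F[X] L] [Algebra (RatFunc F) L]
    [FiniteDimensional (RatFunc F) L] [Field Ω] [Algebra L Ω] [IsAlgClosure L Ω]
    (hk : (ℓ : k) ≠ 0) {f : k[X][X]} (hB : Zp.IsBranchCurve ℓ e F f)
    (hNT : ∀ [IsGood ℓ ((f.map (base k F L L)).map (algebraMap L Ω))], ∃ γ : AutO k F L Ω, ∀ n : ℕ, 0 < n →
      NTJ ℓ (f.map (base k F L L)) (Zp.UB F ℓ (f.map (base k F L L))) {((γ ^ n : AutO k F L Ω) : Ω ≃+* Ω)})
    {t x y : K} (hind : AlgebraicIndependent F ![t, x]) (hy : y ^ ℓ = Zs.val F f t x) (i : L →+* K)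
    (hi : ∀ p : F[X], i (algebraMap F[X] L p) = aeval t p)
    (hgen : ∀ M : Subfield K, (∀ z : L, i z ∈ M) → x ∈ M → y ∈ M → M = ⊤) :
    ∃ δ : S ≃+* S, ((∀ c : k, δ (algebraMap K S (algebraMap F K (algebraMap k F c))) =
        algebraMap K S (algebraMap F K (algebraMap k F c))) ∧
      δ (algebraMap K S t) = algebraMap K S t ∧ δ (algebraMap K S x) = algebraMap K S x ∧
        δ (algebraMap K S y) = algebraMap K S y) ∧
      ∀ n : ℕ, 0 < n → ∀ b : ℕ → (S ≃ₐ[K] S) → (S ≃ₐ[K] S) → Sˣ, IsTateSequence ℓ b →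
        (∀ m, IsUnramified F (b m)) → (∀ m, Bra.IsFixedBy (b m) (δ ^ n)) → ∀ m, IsCoboundary (b m) := by
  have hFa : IsAlgClosed F := IsAlgClosure.isAlgClosed k
  have hF0 : (ℓ : F) ≠ 0 := by
    rw [← map_natCast (algebraMap k F)]
    exact (_root_.map_ne_zero _).mpr hk
  obtain ⟨hsep, hG⟩ := Zp.good_of' (Ω := Ω) (L := L) hℓ hk hB
  obtain ⟨Φ, hΦ⟩ := exists_model_gen (Ω := Ω) (S := S) hind hy i hi hgen (map_base_eq F L f)
  have hinj : Function.Injective (algebraMap F[X] L) := IsFractionRing.injective F[X] L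
  have hBr : BrTriv ℓ L Ω := by
    intro b hb
    refine tsen (C := F) hℓ ?_ b hb
    have h1 : algebraMap F[X] L (C (ℓ : F)) = (ℓ : L) := by
      rw [map_natCast, map_natCast]
    rw [← h1]
    intro h0
    have h2 := hinj (h0.trans (map_zero _).symm)
    exact hF0 (C_eq_zero.1 h2)
  obtain ⟨γ, hγn⟩ := hNT
  have hsym : ∀ g : AutO k F L Ω, (g : Ω ≃+* Ω) ∈ Sym ((f.map (base k F L L)).map (algebraMap L Ω)) :=
    fun g => (toSym f g).2
  have hbot : ∀ g : AutO k F L Ω, ∃ (σ : L ≃+* L) (τ : F ≃+* F),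
      (∀ z, (g : Ω ≃+* Ω) (algebraMap L Ω z) = algebraMap L Ω (σ z)) ∧ (∀ c : k, τ (algebraMap k F c) = algebraMap k F c) ∧
      ∀ p : F[X], σ (algebraMap F[X] L p) = algebraMap F[X] L (p.map (τ : F →+* F)) := by
    intro g
    have h1 : (g : Ω ≃+* Ω) ∈ AutK k F L Ω (⊥ : IntermediateField k F) := by
      intro p
      obtain ⟨q, hq⟩ := Polynomial.map_surjective (algebraMap k (⊥ : IntermediateField k F)) (by
        intro a
        obtain ⟨c, hc⟩ := IntermediateField.mem_bot.1 a.2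
        exact ⟨c, Subtype.ext hc⟩) p
      have h2 : base (⊥ : IntermediateField k F) F L Ω p = base k F L Ω q := by
        rw [← hq]
        unfold base
        simp only [RingHom.comp_apply, coe_mapRingHom, Polynomial.map_map]
        congr 4
      rw [h2]
      exact g.2 q
    obtain ⟨σ, τ, h2, h3, h4⟩ := exists_of_mem_autK' (⊥ : IntermediateField k F) h1
    exact ⟨σ, τ, h2, fun c => h3 _ ((⊥ : IntermediateField k F).algebraMap_mem c), h4⟩
  obtain ⟨σ, τ, h1, h2, h3⟩ := hbot γ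
  obtain ⟨δ, hδ, hδF⟩ := exists_lift hΦ (γ : Ω ≃+* Ω) (hsym γ) σ h1
  refine ⟨δ, ⟨fun c => ?_, ?_, ?_, ?_⟩, fun n hn b hb hu hfix => ?_⟩
  · have h7 := hδF (algebraMap F[X] L (C (algebraMap k F c)))
    rw [h3, hi, hi, map_C, aeval_C, aeval_C] at h7
    rw [h7]
    congr 2
    exact h2 c
  · have h7 := hδF (algebraMap F[X] L X)
    rw [h3, hi, hi, map_X, aeval_X] at h7
    exact h7
  · rw [← hΦ.fx, hδ]
    exact congrArg Φ ((funMap_polyF _ _ _).trans (by rw [map_X]))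
  · rw [← hΦ.fy, hδ]
    exact congrArg Φ (funMap_yF _ _)
  · refine transferJ1 hℓ hΦ hBr (fun b C hb hu hC => ⟨b, C, hb, hu, hC, fun _ => rfl⟩) (hγn n hn)
      (A := fun γ' => γ' = δ ^ n) ?_ b hb hu (fun γ' hγ' m => hγ' ▸ hfix m)
    intro g hg hgn
    obtain ⟨σn, τn, h4, -, -⟩ := hbot (γ ^ n)
    rw [Set.mem_singleton_iff] at hgn
    subst hgn
    exact ⟨σn, δ ^ n, h4, fun u => pow_lift ⟨(γ : Ω ≃+* Ω), hsym γ⟩ δ hδ n u, rfl⟩

/-- The Brauer side for one automorphism: if no nontrivial classes in the Selmer groups, modulo those of the points of the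
Jacobians, are fixed by a power of some automorphism `γ`, the same holds in the Tate modules of the Brauer groups. -/
theorem brauer_one {ℓ e : ℕ} {k F : Type} [Field k] [Field F] [Algebra k F] [IsAlgClosure k F] (hℓ : ℓ.Prime)
    (hk : (ℓ : k) ≠ 0) {f : k[X][X]} (hB : Zp.IsBranchCurve ℓ e F f)
    (hNT : ∀ (L Ω : Type) [Field L] [Algebra F[X] L] [IsFractionRing F[X] L] [Field Ω] [Algebra L Ω]
      [IsAlgClosure L Ω] [IsGood ℓ ((f.map (base k F L L)).map (algebraMap L Ω))],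
      ∃ γ : AutO k F L Ω, ∀ n : ℕ, 0 < n →
        NTJ ℓ (f.map (base k F L L)) (Zp.UB F ℓ (f.map (base k F L L))) {((γ ^ n : AutO k F L Ω) : Ω ≃+* Ω)}) :
    ∀ (K S : Type) [Field K] [Algebra F K] [Field S] [Algebra K S] [IsAlgClosure K S] (t x y : K),
      IsCoverField ℓ F f t x y →
      ∃ δ : S ≃+* S, ((∀ c : k, δ (algebraMap K S (algebraMap F K (algebraMap k F c))) =
          algebraMap K S (algebraMap F K (algebraMap k F c))) ∧
        δ (algebraMap K S t) = algebraMap K S t ∧ δ (algebraMap K S x) = algebraMap K S x ∧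
          δ (algebraMap K S y) = algebraMap K S y) ∧
        ∀ n : ℕ, 0 < n → ∀ b : ℕ → (S ≃ₐ[K] S) → (S ≃ₐ[K] S) → Sˣ, IsTateSequence ℓ b →
          (∀ m, IsUnramified F (b m)) → (∀ m, Bra.IsFixedBy (b m) (δ ^ n)) → ∀ m, IsCoboundary (b m) := by
  intro K S _ _ _ _ _ t x y hK
  have htr : Transcendental F t := by
    have h4 := hK.independent.transcendental 0
    exact h4
  have hinj : Function.Injective ((aeval t : F[X] →ₐ[F] K) : F[X] →+* K) := by
    rw [injective_iff_map_eq_zero]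
    intro p hp
    exact (transcendental_iff.1 htr) p hp
  let i : RatFunc F →+* K := IsFractionRing.lift hinj
  have hi : ∀ p : F[X], i (algebraMap F[X] (RatFunc F) p) = aeval t p := fun p =>
    IsFractionRing.lift_algebraMap hinj p
  have hgen : ∀ M : Subfield K, (∀ z : RatFunc F, i z ∈ M) → x ∈ M → y ∈ M → M = ⊤ := by
    intro M h1 h2 h3
    rw [eq_top_iff]
    intro z _
    let M' : IntermediateField F K := { M with
      algebraMap_mem' := fun c => by
        have h4 := h1 (algebraMap F[X] (RatFunc F) (C c))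
        rw [hi, aeval_C] at h4
        exact h4 }
    have h4 : IntermediateField.adjoin F {t, x, y} ≤ M' := by
      rw [IntermediateField.adjoin_le_iff]
      intro w hw
      rcases hw with rfl | rfl | hw
      · have h4 := h1 (algebraMap F[X] (RatFunc F) X)
        rw [hi, aeval_X] at h4
        exact h4
      · exact h2
      · rw [Set.mem_singleton_iff.1 hw]
        exact h3
    rw [hK.generate] at h4
    exact h4 IntermediateField.mem_top
  exact zt_aux (S := S) (Ω := AlgebraicClosure (RatFunc F)) (L := RatFunc F) hℓ hk hB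
    (fun {_} => hNT (RatFunc F) (AlgebraicClosure (RatFunc F))) hK.independent hK.equation i hi hgen

end Pool.Agent.Lib.MP_89bcae_ag.Zt
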