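import Mathlib
import Pool.Agent.Lib.MP_89bcae_ag.Zt.Tr
import Pool.Agent.Lib.MP_89bcae_ag.Ze.Good
import Pool.Agent.Lib.MP_89bcae_ag.Zq.Br

/-!
# The transfer from the Selmer groups to the Brauer groups, for one automorphism and its powers
-/

attribute [local instance 100000] Pool.Agent.Lib.MP_89bcae_ag.Brt.tffFields
attribute [local instance 100000] Pool.Agent.Lib.MP_89bcae_ag.Wt.ifrNF Pool.Agent.Lib.MP_89bcae_ag.Wt.iddNF

open Polynomial IsDedekindDomain

open scoped Classical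

namespace Pool.Agent.Lib.MP_89bcae_ag.Zt

open Pool.Agent.Lib.MP_89bcae_ag.Wt Pool.Agent.Lib.MP_89bcae_ag.Wt.Lns Pool.Agent.Lib.MP_89bcae_ag.Bra
  Pool.Agent.Lib.MP_89bcae_ag.Brt

open Pool.Agent.Lib.MP_89bcae_ag.Zc Pool.Agent.Lib.MP_89bcae_ag.Zq

open Pool.Agent.Lib.MP_89bcae_ag.Zs (IsCoverField)

/-- The theorem for general fields `L = F(t)` and algebraic closures. -/
theorem zt_auxE {ℓ : ℕ} (hℓ : ℓ.Prime) {k F K L Ω S : Type} [Field k] [Field F] [Algebra k F]
    [IsAlgClosure k F] [Field K] [Algebra F K] [Field S] [Algebra K S] [IsAlgClosure K S]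
    [Field L] [Algebra F[X] L] [IsFractionRing F[X] L] [Algebra (RatFunc F) L]
    [FiniteDimensional (RatFunc F) L] [Field Ω] [Algebra L Ω] [IsAlgClosure L Ω]
    (hk : (ℓ : k) ≠ 0) {f : k[X][X]} (hB : Ze.IsBranch ℓ F L f)
    (hNT : ∀ [IsGood ℓ ((f.map (base k F L L)).map (algebraMap L Ω))], ∃ γ : AutO k F L Ω, ∀ n : ℕ, 0 < n →
      NTJ ℓ (f.map (base k F L L)) (Zp.UB F ℓ (f.map (base k F L L))) {((γ ^ n : AutO k F L Ω) : Ω ≃+* Ω)})
    {t x y : K} (hind : AlgebraicIndependent F ![t, x]) (hy : y ^ ℓ = Zs.val F f t x) (i : L →+* K)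
    (hi : ∀ p : F[X], i (algebraMap F[X] L p) = aeval t p)
    (hgen : ∀ M : Subfield K, (∀ z : L, i z ∈ M) → x ∈ M → y ∈ M → M = ⊤) :
    ∃ δ : S ≃+* S, ((∀ c : k, δ (algebraMap K S (algebraMap F K (algebraMap k F c))) =
        algebraMap K S (algebraMap F K (algebraMap k F c))) ∧
      δ (algebraMap K S t) = algebraMap K S t ∧ δ (algebraMap K S x) = algebraMap K S x ∧
        δ (algebraMap K S y) = algebraMap K S y) ∧
      ∀ n : ℕ, 0 < n → ∀ b : ℕ → (S ≃ₐ[K] S) → (S ≃ₐ[K] S) → Sˣ, IsTateSequence ℓ b →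
        (∀ m, IsUnramified F (b m)) → (∀ m, Bra.IsFixedBy (b m) (δ ^ n)) → ∀ m, IsCoboundary (b m) := by
  have hFa : IsAlgClosed F := IsAlgClosure.isAlgClosed k
  have hF0 : (ℓ : F) ≠ 0 := by
    rw [← map_natCast (algebraMap k F)]
    exact (_root_.map_ne_zero _).mpr hk
  obtain ⟨hsep, hG⟩ := Ze.good_of (Ω := Ω) (L := L) hℓ hk hB
  obtain ⟨Φ, hΦ⟩ := exists_model_gen (Ω := Ω) (S := S) hind hy i hi hgen (map_base_eq F L f)
  have hinj : Function.Injective (algebraMap F[X] L) := IsFractionRing.injective F[X] L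
  have hBr : BrTriv ℓ L Ω := by
    intro b hb
    refine tsen (C := F) hℓ ?_ b hb
    have h1 : algebraMap F[X] L (C (ℓ : F)) = (ℓ : L) := by
      rw [map_natCast, map_natCast]
    rw [← h1]
    intro h0
    have h2 := hinj (h0.trans (map_zero _).symm)
    exact hF0 (C_eq_zero.1 h2)
  obtain ⟨γ, hγn⟩ := hNT
  have hsym : ∀ g : AutO k F L Ω, (g : Ω ≃+* Ω) ∈ Sym ((f.map (base k F L L)).map (algebraMap L Ω)) :=
    fun g => (toSym f g).2
  have hbot : ∀ g : AutO k F L Ω, ∃ (σ : L ≃+* L) (τ : F ≃+* F),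
      (∀ z, (g : Ω ≃+* Ω) (algebraMap L Ω z) = algebraMap L Ω (σ z)) ∧ (∀ c : k, τ (algebraMap k F c) = algebraMap k F c) ∧
      ∀ p : F[X], σ (algebraMap F[X] L p) = algebraMap F[X] L (p.map (τ : F →+* F)) := by
    intro g
    have h1 : (g : Ω ≃+* Ω) ∈ AutK k F L Ω (⊥ : IntermediateField k F) := by
      intro p
      obtain ⟨q, hq⟩ := Polynomial.map_surjective (algebraMap k (⊥ : IntermediateField k F)) (by
        intro a
        obtain ⟨c, hc⟩ := IntermediateField.mem_bot.1 a.2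
        exact ⟨c, Subtype.ext hc⟩) p
      have h2 : base (⊥ : IntermediateField k F) F L Ω p = base k F L Ω q := by
        rw [← hq]
        unfold base
        simp only [RingHom.comp_apply, coe_mapRingHom, Polynomial.map_map]
        congr 4
      rw [h2]
      exact g.2 q
    obtain ⟨σ, τ, h2, h3, h4⟩ := exists_of_mem_autK' (⊥ : IntermediateField k F) h1
    exact ⟨σ, τ, h2, fun c => h3 _ ((⊥ : IntermediateField k F).algebraMap_mem c), h4⟩
  obtain ⟨σ, τ, h1, h2, h3⟩ := hbot γ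
  obtain ⟨δ, hδ, hδF⟩ := exists_lift hΦ (γ : Ω ≃+* Ω) (hsym γ) σ h1
  refine ⟨δ, ⟨fun c => ?_, ?_, ?_, ?_⟩, fun n hn b hb hu hfix => ?_⟩
  · have h7 := hδF (algebraMap F[X] L (C (algebraMap k F c)))
    rw [h3, hi, hi, map_C, aeval_C, aeval_C] at h7
    rw [h7]
    congr 2
    exact h2 c
  · have h7 := hδF (algebraMap F[X] L X)
    rw [h3, hi, hi, map_X, aeval_X] at h7
    exact h7
  · rw [← hΦ.fx, hδ]
    exact congrArg Φ ((funMap_polyF _ _ _).trans (by rw [map_X]))
  · rw [← hΦ.fy, hδ]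
    exact congrArg Φ (funMap_yF _ _)
  · refine transferJ1 hℓ hΦ hBr (fun b C hb hu hC => ⟨b, C, hb, hu, hC, fun _ => rfl⟩) (hγn n hn)
      (A := fun γ' => γ' = δ ^ n) ?_ b hb hu (fun γ' hγ' m => hγ' ▸ hfix m)
    intro g hg hgn
    obtain ⟨σn, τn, h4, -, -⟩ := hbot (γ ^ n)
    rw [Set.mem_singleton_iff] at hgn
    subst hgn
    exact ⟨σn, δ ^ n, h4, fun u => pow_lift ⟨(γ : Ω ≃+* Ω), hsym γ⟩ δ hδ n u, rfl⟩

/-- The Brauer side for one automorphism: if no nontrivial classes in the Selmer groups, modulo those of the points of the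
Jacobians, are fixed by a power of some automorphism `γ`, the same holds in the Tate modules of the Brauer groups. -/
theorem brauer_oneE {ℓ : ℕ} {k F : Type} [Field k] [Field F] [Algebra k F] [IsAlgClosure k F] (hℓ : ℓ.Prime)
    (hk : (ℓ : k) ≠ 0) {f : k[X][X]} (hB : Ze.IsBranch ℓ F (RatFunc F) f)
    (hNT : ∀ [IsGood ℓ ((f.map (base k F (RatFunc F) (RatFunc F))).map
        (algebraMap (RatFunc F) (AlgebraicClosure (RatFunc F))))],
      ∃ γ : AutO k F (RatFunc F) (AlgebraicClosure (RatFunc F)), ∀ n : ℕ, 0 < n →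
        NTJ ℓ (f.map (base k F (RatFunc F) (RatFunc F))) (Zp.UB F ℓ (f.map (base k F (RatFunc F) (RatFunc F))))
          {((γ ^ n : AutO k F (RatFunc F) (AlgebraicClosure (RatFunc F))) :
            AlgebraicClosure (RatFunc F) ≃+* AlgebraicClosure (RatFunc F))}) :
    ∀ (K S : Type) [Field K] [Algebra F K] [Field S] [Algebra K S] [IsAlgClosure K S] (t x y : K),
      IsCoverField ℓ F f t x y →
      ∃ δ : S ≃+* S, ((∀ c : k, δ (algebraMap K S (algebraMap F K (algebraMap k F c))) =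
          algebraMap K S (algebraMap F K (algebraMap k F c))) ∧
        δ (algebraMap K S t) = algebraMap K S t ∧ δ (algebraMap K S x) = algebraMap K S x ∧
          δ (algebraMap K S y) = algebraMap K S y) ∧
        ∀ n : ℕ, 0 < n → ∀ b : ℕ → (S ≃ₐ[K] S) → (S ≃ₐ[K] S) → Sˣ, IsTateSequence ℓ b →
          (∀ m, IsUnramified F (b m)) → (∀ m, Bra.IsFixedBy (b m) (δ ^ n)) → ∀ m, IsCoboundary (b m) := by
  intro K S _ _ _ _ _ t x y hK
  have htr : Transcendental F t := by
    have h4 := hK.independent.transcendental 0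
    exact h4
  have hinj : Function.Injective ((aeval t : F[X] →ₐ[F] K) : F[X] →+* K) := by
    rw [injective_iff_map_eq_zero]
    intro p hp
    exact (transcendental_iff.1 htr) p hp
  let i : RatFunc F →+* K := IsFractionRing.lift hinj
  have hi : ∀ p : F[X], i (algebraMap F[X] (RatFunc F) p) = aeval t p := fun p =>
    IsFractionRing.lift_algebraMap hinj p
  have hgen : ∀ M : Subfield K, (∀ z : RatFunc F, i z ∈ M) → x ∈ M → y ∈ M → M = ⊤ := by
    intro M h1 h2 h3
    rw [eq_top_iff]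
    intro z _
    let M' : IntermediateField F K := { M with
      algebraMap_mem' := fun c => by
        have h4 := h1 (algebraMap F[X] (RatFunc F) (C c))
        rw [hi, aeval_C] at h4
        exact h4 }
    have h4 : IntermediateField.adjoin F {t, x, y} ≤ M' := by
      rw [IntermediateField.adjoin_le_iff]
      intro w hw
      rcases hw with rfl | rfl | hw
      · have h4 := h1 (algebraMap F[X] (RatFunc F) X)
        rw [hi, aeval_X] at h4
        exact h4
      · exact h2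
      · rw [Set.mem_singleton_iff.1 hw]
        exact h3
    rw [hK.generate] at h4
    exact h4 IntermediateField.mem_top
  exact zt_auxE (S := S) (Ω := AlgebraicClosure (RatFunc F)) (L := RatFunc F) hℓ hk hB
    (fun {_} => hNT) hK.independent hK.equation i hi hgen

end Pool.Agent.Lib.MP_89bcae_ag.Zt
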