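import Mathlib
import Pool.Agent.Lib.MP_89bcae_ag.Zt.MainE
import Pool.Agent.Lib.MP_89bcae_ag.Zt.TrE
import Pool.Agent.Lib.MP_89bcae_ag.Zt.DefsT
import Pool.Agent.Lib.MP_89bcae_ag.Ze.Fin

/-!
# One automorphism: the final theorems, for reducible curves
-/

attribute [local instance 100000] Pool.Agent.Lib.MP_89bcae_ag.Brt.tffFields
attribute [local instance 100000] Pool.Agent.Lib.MP_89bcae_ag.Wt.ifrNF Pool.Agent.Lib.MP_89bcae_ag.Wt.iddNF

open Polynomial IsDedekindDomain

open scoped Classical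

namespace Pool.Agent.Lib.MP_89bcae_ag.Zt

open Pool.Agent.Lib.MP_89bcae_ag.Wt Pool.Agent.Lib.MP_89bcae_ag.Wt.Lns Pool.Agent.Lib.MP_89bcae_ag.Bra
  Pool.Agent.Lib.MP_89bcae_ag.Brt Pool.Agent.Lib.MP_89bcae_ag.Zc

open Pool.Agent.Lib.MP_89bcae_ag.Zq (NTJ exists_red ntj_congr)

open Pool.Agent.Lib.MP_89bcae_ag.Zp (UB ltprop_ub)

open Pool.Agent.Lib.MP_89bcae_ag.Zs (LTprop Co1 IsCoverField red ext_red map_base_red)

open Pool.Agent.Lib.MP_89bcae_ag.Ze

section

variable {ℓ : ℕ} {R : Type} [CommRing R] {G : Subgroup (R ≃+* R)} {V U : Subgroup Rˣ}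

/-- The criterion (I). -/
theorem isAmple_of_large [hl : Fact ℓ.Prime] (hPV : powers ℓ R ≤ V) (hVU : V ≤ U) {m : ℕ}
    (hm : V.relIndex U = ℓ ^ m) (h : HasLargeImage ℓ G V U m) : IsAmpleE G U V := by
  obtain ⟨g, hcard, h⟩ := h
  have hm' : m = 2 * g := Nat.pow_right_injective hl.out.two_le (hm.symm.trans hcard)
  subst hm'
  rcases h with ⟨⟨e, he, halt, hiso⟩, hg⟩ | ⟨⟨rfl, q, hq, he, hiso⟩, hg⟩
  · by_cases hl2 : ℓ = 2
    · subst hl2
      rcases hg with hg | hg
      · refine ample_sympE hPV hVU (g := g) (Or.inr ?_) hcard he halt hiso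
        by_contra h4
        have h5 : g ≤ 3 := by omega
        interval_cases g
        · omega
        · omega
        · omega
        · have h7 : 2 ^ 4 ∣ (6).factorial := by decide
          have h6 : 4 ≤ padicValNat 2 (Nat.factorial (2 * 3)) :=
            (padicValNat_dvd_iff_le (Nat.factorial_ne_zero _)).1 h7
          omega
      · have hg0 : g = 0 := by
          by_contra h0
          have h1 : 2 ≤ 13 * (2 * g) := by omega
          have h2 : (13 * (2 * g)) ^ 1 ≤ (13 * (2 * g)) ^ (2 * g) := Nat.pow_le_pow_right (by omega) (by omega)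
          rw [pow_one] at h2
          omega
        subst hg0
        exact ample_trivialE hVU (by simpa using hcard)
    · exact ample_sympE hPV hVU (Or.inl hl2) hcard he halt hiso
  · refine ample_orthE hPV hVU (g := g) ?_ hcard hq he hiso
    by_contra h4
    have h5 : g ≤ 3 := by omega
    interval_cases g <;> omega

end

/-- An automorphism over `k₁(t)` is an automorphism over `k(t)`. -/
theorem mem_autO_ofE {k F L Ω : Type} [Field k] [Field F] [Algebra k F] [Field L] [Algebra F[X] L] [Field Ω]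
    [Algebra L Ω] (k₁ : IntermediateField k F) {γ : Ω ≃+* Ω} (hγ : γ ∈ AutO k₁ F L Ω) : γ ∈ AutO k F L Ω := by
  intro p
  have h1 : base k F L Ω p = base k₁ F L Ω (p.map (algebraMap k k₁)) := by
    unfold base
    simp only [RingHom.comp_apply, coe_mapRingHom, Polynomial.map_map]
    rfl
  rw [h1]
  exact hγ (p.map (algebraMap k k₁))

/-- The theorem for one automorphism, from the criterion (I). -/
theorem one_of_ample {ℓ : ℕ} [hl : Fact ℓ.Prime] {k F : Type} [Field k] [Field F] [Algebra k F]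
    [IsAlgClosure k F] (hk : (ℓ : k) ≠ 0) {f : k[X][X]} (hB : IsBranch ℓ F (RatFunc F) f)
    {p : (RatFunc F)[X]} (hp : poly F (RatFunc F) f = p)
    (hC : points ℓ p ≤ unramified ℓ F p → IsRigid ℓ (galois ℓ k F p) (unramified ℓ F p) (points ℓ p) ∧
      IsAmpleE (galois ℓ k F p) (unramified ℓ F p) (points ℓ p)) :
    ∀ (K S : Type) [Field K] [Algebra F K] [Field S] [Algebra K S] [IsAlgClosure K S] (t x y : K),
      IsCoverField ℓ F f t x y → BrauerInvariantsTrivialOne ℓ k F S t x y := by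
  have hℓ : ℓ.Prime := hl.out
  have hd : p.degree ≠ 0 := by
    rw [← hp]
    exact hB.degree_ne_zero hℓ
  have hfix : IsFixed k F p := by
    rw [← hp]
    exact fun σ => poly_map f σ
  obtain ⟨ζ, k₁, hζk, hζ, hk₁, hfin, hcl, hζ₁, hk₁0⟩ := exists_red hℓ (k := k) (F := F) hk
  refine brauer_oneE hℓ hk hB fun {_} => ?_
  have hgood : IsGood ℓ (((red k₁ f).map (base k₁ F (RatFunc F) (RatFunc F))).map
      (algebraMap (RatFunc F) (AlgebraicClosure (RatFunc F)))) := by
    rw [map_base_red]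
    infer_instance
  have hgood' : IsGood ℓ (cOver k₁ F (RatFunc F) (AlgebraicClosure (RatFunc F)) (red k₁ f)) := hgood
  have hB₁ : IsBranch ℓ F (RatFunc F) (red k₁ f) := isBranch_red k₁ hB
  have hp₁ : curveL k₁ F (RatFunc F) (red k₁ f) = p := by
    rw [curveL_eq_poly, poly_red, hp]
  have hfix₁ : IsFixed k₁ F p := by
    rw [← hp₁, curveL_eq_poly]
    exact fun σ => poly_map _ σ
  have H : LHyp ℓ k₁ F (RatFunc F) (red k₁ f) (⟨ζ, hζk⟩ : k₁) := lhyp_of hℓ hk₁0 hζ₁ hB₁
  have hsep : (curveL k₁ F (RatFunc F) (red k₁ f)).Separable :=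
    (good_of (Ω := AlgebraicClosure (RatFunc F)) hℓ hk₁0 hB₁).1
  have hmon : (curveL k₁ F (RatFunc F) (red k₁ f)).Monic := hB₁.monic.map _
  obtain ⟨ρ, hρ1, hρ2, hρ3⟩ := exists_resG (Ω := AlgebraicClosure (RatFunc F)) hfix₁ hℓ hζ₁ hd
  rw [galois_red hd k₁ hζ.pow_eq_one hk₁] at hρ2 hρ3
  have hU : Contains (Ω := AlgebraicClosure (RatFunc F)) (P := red k₁ f) (⟨ζ, hζk⟩ : k₁)
      (UB F ℓ (curveL k₁ F (RatFunc F) (red k₁ f))) p (unramified ℓ F p) := by
    have h3 := contains_unramified (Ω := AlgebraicClosure (RatFunc F)) hℓ hk₁0 hζ₁ hB₁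
    have key : ∀ q : (RatFunc F)[X], curveL k₁ F (RatFunc F) (red k₁ f) = q →
        Contains (Ω := AlgebraicClosure (RatFunc F)) (P := red k₁ f) (⟨ζ, hζk⟩ : k₁)
          (UB F ℓ (curveL k₁ F (RatFunc F) (red k₁ f))) q (unramified ℓ F q) := by
      rintro q rfl
      exact h3
    exact key p hp₁
  obtain ⟨γ, hγ⟩ := ntj_one_genE (Ω := AlgebraicClosure (RatFunc F))
    (LT := UB F ℓ (curveL k₁ F (RatFunc F) (red k₁ f))) H hsep hmon ltprop_ub p hp₁ ρ hρ1 hρ2 hρ3
    (fun γ hγ u hu => points_stable hfix hd hγ hu) hU hC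
  refine ⟨⟨(γ : _ ≃+* _), mem_autO_ofE k₁ γ.2⟩, fun n hn => ?_⟩
  have h3 := hγ n hn
  exact ntj_congr (map_base_red (L := RatFunc F) k₁ (f := f)) h3

/-- The theorem for one automorphism, with a symplectic or an orthogonal group. -/
theorem one_of_large {ℓ : ℕ} [hl : Fact ℓ.Prime] {k F : Type} [Field k] [Field F] [Algebra k F]
    [IsAlgClosure k F] (hk : (ℓ : k) ≠ 0) {f : k[X][X]} (hB : IsBranch ℓ F (RatFunc F) f)
    {p : (RatFunc F)[X]} (hp : poly F (RatFunc F) f = p)
    (hC : IsAdmissible ℓ (galois ℓ k F p) (unramified ℓ F p) (points ℓ p)) {r : ℕ}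
    (hr : (points ℓ p).relIndex (unramified ℓ F p) = ℓ ^ r)
    (h : HasLargeImage ℓ (galois ℓ k F p) (points ℓ p) (unramified ℓ F p) r) :
    ∀ (K S : Type) [Field K] [Algebra F K] [Field S] [Algebra K S] [IsAlgClosure K S] (t x y : K),
      IsCoverField ℓ F f t x y → BrauerInvariantsTrivialOne ℓ k F S t x y := by
  have hd : p.degree ≠ 0 := by
    rw [← hp]
    exact hB.degree_ne_zero hl.out
  have hfix : IsFixed k F p := by
    rw [← hp]
    exact fun σ => poly_map f σ
  exact one_of_ample hk hB hp fun hVU =>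
    ⟨hC.isRigid (fun γ hγ u hu => points_stable hfix hd hγ hu) (powers_le_points p),
      isAmple_of_large (powers_le_points p) hVU hr h⟩

end Pool.Agent.Lib.MP_89bcae_ag.Zt
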