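import Pool.Agent.Lib.MP_89bcae_ag.Z.Ord

set_option autoImplicit false

/-!
# Spaces of endomorphisms stable under the isometries contain injective elements
-/

namespace ZInj

open Module

section LinAlg

variable {K V : Type*} [Field K] [AddCommGroup V] [Module K V]

/-- The map `x ↦ B(x, u) w`. -/
def el (B : LinearMap.BilinForm K V) (u w : V) : V →ₗ[K] V := (B.flip u).smulRight w

theorem el_apply (B : LinearMap.BilinForm K V) (u w x : V) : el B u w x = B x u • w := rfl

theorem el_add (B : LinearMap.BilinForm K V) (u u' w : V) : el B (u + u') w = el B u w + el B u' w := by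
  ext x
  simp only [el_apply, LinearMap.add_apply, map_add, add_smul]

theorem el_add' (B : LinearMap.BilinForm K V) (u w w' : V) : el B u (w + w') = el B u w + el B u w' := by
  ext x
  simp only [el_apply, LinearMap.add_apply, smul_add]

theorem el_smul (B : LinearMap.BilinForm K V) (c : K) (u w : V) : el B (c • u) w = c • el B u w := by
  ext x
  simp only [el_apply, LinearMap.smul_apply, map_smul, smul_eq_mul, mul_smul]

theorem el_smul' (B : LinearMap.BilinForm K V) (c : K) (u w : V) : el B u (c • w) = c • el B u w := by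
  ext x
  simp only [el_apply, LinearMap.smul_apply, smul_comm c]

theorem el_zero (B : LinearMap.BilinForm K V) (w : V) : el B 0 w = 0 := by
  ext x
  simp [el_apply]

theorem el_zero' (B : LinearMap.BilinForm K V) (u : V) : el B u 0 = 0 := by
  ext x
  simp [el_apply]

variable (B : LinearMap.BilinForm K V) (halt : ∀ v, B v v = 0) (hnd : ∀ v, (∀ w, B v w = 0) → v = 0)

include halt hnd

theorem nondeg : B.Nondegenerate := by
  constructor
  · intro v hv
    exact hnd v hv
  · intro v hv
    apply hnd
    intro w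
    rw [ZSymp.skew B halt, hv w, neg_zero]

/-- Separation of a vector from a subspace. -/
theorem sep [FiniteDimensional K V] (S : Submodule K V) (y : V) (hy : y ∉ S) :
    ∃ w, (∀ a ∈ S, B a w = 0) ∧ B y w = 1 := by
  obtain ⟨f, hf, hS⟩ := Submodule.exists_le_ker_of_notMem hy
  have hB := nondeg B halt hnd
  have h1 : ∀ v, B ((B.toDual hB).symm f) v = f v := fun v =>
    LinearMap.BilinForm.apply_toDual_symm_apply ..
  refine ⟨(-(f y)⁻¹) • (B.toDual hB).symm f, fun a ha => ?_, ?_⟩
  · rw [map_smul, ZSymp.skew B halt, h1, LinearMap.mem_ker.1 (hS ha), neg_zero, smul_zero]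
  · rw [map_smul, ZSymp.skew B halt, h1, smul_eq_mul, neg_mul_neg, inv_mul_cancel₀ hf]

/-- A vector orthogonal to two vectors and independent of them. -/
theorem exists_indep [FiniteDimensional K V] (hd : 4 < finrank K V) (a b : V) :
    ∃ v, B a v = 0 ∧ B b v = 0 ∧ v ∉ Submodule.span K ({a, b} : Set V) := by
  classical
  by_contra hcon
  push Not at hcon
  set S : Submodule K V := Submodule.span K ({a, b} : Set V) with hS
  have hker : LinearMap.ker B = ⊥ := by
    rw [eq_bot_iff]
    intro v hv
    rw [LinearMap.mem_ker] at hv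
    rw [Submodule.mem_bot]
    apply hnd
    intro w
    rw [hv]
    rfl
  have h1 := LinearMap.BilinForm.finrank_add_finrank_orthogonal' (B := B) S
  rw [hker, inf_bot_eq, finrank_bot, add_zero] at h1
  have h2 : finrank K S ≤ 2 := by
    have h3 := finrank_span_finset_le_card (R := K) ({a, b} : Finset V)
    rw [Finset.coe_insert, Finset.coe_singleton] at h3
    exact h3.trans Finset.card_le_two
  have h3 : B.orthogonal S ≤ S := by
    intro v hv
    rw [LinearMap.BilinForm.mem_orthogonal_iff] at hv
    exact hcon v (hv a (Submodule.subset_span (by simp))) (hv b (Submodule.subset_span (by simp)))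
  have h4 := Submodule.finrank_mono h3
  omega

/-- A sum of maps `x ↦ B(x, w) u + ε B(x, u) w` which is injective. -/
theorem inj_core [FiniteDimensional K V] (ε : K) (hε : ε ≠ 0) (A : Submodule K (V →ₗ[K] V)) (W : Submodule K V)
    (hW : ∀ x ∈ W, ∀ y ∈ W, B x y = 0) (hW' : ∀ x, (∀ y ∈ W, B y x = 0) → x ∈ W) {n : ℕ} (b : Basis (Fin n) K W)
    (x : Fin n → V) (hx : ∀ k i, B (x k) (b i : V) = if k = i then 1 else 0) (σ : Fin n ≃ Fin n)
    (hA : ∀ i, el B (b (σ i) : V) (x i) + ε • el B (x i) (b (σ i) : V) ∈ A) :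
    ∃ T ∈ A, Function.Injective T := by
  classical
  let T : V →ₗ[K] V := ∑ i, (el B (b (σ i) : V) (x i) + ε • el B (x i) (b (σ i) : V))
  have hT : ∀ v, T v = ∑ i, (B v (b (σ i) : V) • x i + ε • B v (x i) • (b (σ i) : V)) := by
    intro v
    simp only [T, LinearMap.sum_apply, LinearMap.add_apply, LinearMap.smul_apply, el_apply]
  refine ⟨T, A.sum_mem fun i _ => hA i, ?_⟩
  rw [injective_iff_map_eq_zero]
  intro v hv
  rw [hT] at hv
  have h1 : ∀ j, B v (b (σ j) : V) = 0 := by
    intro j
    have h2 := congrArg (fun t => B t (b j : V)) hv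
    simp only [map_sum, LinearMap.sum_apply, map_add, LinearMap.add_apply, map_smul, LinearMap.smul_apply,
      hx, hW _ (b _).2 _ (b _).2, smul_eq_mul, mul_zero, add_zero, mul_ite, mul_one, Finset.sum_ite_eq',
      Finset.mem_univ, if_true, map_zero, LinearMap.zero_apply] at h2
    exact h2
  have h2 : ∀ i, B v (b i : V) = 0 := fun i => by
    have := h1 (σ.symm i)
    rwa [Equiv.apply_symm_apply] at this
  have h3 : ∀ y : W, B (y : V) v = 0 := by
    intro y
    rw [← b.sum_repr y, Submodule.coe_sum, map_sum, LinearMap.sum_apply]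
    refine Finset.sum_eq_zero fun i _ => ?_
    rw [Submodule.coe_smul, map_smul, LinearMap.smul_apply, ZSymp.skew B halt, h2, neg_zero, smul_zero]
  have h4 : v ∈ W := hW' v fun y hy => h3 ⟨y, hy⟩
  simp only [h1, zero_smul, zero_add] at hv
  have h5 : ∑ i, (ε * B v (x i)) • b (σ i) = 0 := by
    refine Subtype.ext ?_
    rw [Submodule.coe_sum, ZeroMemClass.coe_zero, ← hv]
    exact Finset.sum_congr rfl fun i _ => by rw [Submodule.coe_smul, mul_smul]
  have h6 : ∀ i, B v (x i) = 0 := by
    have h7 := Fintype.linearIndependent_iff.1 (b.linearIndependent.comp σ σ.injective) _ h5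
    intro i
    rcases mul_eq_zero.1 (h7 i) with h8 | h8
    · exact absurd h8 hε
    · exact h8
  have h7 : ∀ i, b.repr ⟨v, h4⟩ i = 0 := by
    intro i
    have h8 := h6 i
    rw [ZSymp.skew B halt, neg_eq_zero] at h8
    have h9 : B (x i) ((⟨v, h4⟩ : W) : V) = b.repr ⟨v, h4⟩ i := by
      conv_lhs => rw [← b.sum_repr ⟨v, h4⟩, Submodule.coe_sum, map_sum]
      rw [Finset.sum_eq_single i]
      · rw [Submodule.coe_smul, map_smul, hx, if_pos rfl, smul_eq_mul, mul_one]
      · intro j _ hj
        rw [Submodule.coe_smul, map_smul, hx, if_neg (Ne.symm hj), smul_zero]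
      · intro hi
        exact absurd (Finset.mem_univ i) hi
    rw [← h9]
    exact h8
  have h8 : (⟨v, h4⟩ : W) = 0 := by
    rw [← b.sum_repr ⟨v, h4⟩]
    exact Finset.sum_eq_zero fun i _ => by rw [h7, zero_smul]
  exact congrArg Subtype.val h8

/-- A space of endomorphisms which contains the maps `x ↦ B(x, w) u + ε B(x, u) w`, for `u` and `w` orthogonal,
contains an injective map. -/
theorem inj_of_pairs [FiniteDimensional K V] (hd : 4 ≤ finrank K V) (ε : K) (hε : ε ≠ 0)
    (A : Submodule K (V →ₗ[K] V)) (hA : ∀ u w, B u w = 0 → el B w u + ε • el B u w ∈ A) :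
    ∃ T ∈ A, Function.Injective T := by
  classical
  obtain ⟨W, hW, hW'⟩ := ZSymp.exists_lagrangian B halt
  have hfr := ZSymp.finrank_lagrangian B hnd W hW hW'
  obtain ⟨n, hn⟩ : ∃ n, finrank K W = n + 2 := ⟨finrank K W - 2, by omega⟩
  let b : Basis (Fin (n + 2)) K W := finBasisOfFinrankEq K W hn
  obtain ⟨x, hx⟩ := ZSymp.exists_dual B halt hnd W b
  let σ : Fin (n + 2) ≃ Fin (n + 2) := finRotate (n + 2)
  have hσ : ∀ i, i ≠ σ i := by
    intro i
    show i ≠ finRotate (n + 1 + 1) i
    rw [finRotate_succ_apply]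
    intro h
    have h1 : (1 : Fin (n + 1 + 1)) = 0 := by
      have := congrArg (fun t => t - i) h
      simpa using this.symm
    exact absurd h1 (by simp)
  refine inj_core B halt hnd ε hε A W hW hW' b x hx σ fun i => hA _ _ ?_
  rw [hx, if_neg (hσ i)]

/-- A space of endomorphisms which contains the maps `x ↦ B(x, w) u + ε B(x, u) w` contains an injective map. -/
theorem inj_of_all [FiniteDimensional K V] (ε : K) (hε : ε ≠ 0)
    (A : Submodule K (V →ₗ[K] V)) (hA : ∀ u w, el B w u + ε • el B u w ∈ A) :
    ∃ T ∈ A, Function.Injective T := by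
  classical
  obtain ⟨W, hW, hW'⟩ := ZSymp.exists_lagrangian B halt
  let b : Basis (Fin (finrank K W)) K W := finBasis K W
  obtain ⟨x, hx⟩ := ZSymp.exists_dual B halt hnd W b
  exact inj_core B halt hnd ε hε A W hW hW' b x hx (Equiv.refl _) fun i => hA _ _

/-- A vector orthogonal to two vectors and not proportional to them. -/
theorem exists_indep2 [FiniteDimensional K V] (hd : 4 ≤ finrank K V) (a b : V) :
    ∃ v, B a v = 0 ∧ B b v = 0 ∧ v ∉ Submodule.span K ({a} : Set V) ∧ v ∉ Submodule.span K ({b} : Set V) := by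
  classical
  set S : Submodule K V := Submodule.span K ({a, b} : Set V) with hS
  have hker : LinearMap.ker B = ⊥ := by
    rw [eq_bot_iff]
    intro v hv
    rw [LinearMap.mem_ker] at hv
    rw [Submodule.mem_bot]
    apply hnd
    intro w
    rw [hv]
    rfl
  have h1 := LinearMap.BilinForm.finrank_add_finrank_orthogonal' (B := B) S
  rw [hker, inf_bot_eq, finrank_bot, add_zero] at h1
  have h2 : finrank K S ≤ 2 := by
    have h3 := finrank_span_finset_le_card (R := K) ({a, b} : Finset V)
    rw [Finset.coe_insert, Finset.coe_singleton] at h3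
    exact h3.trans Finset.card_le_two
  have h3 : ∀ c : V, ∃ v ∈ B.orthogonal S, v ∉ Submodule.span K ({c} : Set V) := by
    intro c
    by_contra hcon
    push Not at hcon
    have h4 := Submodule.finrank_mono (s := B.orthogonal S) (t := Submodule.span K ({c} : Set V)) hcon
    have h5 := finrank_span_le_card (R := K) ({c} : Set V)
    rw [Set.toFinset_singleton, Finset.card_singleton] at h5
    omega
  have h4 : ∀ v ∈ B.orthogonal S, B a v = 0 ∧ B b v = 0 := by
    intro v hv
    rw [LinearMap.BilinForm.mem_orthogonal_iff] at hv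
    exact ⟨hv a (Submodule.subset_span (by simp)), hv b (Submodule.subset_span (by simp))⟩
  obtain ⟨v, hv, hva⟩ := h3 a
  obtain ⟨v', hv', hvb⟩ := h3 b
  by_cases h5 : v ∈ Submodule.span K ({b} : Set V)
  · by_cases h6 : v' ∈ Submodule.span K ({a} : Set V)
    · have h7 := h4 _ (Submodule.add_mem _ hv hv')
      refine ⟨v + v', h7.1, h7.2, fun h => hva ?_, fun h => hvb ?_⟩
      · rw [← add_sub_cancel_right v v']
        exact Submodule.sub_mem _ h h6
      · rw [← add_sub_cancel_left v v']
        exact Submodule.sub_mem _ h h5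
    · exact ⟨v', (h4 _ hv').1, (h4 _ hv').2, h6, hvb⟩
  · exact ⟨v, (h4 _ hv).1, (h4 _ hv).2, hva, h5⟩

end LinAlg

end ZInj
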