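import Pool.Agent.Lib.MP_89bcae_ag.Zt.Pow

set_option autoImplicit false

/-!
# One element of the group without fixed vectors: the lemma
-/

namespace MP89bZ

open Finset

section lemmaP

variable {l : ℕ} [hl : Fact l.Prime] {H : Type*} [AddCommGroup H] [Module ℤ_[l] H]
  {G : Type*} [Group G] [DistribMulAction G H] {M : Type*} [AddCommGroup M] [DistribMulAction G M]

/-- `K` is the reduction of `(γ - 1) / (s - 1)^m`. -/
def IsRed (s : Module.End ℤ_[l] H) (th : H →+ M) (m : ℕ) (γ : G) (K : th.range →+ th.range) : Prop :=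
  ∀ h : H, ∃ y : H, γ • h - h = ((s - 1) ^ m) y ∧ ((K ⟨th h, h, rfl⟩ : th.range) : M) = th y

theorem IsRed.th_smul {s : Module.End ℤ_[l] H} {th : H →+ M} {m : ℕ} (hm : m ≠ 0)
    (hker : ∀ h : H, th ((s - 1) h) = 0) {γ : G} {K : th.range →+ th.range} (h : IsRed s th m γ K)
    (y : H) : th (γ • y) = th y := by
  obtain ⟨z, hz, -⟩ := h y
  obtain ⟨j, rfl⟩ := Nat.exists_eq_succ_of_ne_zero hm
  rw [← sub_eq_zero, ← map_sub, hz, Nat.succ_eq_add_one, pow_succ', Module.End.mul_apply]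
  exact hker _

/-- The group of the reductions of `(γ - 1) / (s - 1)^m`. -/
def redGroup (G : Type*) [Group G] [DistribMulAction G H] [DistribMulAction G M] (s : Module.End ℤ_[l] H) (th : H →+ M)
    (hgs : ∀ (g : G) (h : H), g • s h = s (g • h)) (hth : ∀ (g : G) (h : H), th (g • h) = g • th h)
    (hker : ∀ h : H, th ((s - 1) h) = 0) (m : ℕ) (hm : m ≠ 0) : AddSubgroup (th.range →+ th.range) where
  carrier := {K | ∃ γ : G, IsRed s th m γ K}
  zero_mem' := ⟨1, fun h => ⟨0, by simp, by simp⟩⟩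
  add_mem' := by
    rintro K K' ⟨γ, hγ⟩ ⟨γ', hγ'⟩
    refine ⟨γ * γ', fun h => ?_⟩
    obtain ⟨y', hy', hK'⟩ := hγ' h
    obtain ⟨y, hy, hK⟩ := hγ (γ' • h)
    refine ⟨y + y', ?_, ?_⟩
    · rw [mul_smul, map_add, ← hy, ← hy']
      abel
    · rw [AddMonoidHom.add_apply, AddSubgroup.coe_add, hK', map_add, ← hK]
      congr 3
      exact Subtype.ext (hγ'.th_smul hm hker h).symm
  neg_mem' := by
    rintro K ⟨γ, hγ⟩
    refine ⟨γ⁻¹, fun h => ?_⟩
    obtain ⟨y, hy, hK⟩ := hγ h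
    refine ⟨-(γ⁻¹ • y), ?_, ?_⟩
    · rw [map_neg, ← smul_pi s hgs, ← hy, smul_sub, inv_smul_smul]
      abel
    · have h1 := hγ.th_smul hm hker (γ⁻¹ • y)
      rw [smul_inv_smul] at h1
      rw [AddMonoidHom.neg_apply, AddSubgroup.coe_neg, hK, map_neg, h1]

theorem redGroup_conj (s : Module.End ℤ_[l] H) (th : H →+ M)
    (hgs : ∀ (g : G) (h : H), g • s h = s (g • h)) (hth : ∀ (g : G) (h : H), th (g • h) = g • th h)
    (hker : ∀ h : H, th ((s - 1) h) = 0) (m : ℕ) (hm : m ≠ 0) (g : G) (K : th.range →+ th.range)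
    (hK : K ∈ redGroup G s th hgs hth hker m hm) :
    ∃ K' ∈ redGroup G s th hgs hth hker m hm, ∀ r r' : th.range, (r' : M) = g • (r : M) →
      ((K' r' : th.range) : M) = g • ((K r : th.range) : M) := by
  obtain ⟨γ, hγ⟩ := hK
  let ρ : G → th.range →+ th.range := fun g =>
    { toFun := fun r => ⟨g • (r : M), by
        obtain ⟨h, hh⟩ := r.2
        exact ⟨g • h, by rw [hth, hh]⟩⟩
      map_zero' := Subtype.ext (smul_zero g)
      map_add' := fun r r' => Subtype.ext (smul_add g (r : M) (r' : M)) }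
  have hρ : ∀ g r, ((ρ g r : th.range) : M) = g • (r : M) := fun g r => rfl
  refine ⟨(ρ g).comp (K.comp (ρ g⁻¹)), ⟨g * γ * g⁻¹, fun h => ?_⟩, ?_⟩
  · obtain ⟨y, hy, hK⟩ := hγ (g⁻¹ • h)
    refine ⟨g • y, ?_, ?_⟩
    · rw [← smul_pi s hgs, ← hy, smul_sub, smul_inv_smul, mul_smul, mul_smul]
    · rw [AddMonoidHom.comp_apply, AddMonoidHom.comp_apply, hρ, hth, ← hK]
      congr 3
      refine Subtype.ext ?_
      rw [hρ]
      exact (hth _ _).symm
  · intro r r' hr
    rw [AddMonoidHom.comp_apply, AddMonoidHom.comp_apply, hρ]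
    congr 3
    refine Subtype.ext ?_
    rw [hρ, hr, inv_smul_smul]

/-- Representatives modulo `(s - 1)^m`. -/
theorem exists_reps (s : Module.End ℤ_[l] H) (th : H →+ M) (hker : ∀ h : H, th h = 0 ↔ ∃ y, h = (s - 1) y)
    (hfin : Finite th.range) (m : ℕ) :
    ∃ S : Set H, S.Finite ∧ ∀ h : H, ∃ x ∈ S, ∃ y, h - x = ((s - 1) ^ m) y := by
  induction m with
  | zero => exact ⟨{0}, Set.finite_singleton 0, fun h => ⟨0, rfl, h, by simp⟩⟩
  | succ m ih =>
    obtain ⟨S, hS, hS'⟩ := ih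
    have hex : ∀ r : th.range, ∃ h, th h = r := fun r => r.2
    choose rep hrep using hex
    refine ⟨Set.image2 (fun (r : th.range) (x : H) => rep r + (s - 1) x) Set.univ S,
      Set.Finite.image2 _ (Set.finite_univ) hS, fun h => ?_⟩
    have h1 : th (h - rep ⟨th h, h, rfl⟩) = 0 := by rw [map_sub, hrep, sub_self]
    obtain ⟨y, hy⟩ := (hker _).1 h1
    obtain ⟨x, hx, z, hz⟩ := hS' y
    refine ⟨_, ⟨⟨th h, h, rfl⟩, Set.mem_univ _, x, hx, rfl⟩, z, ?_⟩
    rw [← sub_sub, hy, ← map_sub, hz, ← Module.End.mul_apply, ← pow_succ']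

/-- If the reductions are all zero, the orbits are finite. -/
theorem orbit_finite (hsep : ∀ h : H, (∀ n : ℕ, ∃ y, h = ((l : ℤ_[l]) ^ n) • y) → h = 0)
    (s : Module.End ℤ_[l] H) (hs : ∑ i ∈ range l, s ^ i = 0)
    (hgs : ∀ (g : G) (h : H), g • s h = s (g • h)) (th : H →+ M)
    (hker : ∀ h : H, th h = 0 ↔ ∃ y, h = (s - 1) y) (hfin : Finite th.range) (m₀ : ℕ)
    (hred : ∀ m, m₀ ≤ m → ∀ γ : G, (∀ h : H, ∃ y, γ • h - h = ((s - 1) ^ m) y) →
      ∀ h : H, ∃ y, γ • h - h = ((s - 1) ^ (m + 1)) y) (h : H) : (MulAction.orbit G h).Finite := by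
  classical
  obtain ⟨S, hS, hS'⟩ := exists_reps s th hker hfin m₀
  have hSf : Finite S := hS
  choose rep hrepS hrep using hS'
  -- the trivial action
  have htriv : ∀ γ : G, (∀ h : H, ∃ y, γ • h - h = ((s - 1) ^ m₀) y) → ∀ h : H, γ • h = h := by
    intro γ hγ h
    have h1 : ∀ j, ∀ h : H, ∃ y, γ • h - h = ((s - 1) ^ (m₀ + j)) y := by
      intro j
      induction j with
      | zero => exact hγ
      | succ j ih => exact hred _ (Nat.le_add_right _ _) γ ih
    rw [← sub_eq_zero]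
    refine sep_pi hsep s hs _ fun k => ?_
    obtain ⟨y, hy⟩ := h1 k h
    exact ⟨((s - 1) ^ m₀) y, by rw [hy, add_comm, pow_add, Module.End.mul_apply]⟩
  let f : G → S → S := fun γ x => ⟨rep (γ • (x : H)), hrepS _⟩
  have hf : ∀ γ γ' : G, f γ = f γ' → γ • h = γ' • h := by
    intro γ γ' hγ
    have h1 : ∀ x : S, ∃ y, γ • (x : H) - γ' • (x : H) = ((s - 1) ^ m₀) y := by
      intro x
      obtain ⟨y, hy⟩ := hrep (γ • (x : H))
      obtain ⟨y', hy'⟩ := hrep (γ' • (x : H))
      have h2 : rep (γ • (x : H)) = rep (γ' • (x : H)) := congrArg Subtype.val (congrFun hγ x)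
      refine ⟨y - y', ?_⟩
      rw [map_sub, ← hy, ← hy', h2]
      abel
    have h2 : ∀ h : H, (γ'⁻¹ * γ) • h = h := by
      refine htriv _ fun h => ?_
      obtain ⟨y, hy⟩ := hrep h
      obtain ⟨z, hz⟩ := h1 ⟨rep h, hrepS h⟩
      have h3 : γ • h - γ' • h = ((s - 1) ^ m₀) (γ • y - γ' • y + z) := by
        rw [map_add, map_sub, ← smul_pi s hgs, ← smul_pi s hgs, ← hy, ← hz, smul_sub, smul_sub]
        abel
      refine ⟨γ'⁻¹ • (γ • y - γ' • y + z), ?_⟩
      rw [← smul_pi s hgs, ← h3, smul_sub, mul_smul, inv_smul_smul]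
    have h3 := congrArg (fun x => γ' • x) (h2 h)
    simp only [← mul_smul, mul_inv_cancel_left] at h3
    exact h3
  have h1 : (Set.range f).Finite := Set.toFinite _
  choose! c hc using fun (φ : S → S) (hφ : φ ∈ Set.range f) => hφ
  refine (h1.image fun φ => c φ • h).subset ?_
  rintro _ ⟨γ, rfl⟩
  exact ⟨f γ, ⟨γ, rfl⟩, hf _ _ (hc _ ⟨γ, rfl⟩)⟩

/-- The reduction of `(γ - 1) / (s - 1)^m` exists. -/
theorem exists_red (htf : ∀ (a : ℤ_[l]) (h : H), a • h = 0 → a = 0 ∨ h = 0)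
    (s : Module.End ℤ_[l] H) (hs : ∑ i ∈ range l, s ^ i = 0)
    (hgs : ∀ (g : G) (h : H), g • s h = s (g • h)) (th : H →+ M)
    (hker : ∀ h : H, th h = 0 ↔ ∃ y, h = (s - 1) y) (m : ℕ) (γ : G)
    (hγ : ∀ h : H, ∃ y, γ • h - h = ((s - 1) ^ m) y) : ∃ K, IsRed s th m γ K := by
  choose y hy using hγ
  have hinj : ∀ a b : H, ((s - 1) ^ m) a = ((s - 1) ^ m) b → a = b := by
    intro a b hab
    rw [← sub_eq_zero]
    exact inj_pi_pow htf s hs m _ (by rw [map_sub, hab, sub_self])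
  let Y : H →+ H := AddMonoidHom.mk' y fun a b => hinj _ _ (by
    rw [map_add, ← hy, ← hy, ← hy, smul_add]
    abel)
  have hY : ∀ h, Y h = y h := fun h => rfl
  have hsurj : Function.Surjective th.rangeRestrict := AddMonoidHom.rangeRestrict_surjective th
  let K : th.range →+ th.range := th.rangeRestrict.liftOfSurjective hsurj ⟨th.rangeRestrict.comp Y, by
    intro h hh
    rw [AddMonoidHom.mem_ker] at hh ⊢
    have h1 : th h = 0 := congrArg Subtype.val hh
    obtain ⟨z, hz⟩ := (hker h).1 h1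
    refine Subtype.ext ?_
    rw [AddMonoidHom.comp_apply, hY]
    refine (hker _).2 ⟨y z, hinj _ _ ?_⟩
    rw [← hy, hz, ← Module.End.mul_apply, ← pow_succ, pow_succ', Module.End.mul_apply, ← hy, map_sub]
    have h2 := smul_pi s hgs γ 1 z
    rw [pow_one] at h2
    rw [h2]⟩
  refine ⟨K, fun h => ⟨y h, hy h, ?_⟩⟩
  have h1 : K (th.rangeRestrict h) = th.rangeRestrict (Y h) :=
    th.rangeRestrict.liftOfRightInverse_comp_apply _ _ _ h
  exact congrArg Subtype.val h1

/-- **Lemma P.**  A separated torsion free `ℤ_l`-module with a linear action of a group `G`, with an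
endomorphism `s`, `1 + s + .. + s^(l-1) = 0`, commuting with the action, such that the quotient by `1 - s` is
finite.  Then the orbits are finite, or there is an element no power of which fixes a non-zero vector, or there is a
non-zero additive group of endomorphisms of the quotient, stable under conjugation by `G`, without injective elements. -/
theorem lemma_P (htf : ∀ (a : ℤ_[l]) (h : H), a • h = 0 → a = 0 ∨ h = 0)
    (hsep : ∀ h : H, (∀ n : ℕ, ∃ y, h = ((l : ℤ_[l]) ^ n) • y) → h = 0)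
    (s : Module.End ℤ_[l] H) (hs : ∑ i ∈ range l, s ^ i = 0)
    (hgs : ∀ (g : G) (h : H), g • s h = s (g • h))
    (th : H →+ M) (hth : ∀ (g : G) (h : H), th (g • h) = g • th h)
    (hker : ∀ h : H, th h = 0 ↔ ∃ y, h = y - s y) (hfin : Finite th.range) :
    (∀ h : H, (MulAction.orbit G h).Finite) ∨
    (∃ γ : G, ∀ n : ℕ, n ≠ 0 → ∀ h : H, γ ^ n • h = h → h = 0) ∨
    ∃ A : AddSubgroup (th.range →+ th.range), A ≠ ⊥ ∧
      (∀ (g : G), ∀ K ∈ A, ∃ K' ∈ A, ∀ r r' : th.range, (r' : M) = g • (r : M) →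
        ((K' r' : th.range) : M) = g • ((K r : th.range) : M)) ∧
      ∀ K ∈ A, ¬ Function.Injective K := by
  classical
  have hker' : ∀ h : H, th h = 0 ↔ ∃ y, h = (s - 1) y := by
    intro h
    rw [hker]
    constructor
    · rintro ⟨y, hy⟩
      exact ⟨-y, by rw [hy, map_neg, LinearMap.sub_apply, Module.End.one_apply]; abel⟩
    · rintro ⟨y, hy⟩
      exact ⟨-y, by rw [hy, map_neg, LinearMap.sub_apply, Module.End.one_apply]; abel⟩
  have hker0 : ∀ h : H, th ((s - 1) h) = 0 := fun h => (hker' _).2 ⟨h, rfl⟩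
  have hl0 : ∀ m, l ≤ m → m ≠ 0 := fun m hm => by
    have := hl.out.pos
    omega
  by_cases hall : ∀ m (hm : l ≤ m), redGroup G s th hgs hth hker0 m (hl0 m hm) = ⊥
  · left
    refine orbit_finite hsep s hs hgs th hker' hfin l ?_
    intro m hm γ hγ h
    obtain ⟨K, hK⟩ := exists_red htf s hs hgs th hker' m γ hγ
    have h1 : K ∈ redGroup G s th hgs hth hker0 m (hl0 m hm) := ⟨γ, hK⟩
    rw [hall m hm, AddSubgroup.mem_bot] at h1
    obtain ⟨y, hy, hKy⟩ := hK h
    rw [h1, AddMonoidHom.zero_apply, ZeroMemClass.coe_zero] at hKy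
    obtain ⟨z, hz⟩ := (hker' y).1 hKy.symm
    exact ⟨z, by rw [hy, hz, pow_succ, Module.End.mul_apply]⟩
  · right
    push Not at hall
    obtain ⟨m, hm, hne⟩ := hall
    by_cases hK : ∃ K ∈ redGroup G s th hgs hth hker0 m (hl0 m hm), Function.Injective K
    · left
      obtain ⟨K, ⟨γ, hγ⟩, hK⟩ := hK
      refine ⟨γ, fun n hn h hh => ?_⟩
      obtain ⟨τ, hτ⟩ := pow_l s hs
      have h1 : γ • h = h := by
        refine fix_of_pow htf hsep s hs hgs γ (fun h => ?_) n hn h hh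
        obtain ⟨y, hy, -⟩ := hγ h
        refine ⟨τ (((s - 1) ^ (m - l)) y), ?_⟩
        have h2 : m = 1 + ((l - 1) + (m - l)) := by
          have := hl.out.pos
          omega
        rw [hy]
        conv_lhs => rw [h2]
        rw [pow_add, pow_one, Module.End.mul_apply, pow_add, Module.End.mul_apply, hτ,
          Module.End.mul_apply, Module.End.natCast_apply, ← Nat.cast_smul_eq_nsmul ℤ_[l], map_smul]
      by_contra hne
      obtain ⟨k, y, hy, hyp⟩ := exists_prim hsep s hs h hne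
      have h2 : γ • y = y := by
        rw [← sub_eq_zero]
        refine inj_pi_pow htf s hs k _ ?_
        rw [map_sub, ← smul_pi s hgs, ← hy, h1, sub_self]
      obtain ⟨z, hz, hKz⟩ := hγ y
      rw [h2, sub_self] at hz
      have h3 := inj_pi_pow htf s hs m z hz.symm
      rw [h3, map_zero] at hKz
      have h4 : K ⟨th y, y, rfl⟩ = 0 := Subtype.ext hKz
      have h5 := (injective_iff_map_eq_zero K).1 hK _ h4
      have h6 : th y = 0 := congrArg Subtype.val h5
      obtain ⟨x, hx⟩ := (hker' y).1 h6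
      exact hyp x hx
    · right
      push Not at hK
      exact ⟨_, hne, fun g K hKm => redGroup_conj s th hgs hth hker0 m (hl0 m hm) g K hKm, hK⟩

end lemmaP

end MP89bZ
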