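import Pool.Agent.Lib.MP_89bcae_ag.Zt.LA

set_option autoImplicit false

/-!
# Spaces of endomorphisms stable under the symplectic group contain injective elements
-/

namespace ZInj

open Module

section Symp

variable {K V : Type*} [Field K] [AddCommGroup V] [Module K V]

variable (B : LinearMap.BilinForm K V)

/-- The map `x ↦ B(x, w) u - B(x, u) w`. -/
def rr (u w : V) : Module.End K V := el B w u + (-1 : K) • el B u w

theorem rr_apply (u w x : V) : rr B u w x = B x w • u - B x u • w := by
  rw [rr, LinearMap.add_apply, LinearMap.smul_apply, el_apply, el_apply]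
  module

theorem rr_add (u u' w : V) : rr B (u + u') w = rr B u w + rr B u' w := by
  ext x
  simp only [rr_apply, LinearMap.add_apply, map_add]
  module

theorem rr_smul (c : K) (u w : V) : rr B (c • u) w = c • rr B u w := by
  ext x
  simp only [rr_apply, LinearMap.smul_apply, map_smul, smul_eq_mul]
  module

theorem rr_swap (u w : V) : rr B w u = -rr B u w := by
  ext x
  simp only [rr_apply, LinearMap.neg_apply]
  abel

variable (halt : ∀ v, B v v = 0) (hnd : ∀ v, (∀ w, B v w = 0) → v = 0)

include halt

theorem el_sq (v : V) : (el B v v : Module.End K V) * el B v v = 0 := by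
  ext x
  simp [el_apply, halt]

theorem mid (T : Module.End K V) (v : V) : el B v v * T * el B v v = B (T v) v • (el B v v : Module.End K V) := by
  ext x
  simp only [Module.End.mul_apply, el_apply, map_smul, LinearMap.smul_apply, smul_eq_mul]
  module

variable [FiniteDimensional K V] (h2 : (2 : K) ≠ 0) (A : Submodule K (Module.End K V))
  (hA : ∀ T ∈ A, ∀ v, (1 + el B v v) * T * (1 - el B v v) ∈ A ∧ (1 - el B v v) * T * (1 + el B v v) ∈ A)

include h2 hA

theorem mid_mem (T : Module.End K V) (hT : T ∈ A) (v : V) (hv : B (T v) v ≠ 0) : el B v v ∈ A := by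
  obtain ⟨h1, h3⟩ := hA T hT v
  have h4 : (2 * B (T v) v) • (el B v v : Module.End K V) = (2 : K) • T - (1 + el B v v) * T * (1 - el B v v) -
      (1 - el B v v) * T * (1 + el B v v) := by
    rw [mul_smul, ← mid B halt, two_smul, two_smul]
    noncomm_ring
  have h5 : (2 * B (T v) v) • (el B v v : Module.End K V) ∈ A := by
    rw [h4]
    exact A.sub_mem (A.sub_mem (A.smul_mem _ hT) h1) h3
  have h6 := A.smul_mem (2 * B (T v) v)⁻¹ h5
  rwa [smul_smul, inv_mul_cancel₀ (mul_ne_zero h2 hv), one_smul] at h6

theorem el_mem_of (u w : V) (hu : el B u u ∈ A) (huw : B u w ≠ 0) : el B w w ∈ A := by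
  obtain ⟨h1, h3⟩ := hA _ hu w
  have h4 : (2 * B u w ^ 2) • (el B w w : Module.End K V) = (1 + el B w w) * el B u u * (1 - el B w w) +
      (1 - el B w w) * el B u u * (1 + el B w w) - (2 : K) • el B u u := by
    ext x
    simp only [Module.End.mul_apply, LinearMap.add_apply, LinearMap.sub_apply, Module.End.one_apply, el_apply,
      map_add, map_sub, map_smul, LinearMap.smul_apply, smul_eq_mul, halt]
    rw [ZSymp.skew B halt w u]
    module
  have h5 : (2 * B u w ^ 2) • (el B w w : Module.End K V) ∈ A := by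
    rw [h4]
    exact A.sub_mem (A.add_mem h1 h3) (A.smul_mem _ hu)
  have h6 := A.smul_mem (2 * B u w ^ 2)⁻¹ h5
  rwa [smul_smul, inv_mul_cancel₀ (mul_ne_zero h2 (pow_ne_zero 2 huw)), one_smul] at h6

include hnd

theorem case_one (u : V) (hu : el B u u ∈ A) (hu0 : u ≠ 0) :
    ∃ T ∈ A, Function.Injective T := by
  have hall : ∀ w, el B w w ∈ A := by
    intro w
    by_cases hw0 : w = 0
    · rw [hw0, el_zero]
      exact A.zero_mem
    by_cases hw : B u w = 0
    · obtain ⟨p, hp⟩ : ∃ p, B u p ≠ 0 := by
        by_contra hcon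
        push Not at hcon
        exact hu0 (hnd u hcon)
      obtain ⟨q, hq⟩ : ∃ q, B w q ≠ 0 := by
        by_contra hcon
        push Not at hcon
        exact hw0 (hnd w hcon)
      have hq' : B q w ≠ 0 := by
        rw [ZSymp.skew B halt]
        exact neg_ne_zero.2 hq
      obtain ⟨w', h1, h3⟩ : ∃ w', B u w' ≠ 0 ∧ B w' w ≠ 0 := by
        by_cases h1 : B p w = 0
        · by_cases h3 : B u q = 0
          · refine ⟨p + q, ?_, ?_⟩
            · rwa [map_add, h3, add_zero]
            · rwa [map_add, LinearMap.add_apply, h1, zero_add]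
          · exact ⟨q, h3, hq'⟩
        · exact ⟨p, hp, h1⟩
      exact el_mem_of B halt h2 A hA w' w (el_mem_of B halt h2 A hA u w' hu h1) h3
    · exact el_mem_of B halt h2 A hA u w hu hw
  refine inj_of_all B halt hnd 1 one_ne_zero A fun u w => ?_
  have h1 : el B w u + (1 : K) • el B u w = el B (u + w) (u + w) - el B u u - el B w w := by
    rw [el_add, el_add', el_add', one_smul]
    abel
  rw [h1]
  exact A.sub_mem (A.sub_mem (hall _) (hall _)) (hall _)

omit h2 in
theorem step1 (u w : V) (huw : rr B u w ∈ A) (hu : u ∉ Submodule.span K ({w} : Set V)) (v : V)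
    (hv : B w v = 0) : rr B v w ∈ A := by
  have key : ∀ v, B w v = 0 → B u v ≠ 0 → rr B v w ∈ A := by
    intro v hv huv
    obtain ⟨h1, -⟩ := hA _ huw v
    have h4 : B u v • rr B v w = (1 + el B v v) * rr B u w * (1 - el B v v) - rr B u w := by
      ext x
      have h5 : B v w = 0 := by rw [ZSymp.skew B halt, hv, neg_zero]
      simp only [Module.End.mul_apply, LinearMap.add_apply, LinearMap.sub_apply, Module.End.one_apply, el_apply,
        map_add, map_sub, map_smul, LinearMap.smul_apply, smul_eq_mul, halt, rr_apply, hv, h5]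
      rw [ZSymp.skew B halt v u]
      module
    have h5 : B u v • rr B v w ∈ A := by
      rw [h4]
      exact A.sub_mem h1 huw
    have h6 := A.smul_mem (B u v)⁻¹ h5
    rwa [smul_smul, inv_mul_cancel₀ huv, one_smul] at h6
  by_cases huv : B u v = 0
  · obtain ⟨v', h1, h3⟩ := sep B halt hnd _ u hu
    have h4 : B w v' = 0 := h1 w (Submodule.mem_span_singleton_self w)
    have h5 : rr B v w = rr B (v + v') w - rr B v' w := by
      rw [rr_add]
      abel
    rw [h5]
    refine A.sub_mem (key _ ?_ ?_) (key _ h4 ?_)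
    · rw [map_add, hv, h4, add_zero]
    · rw [map_add, huv, h3, zero_add]
      exact one_ne_zero
    · rw [h3]
      exact one_ne_zero
  · exact key v hv huv

omit h2 in
theorem step2 (w : V) (hw0 : w ≠ 0) (hw : ∀ v, B w v = 0 → rr B v w ∈ A) (v : V) (hwv : B w v = 0)
    (hv : v ∉ Submodule.span K ({w} : Set V)) (x : V) (hx : B v x = 0) : rr B x v ∈ A := by
  refine step1 B halt hnd A hA w v ?_ ?_ x hx
  · rw [rr_swap]
    exact A.neg_mem (hw v hwv)
  · intro h
    obtain ⟨c, hc⟩ := Submodule.mem_span_singleton.1 h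
    have hc0 : c ≠ 0 := by
      rintro rfl
      rw [zero_smul] at hc
      exact hw0 hc.symm
    apply hv
    refine Submodule.mem_span_singleton.2 ⟨c⁻¹, ?_⟩
    rw [← hc, smul_smul, inv_mul_cancel₀ hc0, one_smul]

omit h2 in
theorem case_two (hd : 4 ≤ finrank K V) (u w : V) (hw0 : w ≠ 0) (huw : rr B u w ∈ A)
    (hu : u ∉ Submodule.span K ({w} : Set V)) : ∃ T ∈ A, Function.Injective T := by
  have h1 : ∀ v, B w v = 0 → rr B v w ∈ A := step1 B halt hnd A hA u w huw hu
  refine inj_of_pairs B halt hnd hd (-1) (neg_ne_zero.2 one_ne_zero) A fun x y hxy => ?_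
  show rr B x y ∈ A
  by_cases hy0 : y = 0
  · rw [hy0]
    have : rr B x 0 = 0 := by
      ext z
      rw [rr_apply]
      simp
    rw [this]
    exact A.zero_mem
  obtain ⟨v, hv1, hv2, hvw, hvy⟩ := exists_indep2 B halt hnd hd w y
  have hv0 : v ≠ 0 := by
    rintro rfl
    exact hvw (Submodule.zero_mem _)
  have h3 := step2 B halt hnd A hA w hw0 h1 v hv1 hvw
  refine step2 B halt hnd A hA v hv0 h3 y ?_ ?_ x ?_
  · rw [ZSymp.skew B halt, hv2, neg_zero]
  · intro h
    obtain ⟨c, hc⟩ := Submodule.mem_span_singleton.1 h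
    have hc0 : c ≠ 0 := by
      rintro rfl
      rw [zero_smul] at hc
      exact hy0 hc.symm
    apply hvy
    refine Submodule.mem_span_singleton.2 ⟨c⁻¹, ?_⟩
    rw [← hc, smul_smul, inv_mul_cancel₀ hc0, one_smul]
  · rw [ZSymp.skew B halt, hxy, neg_zero]

/-- A nonzero space of endomorphisms stable under the conjugation by the transvections contains an injective one. -/
theorem symp_inj (hne : A ≠ ⊥) : ∃ T ∈ A, Function.Injective T := by
  by_cases hc1 : ∃ T ∈ A, ∃ v, B (T v) v ≠ 0
  · obtain ⟨T, hT, v, hv⟩ := hc1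
    refine case_one B halt hnd h2 A hA v (mid_mem B halt h2 A hA T hT v hv) ?_
    rintro rfl
    exact hv (by simp)
  push Not at hc1
  obtain ⟨T, hT, hT0⟩ := A.ne_bot_iff.1 hne
  by_cases hc2 : ∀ v, ¬ LinearIndependent K ![v, T v]
  · obtain ⟨a, ha⟩ := LinearMap.exists_eq_smul_id_of_forall_notLinearIndependent hc2
    refine ⟨T, hT, ?_⟩
    have ha0 : a ≠ 0 := by
      rintro rfl
      exact hT0 (by rw [ha, zero_smul])
    intro x y hxy
    rw [ha] at hxy
    exact smul_right_injective V ha0 hxy
  push Not at hc2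
  obtain ⟨u, hu⟩ := hc2
  have hT2 : ∀ x y, B (T x) y = B x (T y) := by
    intro x y
    have h3 := hc1 T hT (x + y)
    simp only [map_add, LinearMap.add_apply, hc1 T hT] at h3
    rw [ZSymp.skew B halt x (T y)]
    linear_combination h3
  have hd : 4 ≤ finrank K V := by
    obtain ⟨W, hW, hW'⟩ := ZSymp.exists_lagrangian B halt
    have hfr := ZSymp.finrank_lagrangian B hnd W hW hW'
    have h3 := LinearMap.BilinForm.finrank_add_finrank_orthogonal' (B := B) (Submodule.span K ({u} : Set V))
    have hker : LinearMap.ker B = ⊥ := by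
      rw [eq_bot_iff]
      intro v hv
      rw [LinearMap.mem_ker] at hv
      rw [Submodule.mem_bot]
      apply hnd
      intro w
      rw [hv]
      rfl
    rw [hker, inf_bot_eq, finrank_bot, add_zero, finrank_span_singleton (show u ≠ 0 from hu.ne_zero 0)] at h3
    have h5 : Submodule.span K (Set.range ![u, T u]) ≤ B.orthogonal (Submodule.span K ({u} : Set V)) := by
      rw [Submodule.span_le]
      rintro _ ⟨i, rfl⟩
      rw [SetLike.mem_coe, LinearMap.BilinForm.mem_orthogonal_iff]
      intro n hn
      obtain ⟨c, rfl⟩ := Submodule.mem_span_singleton.1 hn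
      show B (c • u) _ = 0
      rw [map_smul, LinearMap.smul_apply]
      fin_cases i
      · simp [halt]
      · have h6 := hc1 T hT u
        rw [ZSymp.skew B halt, neg_eq_zero] at h6
        simp [h6]
    have h6 := Submodule.finrank_mono h5
    rw [finrank_span_eq_card hu, Fintype.card_fin] at h6
    omega
  refine case_two B halt hnd A hA hd u (T u) ?_ ?_ ?_
  · intro h
    rw [h] at hu
    exact (hu.ne_zero 1) rfl
  · obtain ⟨h1, h3⟩ := hA T hT u
    have h4 : (2 : K) • rr B u (T u) = (1 + el B u u) * T * (1 - el B u u) -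
        (1 - el B u u) * T * (1 + el B u u) := by
      have h5 : rr B u (T u) = el B u u * T - T * el B u u := by
        ext x
        simp only [rr_apply, LinearMap.sub_apply, Module.End.mul_apply, el_apply, map_smul, hT2]
      rw [h5, two_smul]
      noncomm_ring
    have h5 : (2 : K) • rr B u (T u) ∈ A := by
      rw [h4]
      exact A.sub_mem h1 h3
    have h6 := A.smul_mem (2 : K)⁻¹ h5
    rwa [smul_smul, inv_mul_cancel₀ h2, one_smul] at h6
  · intro h
    obtain ⟨c, hc⟩ := Submodule.mem_span_singleton.1 h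
    have h7 := (LinearIndependent.pair_iff.1 hu) (-1) c (by rw [hc, neg_one_smul]; abel)
    exact neg_ne_zero.2 one_ne_zero h7.1

end Symp

end ZInj
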