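import Pool.Agent.Lib.MP_89bcae_ag.Zr.Sq

set_option autoImplicit false

/-!
# One element of the group without fixed vectors
-/

namespace MP89bZ

open Finset

section powers

variable {l : ℕ} [hl : Fact l.Prime] {H : Type*} [AddCommGroup H] [Module ℤ_[l] H]

theorem sep_pi (hsep : ∀ h : H, (∀ n : ℕ, ∃ y, h = ((l : ℤ_[l]) ^ n) • y) → h = 0)
    (s : Module.End ℤ_[l] H) (hs : ∑ i ∈ range l, s ^ i = 0) (h : H)
    (hh : ∀ k : ℕ, ∃ y, h = ((s - 1) ^ k) y) : h = 0 := by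
  obtain ⟨τ, hτ⟩ := pow_l s hs
  refine hsep h fun k => ?_
  obtain ⟨m', hm'⟩ := hh ((l - 1) * k)
  refine ⟨(τ ^ k) m', ?_⟩
  have h1 : ((s - 1) ^ ((l - 1) * k)) = (l : Module.End ℤ_[l] H) ^ k * τ ^ k := by
    rw [pow_mul, hτ, (Nat.cast_commute l τ).mul_pow]
  rw [hm', h1, Module.End.mul_apply, ← Nat.cast_pow, Module.End.natCast_apply]
  rw [← Nat.cast_smul_eq_nsmul ℤ_[l], Nat.cast_pow]

theorem inj_pi (htf : ∀ (a : ℤ_[l]) (h : H), a • h = 0 → a = 0 ∨ h = 0)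
    (s : Module.End ℤ_[l] H) (hs : ∑ i ∈ range l, s ^ i = 0) (h : H) (hh : (s - 1) h = 0) :
    h = 0 := by
  obtain ⟨τ, hcτ, hτ⟩ := l_mul s hs
  have h1 : (l : ℤ_[l]) • h = 0 := by
    have h3 := congrArg (fun T : Module.End ℤ_[l] H => T h) (hτ.trans
      ((hcτ.sub_left (Commute.one_left τ)).eq))
    simp only [Module.End.mul_apply, Module.End.natCast_apply] at h3
    rw [Nat.cast_smul_eq_nsmul, h3, hh, map_zero]
  rcases htf _ _ h1 with h2 | h2
  · exact absurd h2 PadicInt.prime_p.ne_zero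
  · exact h2

theorem inj_pi_pow (htf : ∀ (a : ℤ_[l]) (h : H), a • h = 0 → a = 0 ∨ h = 0)
    (s : Module.End ℤ_[l] H) (hs : ∑ i ∈ range l, s ^ i = 0) (k : ℕ) :
    ∀ h : H, ((s - 1) ^ k) h = 0 → h = 0 := by
  induction k with
  | zero => intro h hh; simpa using hh
  | succ k ih =>
    intro h hh
    rw [pow_succ, Module.End.mul_apply] at hh
    exact inj_pi htf s hs h (ih _ hh)

theorem exists_prim (hsep : ∀ h : H, (∀ n : ℕ, ∃ y, h = ((l : ℤ_[l]) ^ n) • y) → h = 0)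
    (s : Module.End ℤ_[l] H) (hs : ∑ i ∈ range l, s ^ i = 0) (h : H) (hh : h ≠ 0) :
    ∃ (k : ℕ) (y : H), h = ((s - 1) ^ k) y ∧ ∀ z, y ≠ (s - 1) z := by
  classical
  have h1 : ∃ k : ℕ, ¬ ∃ y, h = ((s - 1) ^ k) y := by
    by_contra hcon
    push Not at hcon
    exact hh (sep_pi hsep s hs h hcon)
  obtain ⟨k, hk, hmin⟩ := Nat.findX h1
  have hk0 : k ≠ 0 := by
    rintro rfl
    exact hk ⟨h, by simp⟩
  obtain ⟨j, rfl⟩ := Nat.exists_eq_succ_of_ne_zero hk0
  have h2 := hmin j (Nat.lt_succ_self j)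
  rw [not_not] at h2
  obtain ⟨y, hy⟩ := h2
  refine ⟨j, y, hy, fun z hz => hk ⟨z, ?_⟩⟩
  rw [hy, hz, Nat.succ_eq_add_one, pow_succ, Module.End.mul_apply]

variable {G : Type*} [Group G] [DistribMulAction G H]

theorem smul_pi (s : Module.End ℤ_[l] H) (hgs : ∀ (g : G) (h : H), g • s h = s (g • h)) (g : G)
    (k : ℕ) : ∀ h : H, g • ((s - 1) ^ k) h = ((s - 1) ^ k) (g • h) := by
  induction k with
  | zero => intro h; simp
  | succ k ih =>
    intro h
    rw [pow_succ, Module.End.mul_apply, ih, LinearMap.sub_apply, Module.End.one_apply, smul_sub, hgs,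
      Module.End.mul_apply, LinearMap.sub_apply, Module.End.one_apply]

/-- A power of `γ`, if `γ = 1` modulo `l (s - 1)`. -/
theorem pow_sub (s : Module.End ℤ_[l] H) (γ : G)
    (hγ : ∀ h : H, ∃ y, γ • h - h = (l : ℤ_[l]) • ((s - 1) y)) (m : ℕ) :
    ∀ h : H, ∃ y, γ ^ m • h - h = (l : ℤ_[l]) • ((s - 1) y) := by
  induction m with
  | zero => intro h; exact ⟨0, by simp⟩
  | succ m ih =>
    intro h
    obtain ⟨y, hy⟩ := ih (γ • h)
    obtain ⟨y', hy'⟩ := hγ h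
    refine ⟨y + y', ?_⟩
    rw [map_add, smul_add, ← hy, ← hy', pow_succ, mul_smul]
    abel

theorem fix_of_prime (htf : ∀ (a : ℤ_[l]) (h : H), a • h = 0 → a = 0 ∨ h = 0)
    (hsep : ∀ h : H, (∀ n : ℕ, ∃ y, h = ((l : ℤ_[l]) ^ n) • y) → h = 0)
    (s : Module.End ℤ_[l] H) (hs : ∑ i ∈ range l, s ^ i = 0)
    (hgs : ∀ (g : G) (h : H), g • s h = s (g • h)) (γ : G)
    (hγ : ∀ h : H, ∃ y, γ • h - h = (l : ℤ_[l]) • ((s - 1) y)) (p : ℕ) (hp : p.Prime) (h : H)
    (hh : γ ^ p • h = h) : γ • h = h := by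
  by_contra hne
  obtain ⟨k, y, hy, hyp⟩ := exists_prim hsep s hs (γ • h - h) (sub_ne_zero.2 hne)
  have h1 : ∀ n : ℕ, ∑ i ∈ range n, γ ^ i • (γ • h - h) = γ ^ n • h - h := by
    intro n
    induction n with
    | zero => simp
    | succ n ih =>
      rw [sum_range_succ, ih, smul_sub, pow_succ, mul_smul]
      abel
  have h2 : ∑ i ∈ range p, γ ^ i • y = 0 := by
    apply inj_pi_pow htf s hs k
    rw [map_sum]
    have h3 := h1 p
    rw [hh, sub_self, hy] at h3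
    rw [← h3]
    exact sum_congr rfl fun i _ => (smul_pi s hgs (γ ^ i) k y).symm
  choose z hz using fun i => pow_sub s γ hγ i y
  have h3 : (p : ℤ_[l]) • y = (l : ℤ_[l]) • ((s - 1) (- ∑ i ∈ range p, z i)) := by
    have h4 : ∑ i ∈ range p, (γ ^ i • y - y) = (l : ℤ_[l]) • ((s - 1) (∑ i ∈ range p, z i)) := by
      rw [map_sum, smul_sum]
      exact sum_congr rfl fun i _ => hz i
    rw [sum_sub_distrib, h2, sum_const, card_range, zero_sub] at h4
    rw [map_neg, smul_neg, ← h4, neg_neg, Nat.cast_smul_eq_nsmul]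
  by_cases hpl : p = l
  · subst hpl
    rw [← sub_eq_zero, ← smul_sub] at h3
    rcases htf _ _ h3 with h4 | h4
    · exact PadicInt.prime_p.ne_zero h4
    · exact hyp _ (sub_eq_zero.1 h4)
  · obtain ⟨τ, -, hτ⟩ := l_mul s hs
    have hlτ : (l : ℤ_[l]) • y = (s - 1) (τ y) := by
      have h5 := congrArg (fun T : Module.End ℤ_[l] H => T y) hτ
      simp only [Module.End.mul_apply, Module.End.natCast_apply] at h5
      rw [Nat.cast_smul_eq_nsmul, h5]
    have hco : IsCoprime (p : ℤ) (l : ℤ) := by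
      rw [Int.isCoprime_iff_gcd_eq_one, Int.gcd_natCast_natCast]
      exact (Nat.coprime_primes hp hl.out).2 hpl
    obtain ⟨a, b, hab⟩ := hco
    have h5 : y = a • ((p : ℤ_[l]) • y) + b • ((l : ℤ_[l]) • y) := by
      rw [Nat.cast_smul_eq_nsmul, Nat.cast_smul_eq_nsmul, ← natCast_zsmul, ← natCast_zsmul,
        ← mul_smul, ← mul_smul, ← add_smul, hab, one_smul]
    refine hyp (a • ((l : ℤ_[l]) • (- ∑ i ∈ range p, z i)) + b • τ y) ?_
    rw [map_add, map_zsmul, map_zsmul, map_smul, ← hlτ, ← h3]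
    exact h5

/-- a power of `γ` fixes only the vectors fixed by `γ` -/
theorem fix_of_pow (htf : ∀ (a : ℤ_[l]) (h : H), a • h = 0 → a = 0 ∨ h = 0)
    (hsep : ∀ h : H, (∀ n : ℕ, ∃ y, h = ((l : ℤ_[l]) ^ n) • y) → h = 0)
    (s : Module.End ℤ_[l] H) (hs : ∑ i ∈ range l, s ^ i = 0)
    (hgs : ∀ (g : G) (h : H), g • s h = s (g • h)) (γ : G)
    (hγ : ∀ h : H, ∃ y, γ • h - h = (l : ℤ_[l]) • ((s - 1) y)) (n : ℕ) :
    n ≠ 0 → ∀ h : H, γ ^ n • h = h → γ • h = h := by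
  induction n using Nat.strong_induction_on with
  | _ n ih =>
    intro hn h hh
    by_cases h1 : n = 1
    · rw [h1, pow_one] at hh
      exact hh
    · obtain ⟨m, hm⟩ := Nat.minFac_dvd n
      have hp := Nat.minFac_prime h1
      have hm0 : m ≠ 0 := by
        rintro rfl
        rw [mul_zero] at hm
        exact hn hm
      have hmn : m < n := by
        conv_rhs => rw [hm]
        have := hp.two_le
        have := Nat.pos_of_ne_zero hm0
        nlinarith
      refine ih m hmn hm0 h ?_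
      refine fix_of_prime htf hsep s hs hgs (γ ^ m) (pow_sub s γ hγ m) _ hp h ?_
      rw [← pow_mul, mul_comm, ← hm]
      exact hh

end powers

end MP89bZ
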